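import Pool.Agent.Lib.MP_d81877_alC.Final

/-!
From elements of `R_B(univ)` with known symbols to large first cohomology.
-/

namespace D81877C

open Finset Function Pool.Agent.D818A MP_d81877_alF Pool.Agent.MP_d81877_alF

/-- Independent values of invariant functionals give large cohomology. -/
theorem big_of_matrix {N : ℕ} {F K : Type} [Field F] [Fintype F] [CharP F 2] [Field K]
    [IsAlgClosed K] [CharP K 2] [Algebra F K] {r B : ℕ} (hB1 : 1 ≤ B) (hB : 4 * B + 4 ≤ N)
    (hF : 4 * (N * N) < Fintype.card F - 1) (γ R : Fin r → TT N 4 K)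
    (hγ : ∀ k (g : GL (Fin N) F), ∀ x ∈ DD N F K (cB N B),
      (∀ d ∈ DD N F K (cB N B), stdB N 4 K d x = 0) →
      stdB N 4 K (γ k) (rhoG N 4 F K g x) = stdB N 4 K (γ k) x)
    (hR : ∀ i, InR univ B (R i))
    (hdet : (Matrix.of fun k i => stdB N 4 K (γ k) (R i)).det ≠ 0) : Big r := by
  classical
  set A : Matrix (Fin r) (Fin r) K := Matrix.of fun k i => stdB N 4 K (γ k) (R i) with hA
  have hN : 5 ≤ N := by omega
  have hF' : (4 + 1) * N < Fintype.card F := by
    have h1 : 5 * N ≤ N * N := Nat.mul_le_mul_right _ hN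
    omega
  have hRR : ∀ i, R i ∈ DD N F K (cB N B) ∧ ∀ d ∈ DD N F K (cB N B), stdB N 4 K d (R i) = 0 :=
    fun i => (inR_iff hB hF').1 (hR i)
  refine frame_dual_concrete (F := F) (K := K) (cB N B) ?_ (cB_le hB) 3 ?_ hF γ
    (fun i => ∑ i', A⁻¹ i' i • R i') hγ ?_ ?_ ?_
  · intro j
    fin_cases j <;> simp [cB] <;> omega
  · simp only [cB, Matrix.cons_val]; omega
  · intro i
    exact Submodule.sum_mem _ fun i' _ => Submodule.smul_mem _ _ (hRR i').1
  · intro i d hd
    rw [map_sum]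
    refine sum_eq_zero fun i' _ => ?_
    rw [map_smul, (hRR i').2 d hd, smul_zero]
  · intro i k
    rw [map_sum]
    have h1 : ∀ i', stdB N 4 K (γ k) (A⁻¹ i' i • R i') = A k i' * A⁻¹ i' i := by
      intro i'
      rw [map_smul, smul_eq_mul, mul_comm]
      rfl
    rw [sum_congr rfl fun i' _ => h1 i', ← Matrix.mul_apply,
      Matrix.mul_nonsing_inv _ (isUnit_iff_ne_zero.2 hdet), Matrix.one_apply]
    simp only [eq_comm]

/-- **Elements with triangular symbols give large cohomology.** -/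
theorem big_of_symbols {N : ℕ} {F K : Type} [Field F] [Fintype F] [CharP F 2] [Field K]
    [IsAlgClosed K] [CharP K 2] [Algebra F K] {r B M : ℕ} (hN : N + 2 = 2 ^ r * (M + 1))
    (hB1 : 1 ≤ B) (hB : 4 * B + 4 ≤ N) (hr : 2 ^ r - 1 ≤ B)
    (hF : 4 * (N * N) < Fintype.card F - 1) (R : Fin r → TT N 4 K)
    (hR : ∀ i, InR univ B (R i)) (q : Fin r → Fin r → Finset (Fin N) → K)
    (hq : ∀ i k : Fin r, IsSymbol univ (2 ^ ((k : ℕ) + 1) - 1)
      (nf univ (B - (2 ^ ((k : ℕ) + 1) - 1)) (R i)) (q i k))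
    (h0 : ∀ i k : Fin r, k < i →
      ∑ I ∈ (univ : Finset (Fin N)).powersetCard (2 ^ ((k : ℕ) + 1) - 1), q i k I = 0)
    (h1 : ∀ i : Fin r,
      ∑ I ∈ (univ : Finset (Fin N)).powersetCard (2 ^ ((i : ℕ) + 1) - 1), q i i I ≠ 0) :
    Big r := by
  classical
  have hN5 : 5 ≤ N := by omega
  have hF' : (4 + 1) * N < Fintype.card F := by
    have h1 : 5 * N ≤ N * N := Nat.mul_le_mul_right _ hN5
    omega
  have key : ∀ k : Fin r, ∃ γ : TT N 4 K,
      (∀ (g : GL (Fin N) F), ∀ x ∈ DD N F K (cB N B),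
        (∀ d ∈ DD N F K (cB N B), stdB N 4 K d x = 0) →
        stdB N 4 K γ (rhoG N 4 F K g x) = stdB N 4 K γ x) ∧
      (∀ x : TT N 4 K, ∀ q : Finset (Fin N) → K,
        IsSymbol univ (2 ^ ((k : ℕ) + 1) - 1) (nf univ (B - (2 ^ ((k : ℕ) + 1) - 1)) x) q →
        stdB N 4 K γ x =
          ∑ I ∈ (univ : Finset (Fin N)).powersetCard (2 ^ ((k : ℕ) + 1) - 1), q I) := by
    intro k
    have hk : (k : ℕ) + 1 ≤ r := k.2
    have hpow : 2 ^ ((k : ℕ) + 1) - 1 ≤ B := by
      have : 2 ^ ((k : ℕ) + 1) ≤ 2 ^ r := Nat.pow_le_pow_right (by norm_num) hk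
      omega
    obtain ⟨M', hM'⟩ : ∃ M', N + 2 = 2 ^ ((k : ℕ) + 1) * (M' + 1) := by
      refine ⟨2 ^ (r - (k + 1)) * (M + 1) - 1, ?_⟩
      have h2 : 0 < 2 ^ (r - (k + 1)) * (M + 1) := by positivity
      rw [Nat.sub_add_cancel h2, ← mul_assoc, ← pow_add, Nat.add_sub_cancel' hk]
      exact hN
    have h3 : B - (2 ^ ((k : ℕ) + 1) - 1) + (2 ^ ((k : ℕ) + 1) - 1) = B := by omega
    have h4 := exists_gamma (N := N) (K := K) (F := F) (k := k + 1) (M := M')
      (m := B - (2 ^ ((k : ℕ) + 1) - 1)) (by omega) hM' (by rw [h3]; exact hB) hF'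
    rw [h3] at h4
    exact h4
  choose γ hγ1 hγ2 using key
  refine big_of_matrix hB1 hB hF γ R hγ1 hR ?_
  have hval : ∀ k i, stdB N 4 K (γ k) (R i) =
      ∑ I ∈ (univ : Finset (Fin N)).powersetCard (2 ^ ((k : ℕ) + 1) - 1), q i k I :=
    fun k i => hγ2 k _ _ (hq i k)
  rw [Matrix.det_of_isLowerTriangular]
  · rw [prod_ne_zero_iff]
    intro i _
    rw [Matrix.of_apply, hval]
    exact h1 i
  · intro k i hki
    rw [Matrix.of_apply, hval]
    exact h0 i k hki

/-- A finite field of characteristic two with many elements inside an algebraically closed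
field. -/
theorem exists_field (n : ℕ) : ∃ (F K : Type) (_ : Field F) (_ : Fintype F) (_ : CharP F 2)
    (_ : Field K) (_ : IsAlgClosed K) (_ : CharP K 2) (_ : Algebra F K),
      n < Fintype.card F - 1 := by
  have : Fact (Nat.Prime 2) := ⟨Nat.prime_two⟩
  let F := GaloisField 2 (n + 2)
  let K := AlgebraicClosure (ZMod 2)
  let _ : Fintype F := Fintype.ofFinite F
  have : CharP K 2 := charP_of_injective_algebraMap (algebraMap (ZMod 2) K).injective 2
  let _ : Algebra F K := (IsAlgClosed.lift (R := ZMod 2) (S := F) (M := K)).toRingHom.toAlgebra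
  refine ⟨F, K, inferInstance, inferInstance, inferInstance, inferInstance, inferInstance,
    inferInstance, inferInstance, ?_⟩
  have h1 : Fintype.card F = 2 ^ (n + 2) := by
    rw [← Nat.card_eq_fintype_card]
    exact GaloisField.card 2 (n + 2) (by omega)
  rw [h1]
  have h2 : n + 2 < 2 ^ (n + 2) := Nat.lt_two_pow_self
  omega

end D81877C
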