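import Pool.Agent.Lib.MP_d81877_alC.Square
import Pool.Agent.Lib.MP_d81877_alI.Defs

/-!
The bridge between `D81877C` and `MP_d81877_alI`: the two versions of the operators agree.
-/

namespace D81877C

open Finset Function Pool.Agent.D818A MP_d81877_alI

set_option linter.unusedSectionVars false

variable {N : ℕ} {K : Type*} [Field K]

theorem supp_iff {V : Finset (Fin N)} {b : ℕ} {u : Tup N → K} :
    Supp V b u ↔ ∀ S, ¬ Shp V b S → u S = 0 := by
  constructor
  · intro h S hS
    by_contra hne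
    exact hS (h S hne)
  · intro h S hne
    by_contra hS
    exact hne (h S hS)

theorem dm_iff {V : Finset (Fin N)} {b : ℕ} {u : Tup N → K} :
    Dm V b u ↔ Supp V b u ∧ Primitive u :=
  ⟨fun h => ⟨supp_iff.2 h.shp, h.prm⟩, fun h => ⟨supp_iff.1 h.1, h.2⟩⟩

theorem rm_iff {V : Finset (Fin N)} {b : ℕ} {u : Tup N → K} : Rm V b u ↔ InR V b u := by
  constructor
  · intro h
    exact ⟨(dm_iff.1 h.dm).1, (dm_iff.1 h.dm).2, fun v hv hvp => h.orth v (dm_iff.2 ⟨hv, hvp⟩)⟩
  · intro h
    exact ⟨dm_iff.2 ⟨h.supp, h.prim⟩, fun v hv => h.orth v (dm_iff.1 hv).1 (dm_iff.1 hv).2⟩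

theorem Eab_one (a b : Fin N) (u : Tup N → K) : Eab 1 a b u = E a b u := by
  funext S
  unfold Eab E cols
  rw [powersetCard_one, sum_map, sum_filter]
  refine sum_congr rfl fun l _ => ?_
  split_ifs with h
  · congr 1
    refine tup_ext fun k i => ?_
    rw [mem_tr]
    simp only [Embedding.coeFn_mk, mvs, mem_singleton]
    by_cases hk : k = l
    · subst hk; simp
    · simp [hk]
  · rfl

theorem free_iff {i k : Fin N} {S : Tup N} :
    (∀ l, i ∉ S l ∧ k ∉ S l) ↔ (ltr S i = ∅ ∧ ltr S k = ∅) := by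
  simp only [eq_empty_iff_forall_notMem, mem_ltr]
  exact forall_and

theorem put_put_eq {i k : Fin N} (hik : i ≠ k) {S : Tup N} (h : ∀ l, i ∉ S l ∧ k ∉ S l)
    (A : Finset (Fin 4)) :
    (fun l => if l ∈ A then insert i (S l) else insert k (S l)) = put i A (put k Aᶜ S) := by
  refine tup_ext fun l x => ?_
  simp only [mem_put, mem_compl]
  by_cases hA : l ∈ A
  · simp only [hA, if_true, mem_insert]
    by_cases hx : x = i
    · subst hx; simp
    · by_cases hx' : x = k
      · subst hx'; simp [hx, (h l).2]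
      · simp [hx, hx']
  · simp only [hA, if_false, mem_insert]
    by_cases hx : x = i
    · subst hx; simp [hik, (h l).1]
    · by_cases hx' : x = k
      · subst hx'; simp [hx]
      · simp [hx, hx']

theorem ctr_eq {i k : Fin N} (hik : i ≠ k) (u : Tup N → K) : ctr i k u = cc 2 i k u := by
  funext S
  unfold ctr
  by_cases h : ∀ l, i ∉ S l ∧ k ∉ S l
  · rw [if_pos h, cc_of (free_iff.1 h).1 (free_iff.1 h).2]
    refine sum_congr rfl fun A _ => ?_
    rw [put_put_eq hik h]
  · rw [if_neg h, cc_of_not (fun h' => h (free_iff.2 h'))]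

theorem ctr1_eq {i k : Fin N} (hik : i ≠ k) (u : Tup N → K) : ctr1 i k u = cc 1 i k u := by
  funext S
  unfold ctr1
  by_cases h : ∀ l, i ∉ S l ∧ k ∉ S l
  · rw [if_pos h, cc_of (free_iff.1 h).1 (free_iff.1 h).2]
    refine sum_congr rfl fun A _ => ?_
    rw [put_put_eq hik h]
  · rw [if_neg h, cc_of_not (fun h' => h (free_iff.2 h'))]

/-- `R_b(V)` is stable under `Eab 1`. -/
theorem rm_Eab [CharP K 2] {V : Finset (Fin N)} {b : ℕ} {u : Tup N → K} (hu : Rm V b u)
    {x z : Fin N} (hx : x ∈ V) (hz : z ∈ V) (hxz : x ≠ z) : Rm V b (Eab 1 x z u) := by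
  rw [Eab_one]
  exact rm_iff.2 ((rm_iff.1 hu).E hx hz hxz)

end D81877C
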