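import Pool.Agent.Lib.MP_d81877_alC.InR

/-!
The contraction calculus: commutation of contractions, and the rules relating contractions and the
operators `E a b`.
-/

namespace D81877C

open Finset Function Pool.Agent.D818A

set_option linter.unusedSectionVars false

variable {N : ℕ} {K : Type*} [CommRing K]

theorem cc_of {k : ℕ} {a b : Fin N} {u : Tup N → K} {S : Tup N} (ha : ltr S a = ∅)
    (hb : ltr S b = ∅) :
    cc k a b u S = ∑ A ∈ (univ : Finset (Fin 4)).powersetCard k, u (put a A (put b Aᶜ S)) := by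
  rw [cc, if_pos ⟨ha, hb⟩]

theorem cc_of_not {k : ℕ} {a b : Fin N} {u : Tup N → K} {S : Tup N}
    (h : ¬ (ltr S a = ∅ ∧ ltr S b = ∅)) : cc k a b u S = 0 := by
  rw [cc, if_neg h]

theorem cc_comm (k k' : ℕ) {a b c d : Fin N} (hac : a ≠ c) (had : a ≠ d) (hbc : b ≠ c)
    (hbd : b ≠ d) (u : Tup N → K) :
    cc k a b (cc k' c d u) = cc k' c d (cc k a b u) := by
  funext S
  by_cases h1 : ltr S a = ∅ ∧ ltr S b = ∅
  · by_cases h2 : ltr S c = ∅ ∧ ltr S d = ∅
    · rw [cc_of h1.1 h1.2, cc_of h2.1 h2.2]
      have e1 : ∀ A ∈ (univ : Finset (Fin 4)).powersetCard k,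
          cc k' c d u (put a A (put b Aᶜ S)) = ∑ C ∈ (univ : Finset (Fin 4)).powersetCard k',
            u (put a A (put b Aᶜ (put c C (put d Cᶜ S)))) := by
        intro A _
        rw [cc_of (by rw [ltr_put_of_ne hac.symm, ltr_put_of_ne hbc.symm, h2.1])
          (by rw [ltr_put_of_ne had.symm, ltr_put_of_ne hbd.symm, h2.2])]
        refine sum_congr rfl fun C _ => ?_
        rw [put_comm had.symm, put_comm hac.symm, put_comm hbd.symm, put_comm hbc.symm]
      have e2 : ∀ C ∈ (univ : Finset (Fin 4)).powersetCard k',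
          cc k a b u (put c C (put d Cᶜ S)) = ∑ A ∈ (univ : Finset (Fin 4)).powersetCard k,
            u (put a A (put b Aᶜ (put c C (put d Cᶜ S)))) := by
        intro C _
        rw [cc_of (by rw [ltr_put_of_ne hac, ltr_put_of_ne had, h1.1])
          (by rw [ltr_put_of_ne hbc, ltr_put_of_ne hbd, h1.2])]
      rw [sum_congr rfl e1, sum_congr rfl e2, sum_comm]
    · rw [cc_of h1.1 h1.2, cc_of_not h2]
      refine sum_eq_zero fun A _ => cc_of_not ?_
      rw [ltr_put_of_ne hac.symm, ltr_put_of_ne hbc.symm, ltr_put_of_ne had.symm,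
        ltr_put_of_ne hbd.symm]
      exact h2
  · rw [cc_of_not h1]
    by_cases h2 : ltr S c = ∅ ∧ ltr S d = ∅
    · rw [cc_of h2.1 h2.2]
      refine (sum_eq_zero fun A _ => cc_of_not ?_).symm
      rw [ltr_put_of_ne hac, ltr_put_of_ne hbc, ltr_put_of_ne had,
        ltr_put_of_ne hbd]
      exact h1
    · rw [cc_of_not h2]

/-- Reversal of a contraction. -/
theorem cc_swap {k k' : ℕ} (hk : k + k' = 4) {a b : Fin N} (hab : a ≠ b) (u : Tup N → K) :
    cc k a b u = cc k' b a u := by
  funext S
  by_cases h1 : ltr S a = ∅ ∧ ltr S b = ∅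
  · rw [cc_of h1.1 h1.2, cc_of h1.2 h1.1]
    refine sum_nbij' (fun A => Aᶜ) (fun A => Aᶜ) ?_ ?_ ?_ ?_ ?_
    · intro A hA
      simp only [mem_powersetCard, subset_univ, true_and, card_compl, Fintype.card_fin] at hA ⊢
      omega
    · intro A hA
      simp only [mem_powersetCard, subset_univ, true_and, card_compl, Fintype.card_fin] at hA ⊢
      omega
    · intro A _; exact compl_compl A
    · intro A _; exact compl_compl A
    · intro A _
      rw [compl_compl, put_comm hab]
  · rw [cc_of_not h1, cc_of_not (fun h => h1 h.symm)]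

theorem tr_put {a b c : Fin N} (hac : a ≠ c) (hbc : b ≠ c) (l : Fin 4) (C : Finset (Fin 4))
    (S : Tup N) : tr a b l (put c C S) = put c C (tr a b l S) := by
  refine tup_ext fun k i => ?_
  simp only [mem_tr, mem_put]
  by_cases h1 : i = c
  · subst h1
    simp only [if_true, hbc.symm, hac.symm, false_or, ne_eq, not_false_eq_true, true_and]
    by_cases h2 : k = l
    · subst h2; simp
    · simp [h2]
  · simp [h1]

theorem ltr_tr {a b c : Fin N} (hac : a ≠ c) (hbc : b ≠ c) (l : Fin 4) (S : Tup N) :
    ltr (tr a b l S) c = ltr S c := by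
  ext k
  simp only [mem_ltr, mem_tr]
  by_cases h2 : k = l
  · subst h2; simp [hac.symm, hbc.symm]
  · simp [h2]

/-- Contractions commute with the operators `E` at other sites. -/
theorem cc_E (k : ℕ) {a b c d : Fin N} (hac : a ≠ c) (had : a ≠ d) (hbc : b ≠ c)
    (hbd : b ≠ d) (u : Tup N → K) :
    cc k c d (E a b u) = E a b (cc k c d u) := by
  funext S
  by_cases h2 : ltr S c = ∅ ∧ ltr S d = ∅
  · rw [cc_of h2.1 h2.2]
    simp only [E]
    rw [sum_comm]
    refine sum_congr rfl fun l _ => ?_
    have h3 : ∀ C : Finset (Fin 4), (a ∈ put c C (put d Cᶜ S) l ∧ b ∉ put c C (put d Cᶜ S) l) ↔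
        (a ∈ S l ∧ b ∉ S l) := by
      intro C; simp [mem_put, hac, had, hbc, hbd]
    simp only [h3]
    split_ifs with h
    · rw [cc_of (by rw [ltr_tr hac hbc, h2.1]) (by rw [ltr_tr had hbd, h2.2])]
      refine sum_congr rfl fun C _ => ?_
      rw [tr_put hac hbc, tr_put had hbd]
    · simp
  · rw [cc_of_not h2]
    simp only [E]
    refine (sum_eq_zero fun l _ => ?_).symm
    split_ifs with h
    · refine cc_of_not ?_
      rw [ltr_tr hac hbc, ltr_tr had hbd]
      exact h2
    · rfl

theorem E_put_left {a b : Fin N} (hab : a ≠ b) (A : Finset (Fin 4)) (u : Tup N → K)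
    (S : Tup N) : E a b u (put a A S) =
      ∑ l, if l ∈ A ∧ l ∉ ltr S b then
        u (put a (A.erase l) (put b (insert l (ltr S b)) S)) else 0 := by
  conv_lhs => rw [← put_ltr b S]
  rw [E_put_put hab]

theorem E_put_right {a b : Fin N} (hab : a ≠ b) (B : Finset (Fin 4)) (u : Tup N → K)
    (S : Tup N) : E a b u (put b B S) =
      ∑ l, if l ∈ ltr S a ∧ l ∉ B then
        u (put a ((ltr S a).erase l) (put b (insert l B) S)) else 0 := by
  conv_lhs => rw [← put_ltr a S]
  rw [put_comm hab.symm, E_put_put hab]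

/-- Sums over pairs (letter, element of the letter). -/
theorem sum_erase_letter (k : ℕ) (l : Fin 4) (G : Finset (Fin 4) → Finset (Fin 4) → K) :
    ∑ A ∈ (univ : Finset (Fin 4)).powersetCard (k + 1), (if l ∈ A then G (A.erase l) Aᶜ else 0) =
      ∑ A ∈ (univ : Finset (Fin 4)).powersetCard k, if l ∉ A then G A (Aᶜ.erase l) else 0 := by
  rw [← sum_filter, ← sum_filter]
  refine sum_nbij' (fun A => A.erase l) (fun A => insert l A) ?_ ?_ ?_ ?_ ?_
  · intro A hA
    simp only [mem_filter, mem_powersetCard, subset_univ, true_and] at hA ⊢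
    rw [card_erase_of_mem hA.2, hA.1]
    simp
  · intro A hA
    simp only [mem_filter, mem_powersetCard, subset_univ, true_and] at hA ⊢
    rw [card_insert_of_notMem hA.2, hA.1]
    simp
  · intro A hA
    exact insert_erase (mem_filter.1 hA).2
  · intro A hA
    exact erase_insert (mem_filter.1 hA).2
  · intro A hA
    have h := (mem_filter.1 hA).2
    congr 1
    ext x
    simp only [mem_compl, mem_erase]
    by_cases hx : x = l
    · subst hx; simp [h]
    · simp [hx]

theorem sum_insert_letter (k : ℕ) (l : Fin 4) (G : Finset (Fin 4) → Finset (Fin 4) → K) :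
    ∑ A ∈ (univ : Finset (Fin 4)).powersetCard k, (if l ∉ A then G (insert l A) Aᶜ else 0) =
      ∑ A ∈ (univ : Finset (Fin 4)).powersetCard (k + 1),
        if l ∈ A then G A (insert l Aᶜ) else 0 := by
  rw [← sum_filter, ← sum_filter]
  symm
  refine sum_nbij' (fun A => A.erase l) (fun A => insert l A) ?_ ?_ ?_ ?_ ?_
  · intro A hA
    simp only [mem_filter, mem_powersetCard, subset_univ, true_and] at hA ⊢
    rw [card_erase_of_mem hA.2, hA.1]
    simp
  · intro A hA
    simp only [mem_filter, mem_powersetCard, subset_univ, true_and] at hA ⊢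
    rw [card_insert_of_notMem hA.2, hA.1]
    simp
  · intro A hA
    exact insert_erase (mem_filter.1 hA).2
  · intro A hA
    exact erase_insert (mem_filter.1 hA).2
  · intro A hA
    have h := (mem_filter.1 hA).2
    rw [insert_erase h]
    congr 1
    ext x
    simp only [mem_compl, mem_erase, mem_insert]
    by_cases hx : x = l
    · subst hx; simp
    · simp [hx]

/-- `c_ac E_ab = c13_ac E_cb`. -/
theorem cc_E_left (k : ℕ) {a b c : Fin N} (hab : a ≠ b) (hac : a ≠ c) (hbc : b ≠ c)
    (u : Tup N → K) : cc (k + 1) a c (E a b u) = cc k a c (E c b u) := by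
  funext S
  by_cases h1 : ltr S a = ∅ ∧ ltr S c = ∅
  · rw [cc_of h1.1 h1.2, cc_of h1.1 h1.2]
    have e1 : ∀ A : Finset (Fin 4), E a b u (put a A (put c Aᶜ S)) =
        ∑ l, if l ∈ A then (if l ∉ ltr S b then
          u (put a (A.erase l) (put c Aᶜ (put b (insert l (ltr S b)) S))) else 0) else 0 := by
      intro A
      rw [E_put_left hab]
      refine sum_congr rfl fun l _ => ?_
      rw [ltr_put_of_ne hbc, put_comm hbc, ite_and]
    have e2 : ∀ A : Finset (Fin 4), E c b u (put a A (put c Aᶜ S)) =
        ∑ l, if l ∉ A then (if l ∉ ltr S b then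
          u (put a A (put c (Aᶜ.erase l) (put b (insert l (ltr S b)) S))) else 0) else 0 := by
      intro A
      rw [put_comm hac, E_put_left hbc.symm]
      refine sum_congr rfl fun l _ => ?_
      rw [ltr_put_of_ne hab.symm, put_comm hab.symm, put_comm hac.symm, ite_and]
      simp only [mem_compl]
    simp only [e1, e2]
    rw [sum_comm]
    conv_rhs => rw [sum_comm]
    refine sum_congr rfl fun l _ => ?_
    exact sum_erase_letter k l fun X Y =>
      if l ∉ ltr S b then u (put a X (put c Y (put b (insert l (ltr S b)) S))) else 0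
  · rw [cc_of_not h1, cc_of_not h1]

/-- `c_bd E_ab = c31_bd E_ad`. -/
theorem cc_E_right (k : ℕ) {a b d : Fin N} (hab : a ≠ b) (had : a ≠ d) (hbd : b ≠ d)
    (u : Tup N → K) : cc k b d (E a b u) = cc (k + 1) b d (E a d u) := by
  funext S
  by_cases h1 : ltr S b = ∅ ∧ ltr S d = ∅
  · rw [cc_of h1.1 h1.2, cc_of h1.1 h1.2]
    have e1 : ∀ B : Finset (Fin 4), E a b u (put b B (put d Bᶜ S)) =
        ∑ l, if l ∉ B then (if l ∈ ltr S a then
          u (put b (insert l B) (put d Bᶜ (put a ((ltr S a).erase l) S))) else 0) else 0 := by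
      intro B
      rw [E_put_right hab]
      refine sum_congr rfl fun l _ => ?_
      rw [ltr_put_of_ne had, put_comm hab, put_comm had]
      by_cases g1 : l ∈ B <;> by_cases g2 : l ∈ ltr S a <;> simp [g1, g2]
    have e2 : ∀ B : Finset (Fin 4), E a d u (put b B (put d Bᶜ S)) =
        ∑ l, if l ∈ B then (if l ∈ ltr S a then
          u (put b B (put d (insert l Bᶜ) (put a ((ltr S a).erase l) S))) else 0) else 0 := by
      intro B
      rw [put_comm hbd, E_put_right had]
      refine sum_congr rfl fun l _ => ?_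
      rw [ltr_put_of_ne hab, put_comm had, put_comm hab, put_comm hbd.symm]
      by_cases g1 : l ∈ B <;> by_cases g2 : l ∈ ltr S a <;> simp [g1, g2]
    simp only [e1, e2]
    rw [sum_comm]
    conv_rhs => rw [sum_comm]
    refine sum_congr rfl fun l _ => ?_
    exact sum_insert_letter k l fun X Y =>
      if l ∈ ltr S a then u (put b X (put d Y (put a ((ltr S a).erase l) S))) else 0
  · rw [cc_of_not h1, cc_of_not h1]

section char_two

variable [CharP K 2]

/-- `c_ab E_ab = 3 c13_ab`. -/
theorem cc_E_self {a b : Fin N} (hab : a ≠ b) (u : Tup N → K) :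
    cc 2 a b (E a b u) = cc 1 a b u := by
  funext S
  by_cases h1 : ltr S a = ∅ ∧ ltr S b = ∅
  · rw [cc_of h1.1 h1.2, cc_of h1.1 h1.2]
    have e1 : ∀ A : Finset (Fin 4), E a b u (put a A (put b Aᶜ S)) =
        ∑ l, if l ∈ A then u (put a (A.erase l) (put b (insert l Aᶜ) S)) else 0 := by
      intro A
      rw [E_put_put hab]
      refine sum_congr rfl fun l _ => ?_
      simp only [mem_compl, not_not, and_self]
    simp only [e1]
    rw [sum_comm]
    have e2 : ∀ l : Fin 4, ∑ A ∈ (univ : Finset (Fin 4)).powersetCard 2,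
        (if l ∈ A then u (put a (A.erase l) (put b (insert l Aᶜ) S)) else 0) =
        ∑ A ∈ (univ : Finset (Fin 4)).powersetCard 1,
          if l ∉ A then u (put a A (put b Aᶜ S)) else 0 := by
      intro l
      rw [sum_erase_letter 1 l fun X Y => u (put a X (put b (insert l Y) S))]
      refine sum_congr rfl fun A _ => ?_
      by_cases h : l ∈ A
      · simp [h]
      · rw [if_pos h, if_pos h, insert_erase (mem_compl.2 h)]
    simp only [e2]
    rw [sum_comm]
    refine sum_congr rfl fun A hA => ?_
    rw [← sum_filter, sum_const]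
    have : (univ.filter (fun l => l ∉ A)).card = 3 := by
      have h2 : univ.filter (fun l => l ∉ A) = Aᶜ := by ext x; simp
      rw [h2, card_compl, (mem_powersetCard.1 hA).2]; rfl
    rw [this]
    have h2 := CharTwo.add_self_eq_zero (u (put a A (put b Aᶜ S)))
    rw [show (3 : ℕ) = 2 + 1 from rfl, add_smul, one_smul, two_smul, h2, zero_add]
  · rw [cc_of_not h1, cc_of_not h1]

end char_two

end D81877C
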