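import Pool.Agent.Lib.MP_d81877_alC.Span

/-!
The functional `Gamma` vanishes on the functions `n` that come from a dimer, and the final statement:
`Gamma` exists for `|V| = 2 ^ k * M - 2` and `j = 2 ^ k - 1`.
-/

namespace D81877C

set_option linter.unusedSectionVars false

variable {α : Type*} [DecidableEq α] {K : Type*} [CommRing K]

/-- `n` is the function of the dimer `{a, b}` times an element with function `n'`. -/
structure IsDimer (V : Finset α) (j : ℕ) (a b : α) (n n' : List (α × α) → K) : Prop where
  perm : ∀ l l', Good V l → l.length = j + 1 → l.Perm l' → n l = n l'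
  swap : ∀ x y l, Good V ((x, y) :: l) → l.length = j → n ((x, y) :: l) = n ((y, x) :: l)
  off : ∀ l, Good V l → l.length = j + 1 → a ∉ letters l → b ∉ letters l → n l = 0
  same : ∀ l, Good V ((a, b) :: l) → l.length = j → n ((a, b) :: l) = 0
  left : ∀ c l, Good V ((a, c) :: l) → l.length = j → b ≠ c → b ∉ letters l →
    n ((a, c) :: l) = n' l
  right : ∀ c l, Good V ((b, c) :: l) → l.length = j → a ≠ c → a ∉ letters l →
    n ((b, c) :: l) = n' l
  both : ∀ c d l, Good V ((a, c) :: (b, d) :: l) → l.length + 1 = j →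
    n ((a, c) :: (b, d) :: l) = n' ((c, d) :: l)

/-- The symbol of a dimer. -/
def dimerSymbol (a b : α) (q : Finset α → K) (T : Finset α) : K :=
  if a ∈ T then (if b ∈ T then 0 else q (T.erase a)) else if b ∈ T then q (T.erase b) else 0

section

variable {V : Finset α} {j : ℕ} {a b : α} {n n' : List (α × α) → K} {q : Finset α → K}

theorem tsum_dimer_off : ∀ l : List (α × α), a ∉ letters l → b ∉ letters l →
    ∀ S : Finset α, a ∉ S → b ∉ S → tsum (dimerSymbol a b q) l S = 0 := by
  intro l
  induction l with
  | nil => intro _ _ S ha hb; simp [dimerSymbol, ha, hb]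
  | cons p l ih =>
    intro ha hb S haS hbS
    simp only [letters_cons, List.mem_cons, not_or] at ha hb
    rw [tsum_cons, ih ha.2.2 hb.2.2 _ (by simp [ha.1, haS]) (by simp [hb.1, hbS]),
      ih ha.2.2 hb.2.2 _ (by simp [ha.2.1, haS]) (by simp [hb.2.1, hbS]), add_zero]

theorem tsum_dimer_left (hab : a ≠ b) : ∀ l : List (α × α), a ∉ letters l → b ∉ letters l →
    ∀ S : Finset α, a ∉ S → b ∉ S → tsum (dimerSymbol a b q) l (insert a S) = tsum q l S := by
  intro l
  induction l with
  | nil => intro _ _ S ha hb; simp [dimerSymbol, hb, hab.symm, Finset.erase_insert ha]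
  | cons p l ih =>
    intro ha hb S haS hbS
    simp only [letters_cons, List.mem_cons, not_or] at ha hb
    rw [tsum_cons, tsum_cons, Finset.insert_comm p.1 a, Finset.insert_comm p.2 a,
      ih ha.2.2 hb.2.2 _ (by simp [ha.1, haS]) (by simp [hb.1, hbS]),
      ih ha.2.2 hb.2.2 _ (by simp [ha.2.1, haS]) (by simp [hb.2.1, hbS])]

theorem tsum_dimer_right (hab : a ≠ b) : ∀ l : List (α × α), a ∉ letters l → b ∉ letters l →
    ∀ S : Finset α, a ∉ S → b ∉ S → tsum (dimerSymbol a b q) l (insert b S) = tsum q l S := by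
  intro l
  induction l with
  | nil => intro _ _ S ha hb; simp [dimerSymbol, ha, hab, Finset.erase_insert hb]
  | cons p l ih =>
    intro ha hb S haS hbS
    simp only [letters_cons, List.mem_cons, not_or] at ha hb
    rw [tsum_cons, tsum_cons, Finset.insert_comm p.1 b, Finset.insert_comm p.2 b,
      ih ha.2.2 hb.2.2 _ (by simp [ha.1, haS]) (by simp [hb.1, hbS]),
      ih ha.2.2 hb.2.2 _ (by simp [ha.2.1, haS]) (by simp [hb.2.1, hbS])]

theorem tsum_dimer_both : ∀ l : List (α × α), ∀ S : Finset α, a ∈ S → b ∈ S →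
    tsum (dimerSymbol a b q) l S = 0 := by
  intro l
  induction l with
  | nil => intro S ha hb; simp [dimerSymbol, ha, hb]
  | cons p l ih =>
    intro S haS hbS
    rw [tsum_cons, ih _ (Finset.mem_insert_of_mem haS) (Finset.mem_insert_of_mem hbS),
      ih _ (Finset.mem_insert_of_mem haS) (Finset.mem_insert_of_mem hbS), add_zero]

end

section char_two

variable [CharP K 2]

variable {V : Finset α} {j : ℕ} {a b : α} {n n' : List (α × α) → K} {q : Finset α → K}

theorem good_swap {V : Finset α} {x y : α} {l : List (α × α)} (h : Good V ((x, y) :: l)) :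
    Good V ((y, x) :: l) := by
  rw [good_cons] at h ⊢
  exact ⟨h.2.1, h.1, h.2.2.1.symm, h.2.2.2.2.1, h.2.2.2.1, h.2.2.2.2.2⟩

/-- If the letter `v` occurs in `l`, then `l` is `(v, i) :: m` up to permutation and swap. -/
theorem reduce_mem {f g : List (α × α) → K} {k : ℕ} {v : α}
    (fperm : ∀ l l', Good V l → l.length = k + 1 → l.Perm l' → f l = f l')
    (fswap : ∀ x y l, Good V ((x, y) :: l) → l.length = k → f ((x, y) :: l) = f ((y, x) :: l))
    (gperm : ∀ l l', Good V l → l.length = k + 1 → l.Perm l' → g l = g l')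
    (gswap : ∀ x y l, Good V ((x, y) :: l) → l.length = k → g ((x, y) :: l) = g ((y, x) :: l))
    {l : List (α × α)} (hl : Good V l) (hlk : l.length = k + 1) (hv : v ∈ letters l)
    (H : ∀ i m, Good V ((v, i) :: m) → m.length = k → l.Perm ((v, i) :: m) ∨ l.Perm ((i, v) :: m) →
      f ((v, i) :: m) = g ((v, i) :: m)) : f l = g l := by
  obtain ⟨i, m, h⟩ := exists_perm_of_mem hv
  have hmk : m.length = k := by
    rcases h with h | h <;> · have := h.length_eq; simp at this; omega
  rcases h with h | h
  · rw [fperm l _ hl hlk h, gperm l _ hl hlk h]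
    exact H i m (hl.perm h) hmk (Or.inl h)
  · rw [fperm l _ hl hlk h, gperm l _ hl hlk h, fswap _ _ _ (hl.perm h) hmk,
      gswap _ _ _ (hl.perm h) hmk]
    exact H i m (good_swap (hl.perm h)) hmk (Or.inr h)

theorem IsDimer.isSymbol (hd : IsDimer V j a b n n') (hab : a ≠ b)
    (hq : IsSymbol (V \ {a, b}) j n' q) : IsSymbol V (j + 1) n (dimerSymbol a b q) := by
  set g : List (α × α) → K := fun l => tsum (dimerSymbol a b q) l ∅ with hg
  have gperm : ∀ l l', Good V l → l.length = j + 1 → l.Perm l' → g l = g l' :=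
    fun l l' _ _ hp => tsum_perm _ hp _
  have gswap : ∀ x y l, Good V ((x, y) :: l) → l.length = j → g ((x, y) :: l) = g ((y, x) :: l) :=
    fun x y l _ _ => tsum_swap _ _ _ _ _
  have hsub : ∀ m : List (α × α), Good V m → a ∉ letters m → b ∉ letters m →
      Good (V \ {a, b}) m := by
    intro m hm ha hb
    refine ⟨hm.1, fun x hx => ?_⟩
    simp only [Finset.mem_sdiff, Finset.mem_insert, Finset.mem_singleton, not_or]
    exact ⟨hm.2 x hx, fun h => ha (h ▸ hx), fun h => hb (h ▸ hx)⟩
  intro l hl hlj
  change n l = g l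
  by_cases ha : a ∈ letters l
  · refine reduce_mem hd.perm hd.swap gperm gswap hl hlj ha ?_
    intro i m hm hmj _
    obtain ⟨_, hiV, hai, ham, him, hmV⟩ := good_cons.1 hm
    by_cases hbi : b = i
    · subst hbi
      rw [hd.same m hm hmj, hg]
      simp only [tsum_cons, insert_empty_eq]
      have e1 := tsum_dimer_left (q := q) hab m ham him ∅ (by simp) (by simp)
      have e2 := tsum_dimer_right (q := q) hab m ham him ∅ (by simp) (by simp)
      simp only [insert_empty_eq] at e1 e2
      rw [e1, e2]
      exact (add_self0 _).symm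
    by_cases hbm : b ∈ letters m
    · -- both letters occur, in different pairs
      obtain ⟨d, m', h⟩ := exists_perm_of_mem hbm
      have hm'j : m'.length + 1 = j := by
        rcases h with h | h <;> · have := h.length_eq; simp at this; omega
      have key : Good V ((a, i) :: (b, d) :: m') → n ((a, i) :: (b, d) :: m') =
          g ((a, i) :: (b, d) :: m') := by
        intro hgd
        obtain ⟨_, _, _, h1, h2, h3⟩ := good_cons.1 hgd
        obtain ⟨_, hdV, hbd, hbm', hdm', hm'V⟩ := good_cons.1 h3
        simp only [letters_cons, List.mem_cons, not_or] at h1 h2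
        have hgn : Good (V \ {a, b}) ((i, d) :: m') := by
          refine hsub _ (good_cons.2 ⟨hiV, hdV, h2.2.1, h2.2.2, hdm', hm'V⟩) ?_ ?_
          · simp [hai, h1.2.1, h1.2.2]
          · simp [hbi, hbd, hbm']
        rw [hd.both i d m' hgd hm'j, hq _ hgn (by simp; omega), hg]
        simp only [tsum_cons, insert_empty_eq]
        rw [tsum_dimer_both m' {b, a} (by simp) (by simp)]
        have e1 := tsum_dimer_left (q := q) hab m' h1.2.2 hbm' {d} (by simp [h1.2.1])
          (by simp [hbd])
        have e2 := tsum_dimer_right (q := q) hab m' h1.2.2 hbm' {i} (by simp [hai])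
          (by simp [hbi])
        have e3 := tsum_dimer_off (q := q) (a := a) (b := b) m' h1.2.2 hbm' {d, i}
          (by simp [h1.2.1, hai]) (by simp [hbd, hbi])
        rw [Finset.pair_comm d a, e1, e2, e3]
        ring
      rcases h with h | h
      · have hp : ((a, i) :: m).Perm ((a, i) :: (b, d) :: m') := h.cons _
        rw [hd.perm _ _ hm (by simp [hmj]) hp, gperm _ _ hm (by simp [hmj]) hp]
        exact key (hm.perm hp)
      · have hp : ((a, i) :: m).Perm ((a, i) :: (d, b) :: m') := h.cons _
        have hp2 : ∀ x y : α × α, (x :: y :: m').Perm (y :: x :: m') :=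
          fun x y => List.Perm.swap _ _ _
        have hg1 := hm.perm hp
        have hg2 := hg1.perm (hp2 _ _)
        have hg3 := good_swap hg2
        have hg4 := hg3.perm (hp2 _ _)
        have len : ∀ x y : α × α, (x :: y :: m').length = j + 1 := fun x y => by simp; omega
        have len' : ∀ x : α × α, (x :: m').length = j := fun x => by simp; omega
        rw [hd.perm _ _ hm (by simp [hmj]) hp, gperm _ _ hm (by simp [hmj]) hp,
          hd.perm _ _ hg1 (len _ _) (hp2 _ _), gperm _ _ hg1 (len _ _) (hp2 _ _),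
          hd.swap _ _ _ hg2 (len' _), gswap _ _ _ hg2 (len' _),
          hd.perm _ _ hg3 (len _ _) (hp2 _ _), gperm _ _ hg3 (len _ _) (hp2 _ _)]
        exact key hg4
    · rw [hd.left i m hm hmj hbi hbm, hq m (hsub m hmV ham hbm) hmj, hg]
      simp only [tsum_cons, insert_empty_eq]
      have e1 := tsum_dimer_left (q := q) hab m ham hbm ∅ (by simp) (by simp)
      have e3 := tsum_dimer_off (q := q) (a := a) (b := b) m ham hbm {i}
          (by simp [hai]) (by simp [hbi])
      simp only [insert_empty_eq] at e1
      rw [e1, e3, add_zero]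
  · by_cases hb : b ∈ letters l
    · refine reduce_mem hd.perm hd.swap gperm gswap hl hlj hb ?_
      intro i m hm hmj hp
      obtain ⟨_, hiV, hbi, hbm, him, hmV⟩ := good_cons.1 hm
      have hmem : a ∉ letters ((b, i) :: m) := by
        rcases hp with hp | hp
        · exact fun h => ha ((letters_perm hp).mem_iff.2 h)
        · intro h
          refine ha ((letters_perm hp).mem_iff.2 ?_)
          simp only [letters_cons, List.mem_cons] at h ⊢
          tauto
      simp only [letters_cons, List.mem_cons, not_or] at hmem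
      rw [hd.right i m hm hmj hmem.2.1 hmem.2.2, hq m (hsub m hmV hmem.2.2 hbm) hmj, hg]
      simp only [tsum_cons, insert_empty_eq]
      have e1 := tsum_dimer_right (q := q) hab m hmem.2.2 hbm ∅ (by simp) (by simp)
      have e3 := tsum_dimer_off (q := q) (a := a) (b := b) m hmem.2.2 hbm {i}
          (by simp [hmem.2.1]) (by simp [hbi])
      simp only [insert_empty_eq] at e1
      rw [e1, e3, add_zero]
    · rw [hd.off l hl hlj ha hb, hg]
      exact (tsum_dimer_off (q := q) l ha hb ∅ (by simp) (by simp)).symm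

/-- The sum of all the values of the symbol of a dimer is zero. -/
theorem sum_dimerSymbol (haV : a ∈ V) (hbV : b ∈ V) (hab : a ≠ b) (q : Finset α → K) (j : ℕ) :
    ∑ I ∈ V.powersetCard (j + 1), dimerSymbol a b q I = 0 := by
  classical
  refine Finset.sum_involution (fun I _ => if a ∈ I then (if b ∈ I then I else
    insert b (I.erase a)) else if b ∈ I then insert a (I.erase b) else I) ?_ ?_ ?_ ?_
  · intro I hI
    by_cases ha : a ∈ I <;> by_cases hb : b ∈ I <;>
      simp [dimerSymbol, ha, hb, hab, hab.symm, add_self0]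
  · intro I hI hne
    by_cases ha : a ∈ I <;> by_cases hb : b ∈ I <;> simp [dimerSymbol, ha, hb] at hne ⊢
    · intro h
      have := h ▸ ha
      simp [hab] at this
    · intro h
      have := h ▸ hb
      simp [hab.symm] at this
  · intro I hI
    obtain ⟨h1, h2⟩ := Finset.mem_powersetCard.1 hI
    by_cases ha : a ∈ I <;> by_cases hb : b ∈ I <;>
      simp only [ha, hb, if_true, if_false, Finset.mem_powersetCard]
    · exact ⟨h1, h2⟩
    · refine ⟨Finset.insert_subset hbV ((Finset.erase_subset _ _).trans h1), ?_⟩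
      rw [Finset.card_insert_of_notMem (by simp [hb]), Finset.card_erase_of_mem ha, h2]; simp
    · refine ⟨Finset.insert_subset haV ((Finset.erase_subset _ _).trans h1), ?_⟩
      rw [Finset.card_insert_of_notMem (by simp [ha]), Finset.card_erase_of_mem hb, h2]; simp
    · exact ⟨h1, h2⟩
  · intro I hI
    by_cases ha : a ∈ I <;> by_cases hb : b ∈ I <;>
      simp [ha, hb, hab, hab.symm]

/-- **The functional `Gamma`** for `|V| = 2 ^ k * (M + 1) - 2` and `j = 2 ^ k - 1`. -/
theorem exists_Gamma_pow (K : Type*) [CommRing K] [CharP K 2] {V : Finset α} {k M : ℕ}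
    (hk : 1 ≤ k) (hV : V.card + 2 = 2 ^ k * (M + 1)) :
    ∃ c : List (α × α) →₀ K, (∀ l ∈ c.support, Good V l ∧ l.length = 2 ^ k - 1) ∧
      ∀ (n : List (α × α) → K) (q : Finset α → K), IsSymbol V (2 ^ k - 1) n q →
        (c.sum fun l x => x * n l) = ∑ I ∈ V.powersetCard (2 ^ k - 1), q I := by
  have h2 : 2 ≤ 2 ^ k := by
    calc 2 = 2 ^ 1 := rfl
      _ ≤ 2 ^ k := Nat.pow_le_pow_right (by norm_num) hk
  have hM : 2 ^ k * (M + 1) = 2 ^ k * M + 2 ^ k := by ring
  by_cases hle : 2 ^ k - 1 ≤ V.card
  · refine exists_Gamma V hle fun r hr1 hr2 => ?_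
    have := two_dvd_choose (M := M) hr1 hr2
    have e : 2 ^ k * M + r - 1 = V.card - (2 ^ k - 1) + r := by omega
    rwa [e] at this
  · refine ⟨0, by simp, fun n q _ => ?_⟩
    rw [Finsupp.sum_zero_index, Finset.powersetCard_eq_empty.2 (by omega)]
    simp

end char_two

end D81877C
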