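import Pool.Agent.Lib.MP_d81877_alC.Transv
import Pool.Agent.Lib.MP_d81877_alA.Main

/-!
The functionals `gamma` are invariant on `D ∩ Dᗮ`, and their values are the sums of the symbols.
-/

namespace D81877C

open Finset Function Pool.Agent.D818A MP_d81877_alF

set_option linter.unusedSectionVars false

section linear

variable {N : ℕ} {K : Type*} [CommRing K]

theorem cc_smul (k : ℕ) (a b : Fin N) (c : K) (u : Tup N → K) :
    cc k a b (c • u) = c • cc k a b u := by
  funext S
  simp only [cc, Pi.smul_apply, smul_eq_mul]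
  split_ifs
  · rw [mul_sum]
  · simp

theorem cmul_add (l : List (Fin N × Fin N)) (u v : Tup N → K) :
    cmul l (u + v) = cmul l u + cmul l v := by
  induction l with
  | nil => rfl
  | cons p l ih => rw [cmul_cons, cmul_cons, cmul_cons, ih, cc_add]

theorem cmul_smul (l : List (Fin N × Fin N)) (c : K) (u : Tup N → K) :
    cmul l (c • u) = c • cmul l u := by
  induction l with
  | nil => rfl
  | cons p l ih => rw [cmul_cons, cmul_cons, ih, cc_smul]

theorem nf_add (V : Finset (Fin N)) (m : ℕ) (u v : Tup N → K) (l : List (Fin N × Fin N)) :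
    nf V m (u + v) l = nf V m u l + nf V m v l := by
  simp only [nf, nu, cmul_add, Pi.add_apply, sum_add_distrib]

theorem nf_smul (V : Finset (Fin N)) (m : ℕ) (c : K) (u : Tup N → K)
    (l : List (Fin N × Fin N)) : nf V m (c • u) l = c * nf V m u l := by
  simp only [nf, nu, cmul_smul, Pi.smul_apply, smul_eq_mul, mul_sum]

/-- `nf` as a linear map -/
noncomputable def nfL (V : Finset (Fin N)) (m : ℕ) (l : List (Fin N × Fin N)) :
    (Tup N → K) →ₗ[K] K where
  toFun u := nf V m u l
  map_add' u v := nf_add V m u v l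
  map_smul' c u := nf_smul V m c u l

theorem nf_sum_single (V : Finset (Fin N)) (m : ℕ) (u : Tup N → K)
    (l : List (Fin N × Fin N)) :
    nf V m u l = ∑ S : Tup N, nf V m (Pi.single S 1) l * u S := by
  classical
  have h := LinearMap.pi_apply_eq_sum_univ (nfL V m l) u
  change nf V m u l = _ at h
  rw [h]
  refine sum_congr rfl fun S _ => ?_
  rw [smul_eq_mul, mul_comm]
  congr 1
  change nf V m _ l = _
  congr 1
  funext T
  by_cases hT : S = T
  · subst hT; simp
  · rw [if_neg hT, Pi.single_apply, if_neg (fun h => hT h.symm)]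

end linear

variable {N : ℕ} {K : Type} [Field K]

/-- The vector representing a combination of the functionals `nf`. -/
noncomputable def gam (m : ℕ) (c : List (Fin N × Fin N) →₀ K) : TT N 4 K :=
  fun S => c.sum fun l x => x * nf univ m (Pi.single S 1) l

theorem stdB_gam (m : ℕ) (c : List (Fin N × Fin N) →₀ K) (u : TT N 4 K) :
    stdB N 4 K (gam m c) u = c.sum fun l x => x * nf univ m u l := by
  rw [stdB_apply]
  simp only [gam, Finsupp.sum, sum_mul]
  rw [sum_comm]
  refine sum_congr rfl fun l _ => ?_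
  rw [nf_sum_single univ m u l, mul_sum]
  refine sum_congr rfl fun S _ => by ring

theorem gam_weight {m j : ℕ} {c : List (Fin N × Fin N) →₀ K}
    (hc : ∀ l ∈ c.support, Good univ l ∧ l.length = j) (hN : 2 * m + 1 + 2 * j ≤ N)
    (S : Tup N) (hS : gam m c S ≠ 0) (i : Fin N) :
    (univ.filter (fun k => i ∈ S k)).card = 2 := by
  by_contra hne
  apply hS
  unfold gam
  refine sum_eq_zero fun l hl => ?_
  obtain ⟨h1, h2⟩ := hc l hl
  have : nf univ m (Pi.single S (1 : K)) l = nf univ m (0 : Tup N → K) l := by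
    refine nf_congr ?_ h1 (by rw [h2, card_univ, Fintype.card_fin]; exact hN)
    intro T hT
    rw [Pi.single_apply, if_neg, Pi.zero_apply]
    rintro rfl
    exact hne (hT i (mem_univ _))
  simp only [this]
  have h0 : nf univ m (0 : Tup N → K) l = 0 := by
    have := nf_smul (K := K) univ m 0 (0 : Tup N → K) l
    rwa [smul_zero, zero_mul] at this
  rw [h0, mul_zero]

section char_two

variable [CharP K 2]

open MP_d81877_alI in
/-- the second divided power on words of weight zero -/
theorem Eab_two {a b : Fin N} (x : Tup N → K) {S : Tup N} (hab : a ≠ b)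
    (ha : (ltr S a).card = 2) (hb : (ltr S b).card = 2) :
    Eab 2 a b x S = hh 2 a b (cc 0 a b x) S := by
  have hcols : cols a b S = ltr S a \ ltr S b := by
    ext k; simp [cols, mem_ltr]
  unfold Eab
  rw [hcols]
  by_cases h : ltr S b = (ltr S a)ᶜ
  · rw [hh_of ha h, cc_of (by rw [ltr_put_self]) (by
      rw [ltr_put_of_ne hab.symm, ltr_put_self])]
    have h1 : ltr S a \ ltr S b = ltr S a := by
      rw [h]; ext k; simp
    rw [h1]
    have h2 : (ltr S a).powersetCard 2 = {ltr S a} := by
      rw [← ha, powersetCard_self]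
    rw [h2, sum_singleton, powersetCard_zero, sum_singleton]
    congr 1
    refine tup_ext fun k i => ?_
    have hk : a ∈ S k ↔ b ∉ S k := by
      have := congrArg (fun s => k ∈ s) h
      simp only [mem_compl, mem_ltr, eq_iff_iff] at this
      tauto
    simp only [mvs, mem_put, mem_ltr, mem_compl, notMem_empty, not_false_eq_true]
    by_cases hka : a ∈ S k
    · have hkb : b ∉ S k := hk.1 hka
      simp only [hka, if_true, mem_insert, mem_erase]
      by_cases hi : i = a
      · subst hi; simp [hab]
      · by_cases hi' : i = b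
        · subst hi'; simp [hi]
        · simp [hi, hi']
    · have hkb : b ∈ S k := by
        by_contra h'; exact hka (hk.2 h')
      simp only [hka, if_false]
      by_cases hi : i = a
      · subst hi; simp [hka]
      · by_cases hi' : i = b
        · subst hi'; simp [hi, hkb]
        · simp [hi, hi']
  · rw [hh_of_not (fun h' => h h'.2)]
    have h2 : (ltr S a \ ltr S b).powersetCard 2 = ∅ := by
      rw [powersetCard_eq_empty]
      by_contra h3
      rw [not_lt] at h3
      apply h
      have h4 : ltr S a \ ltr S b = ltr S a :=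
        eq_of_subset_of_card_le sdiff_subset (by omega)
      have h5 : Disjoint (ltr S a) (ltr S b) := by
        rw [← h4]; exact sdiff_disjoint
      refine eq_of_subset_of_card_le ?_ ?_
      · intro k hk
        rw [mem_compl]
        exact fun h' => (disjoint_left.1 h5) h' hk
      · rw [card_compl, ha, hb]; decide
    rw [h2, sum_empty]

open MP_d81877_alI in
/-- the action of a transvection on words of weight zero -/
theorem rho_transvection_zw {a b : Fin N} (hab : a ≠ b) (t : K) (x : TT N 4 K) {S : Tup N}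
    (hS : ZW univ S) :
    rho (Matrix.transvection a b t) x S =
      (x + t • E a b x + t ^ 2 • hh 2 a b (cc 0 a b x)) S := by
  rw [rho_transvection hab]
  have ha := hS a (mem_univ _)
  have hb := hS b (mem_univ _)
  have hcard : (cols a b S).card ≤ 2 := by
    have : cols a b S ⊆ ltr S a := by
      intro k hk; simp [cols] at hk; simp [mem_ltr, hk.1]
    exact (card_le_card this).trans ha.le
  rw [sum_powerset]
  have h1 : ∑ k ∈ range ((cols a b S).card + 1), ∑ T ∈ (cols a b S).powersetCard k,
        t ^ T.card * x (mvs a b T S) =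
      ∑ k ∈ range 3, ∑ T ∈ (cols a b S).powersetCard k, t ^ T.card * x (mvs a b T S) := by
    refine sum_subset (range_subset_range.2 (by omega)) fun k _ hk => ?_
    rw [powersetCard_eq_empty.2, sum_empty]
    simp only [mem_range] at hk; omega
  rw [h1, sum_range_succ, sum_range_succ, sum_range_one]
  have h2 : ∀ k, ∑ T ∈ (cols a b S).powersetCard k, t ^ T.card * x (mvs a b T S) =
      t ^ k * Eab k a b x S := by
    intro k
    unfold Eab
    rw [mul_sum]
    refine sum_congr rfl fun T hT => ?_
    rw [(mem_powersetCard.1 hT).2]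
  rw [h2, h2, h2, Eab_one, Eab_two x hab ha hb]
  have h3 : Eab 0 a b x S = x S := by
    unfold Eab
    rw [powersetCard_zero, sum_singleton]
    congr 1
  rw [h3]
  simp only [Pi.add_apply, Pi.smul_apply, smul_eq_mul]
  ring

/-- **Invariance under transvections on `R_B(univ)`.** -/
theorem gamma_transvection {m j : ℕ} (hE : Even N) (hN : 4 * (m + (j + 1)) + 4 ≤ N)
    {c : List (Fin N × Fin N) →₀ K} (hc : ∀ l ∈ c.support, Good univ l ∧ l.length = j + 1)
    (hcq : ∀ (n : List (Fin N × Fin N) → K) (q : Finset (Fin N) → K),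
      IsSymbol univ (j + 1) n q → (c.sum fun l x => x * n l) =
        ∑ I ∈ (univ : Finset (Fin N)).powersetCard (j + 1), q I)
    {a b : Fin N} (hab : a ≠ b) (t : K) {x : TT N 4 K} (hx : InR univ (m + (j + 1)) x) :
    (c.sum fun l y => y * nf univ m (rho (Matrix.transvection a b t) x) l) =
      c.sum fun l y => y * nf univ m x l := by
  have hE' : Even (univ : Finset (Fin N)).card := by rw [card_univ, Fintype.card_fin]; exact hE
  have hN' : 4 * (m + (j + 1)) + 4 ≤ (univ : Finset (Fin N)).card := by
    rw [card_univ, Fintype.card_fin]; exact hN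
  have hw : InR (univ \ {a, b}) (m + j) (cc 0 a b x) :=
    InR.cc (m := m + j) (by rw [add_assoc]; exact hx) 0 (mem_univ _) (mem_univ _) hab
  have h1 : ∀ l ∈ c.support, nf univ m (rho (Matrix.transvection a b t) x) l =
      nf univ m x l + t ^ 2 * nf univ m (hh 2 a b (cc 0 a b x)) l := by
    intro l hl
    obtain ⟨hg, hlj⟩ := hc l hl
    rw [nf_congr (G := x + t • E a b x + t ^ 2 • hh 2 a b (cc 0 a b x))
      (fun S hS => rho_transvection_zw hab t x hS) hg (by omega), nf_add, nf_add, nf_smul, nf_smul,
      nf_E hypN hypX hE' hN' hx (mem_univ _) (mem_univ _) hab hg hlj, mul_zero, add_zero]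
  have hV' := card_sdiff_pair (mem_univ a) (mem_univ b) hab
  have h2 := nf_rel (K := K) hypN hypX (V := univ \ {a, b}) (m := m) (j := j)
    (even_sub (n := 1) hE' hV') (by omega) hw
  obtain ⟨q, hq⟩ := exists_symbol _ _ _ h2
  have h3 := (nf_dimer hypN hypX hE' hN' (mem_univ _) (mem_univ _) hab hw).isSymbol hab hq
  have h4 := hcq _ _ h3
  rw [sum_dimerSymbol (mem_univ _) (mem_univ _) hab] at h4
  have h5 : (c.sum fun l y => y * nf univ m (rho (Matrix.transvection a b t) x) l) =
      (c.sum fun l y => y * nf univ m x l) +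
        t ^ 2 * c.sum fun l y => y * nf univ m (hh 2 a b (cc 0 a b x)) l := by
    simp only [Finsupp.sum, mul_sum]
    rw [← sum_add_distrib]
    refine sum_congr rfl fun l hl => ?_
    rw [h1 l hl]
    ring
  rw [h5, h4, mul_zero, add_zero]

/-- the shape -/
def cB (N B : ℕ) : Fin 4 → ℕ := ![N - B, N - B - 1, B + 1, B]

theorem cB_le {B : ℕ} (h : 4 * B + 4 ≤ N) (j : Fin 4) : cB N B j ≤ N := by
  fin_cases j <;> simp [cB] <;> omega

theorem supp_of_shape {B : ℕ} (h : 4 * B + 4 ≤ N) {x : TT N 4 K} (hx : x ∈ shape N K (cB N B)) :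
    Supp univ B x := by
  intro S hS
  have h1 : ∀ j, (S j).card = cB N B j := by
    intro j
    by_contra hne
    exact hS (hx S ⟨j, hne⟩)
  have e0 := h1 0
  have e1 := h1 1
  have e2 := h1 2
  have e3 := h1 3
  simp only [cB, Matrix.cons_val_zero, Matrix.cons_val_one, Matrix.cons_val] at e0 e1 e2 e3
  rw [card_univ, Fintype.card_fin]
  exact ⟨fun j => subset_univ _, by omega, by omega, e2, e3⟩

section group

variable {F : Type} [Field F] [Fintype F] [Algebra F K]

theorem corner_mono {c c' : ℕ} (h : c' ≤ c) : corner N c' ⊆ corner N c := by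
  intro i hi
  rw [mem_corner] at hi ⊢
  omega

theorem cB_anti {B : ℕ} (h : 4 * B + 4 ≤ N) (j j' : Fin 4) (hj : (j : ℕ) + 1 = j') :
    cB N B j' ≤ cB N B j := by
  fin_cases j <;> fin_cases j' <;> simp [cB] at hj ⊢ <;> omega

theorem rhoG_vtop (c : Fin 4 → ℕ) (g : GL (Fin N) F) :
    rhoG N 4 F K g (vtop N K c) =
      dtw K g • orb ((g : Matrix (Fin N) (Fin N) F).map (algebraMap F K))
        (fun j => corner N (c j)) := by
  funext S
  rw [rhoG_apply, Pi.smul_apply, Pi.smul_apply, rho_vtop]
  rfl

/-- `D` consists of the primitive vectors of the right shape. -/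
theorem mem_DD_iff {B : ℕ} (hB : 4 * B + 4 ≤ N) (hF : (4 + 1) * N < Fintype.card F)
    {x : TT N 4 K} : x ∈ DD N F K (cB N B) ↔ Primitive x ∧ Supp univ B x := by
  constructor
  · intro hx
    refine ⟨?_, supp_of_shape hB (DD_le_shape _ (cB_le hB) hx)⟩
    have h1 : DD N F K (cB N B) ≤ primitiveSubmodule K N 4 := by
      refine Submodule.span_le.2 ?_
      rintro _ ⟨g, rfl⟩
      simp only
      rw [rhoG_vtop]
      exact Submodule.smul_mem _ _ (primitive_orb _ _ fun j j' hj => corner_mono (cB_anti hB j j' hj))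
    exact h1 hx
  · rintro ⟨hp, hs⟩
    have h1 := mem_span_of_primitive (F := F) (C := fun j => corner N (cB N B j))
      (fun j i hi i' hi' => by
        rw [mem_corner] at hi ⊢
        have : (i' : ℕ) < i := hi'
        omega)
      (fun j j' hj => corner_mono (cB_anti hB j j' hj)) hF hp
      (fun S hS j => by
        rw [card_corner (cB_le hB j)]
        obtain ⟨_, h2, h3, h4, h5⟩ := hs S hS
        rw [card_univ, Fintype.card_fin] at h2 h3
        fin_cases j <;> simp [cB] <;> omega)
    refine Submodule.span_le.2 ?_ h1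
    rintro _ ⟨g, rfl⟩
    have h2 := rhoG_vtop (K := K) (cB N B) g
    have h3 : orb ((g : Matrix (Fin N) (Fin N) F).map (algebraMap F K))
        (fun j => corner N (cB N B j)) = (dtw K g)⁻¹ • rhoG N 4 F K g (vtop N K (cB N B)) := by
      rw [h2, smul_smul, inv_mul_cancel₀ (dtw_ne_zero g), one_smul]
    simp only [SetLike.mem_coe]
    rw [h3]
    exact Submodule.smul_mem _ _ (Submodule.subset_span ⟨g, rfl⟩)

/-- `D ∩ Dᗮ` is the space `R_B(univ)`. -/
theorem inR_iff {B : ℕ} (hB : 4 * B + 4 ≤ N) (hF : (4 + 1) * N < Fintype.card F)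
    {x : TT N 4 K} : InR univ B x ↔
      x ∈ DD N F K (cB N B) ∧ ∀ d ∈ DD N F K (cB N B), stdB N 4 K d x = 0 := by
  constructor
  · intro h
    refine ⟨(mem_DD_iff hB hF).2 ⟨h.prim, h.supp⟩, fun d hd => ?_⟩
    obtain ⟨h1, h2⟩ := (mem_DD_iff hB hF).1 hd
    rw [stdB_symm]
    exact h.orth d h2 h1
  · rintro ⟨h1, h2⟩
    obtain ⟨h3, h4⟩ := (mem_DD_iff hB hF).1 h1
    refine ⟨h4, h3, fun v hv hvp => ?_⟩
    have := h2 v ((mem_DD_iff hB hF).2 ⟨hvp, hv⟩)
    rw [stdB_symm] at this
    exact this

/-- **The invariant functional** `gamma` for `j = 2 ^ k - 1`: it is invariant on `D ∩ Dᗮ`, and its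
value at an element is the sum of the symbol of that element. -/
theorem exists_gamma {k M m : ℕ} (hk : 1 ≤ k) (hN : N + 2 = 2 ^ k * (M + 1))
    (hB : 4 * (m + (2 ^ k - 1)) + 4 ≤ N) (hF : (4 + 1) * N < Fintype.card F) :
    ∃ γ : TT N 4 K,
      (∀ (g : GL (Fin N) F), ∀ x ∈ DD N F K (cB N (m + (2 ^ k - 1))),
        (∀ d ∈ DD N F K (cB N (m + (2 ^ k - 1))), stdB N 4 K d x = 0) →
        stdB N 4 K γ (rhoG N 4 F K g x) = stdB N 4 K γ x) ∧
      (∀ x : TT N 4 K, ∀ q : Finset (Fin N) → K, IsSymbol univ (2 ^ k - 1) (nf univ m x) q →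
        stdB N 4 K γ x = ∑ I ∈ (univ : Finset (Fin N)).powersetCard (2 ^ k - 1), q I) := by
  obtain ⟨c, hc, hcq⟩ := exists_Gamma_pow K (V := (univ : Finset (Fin N))) hk
    (by rw [card_univ, Fintype.card_fin]; exact hN)
  have h2 : 2 ≤ 2 ^ k := by
    calc 2 = 2 ^ 1 := rfl
      _ ≤ 2 ^ k := Nat.pow_le_pow_right (by norm_num) hk
  obtain ⟨j, hj⟩ : ∃ j, 2 ^ k - 1 = j + 1 := ⟨2 ^ k - 2, by omega⟩
  rw [hj] at hB hc hcq ⊢
  have hEN : Even N := by
    obtain ⟨k', rfl⟩ : ∃ k', k = k' + 1 := ⟨k - 1, by omega⟩
    rw [pow_succ] at hN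
    refine ⟨2 ^ k' * (M + 1) - 1, ?_⟩
    have : 2 ^ k' * 2 * (M + 1) = 2 * (2 ^ k' * (M + 1)) := by ring
    have h3 : 0 < 2 ^ k' * (M + 1) := by positivity
    omega
  refine ⟨gam m c, ?_, ?_⟩
  · intro g
    refine hgamma_dual_of_gen (cB N (m + (j + 1))) (gam m c)
      (fun S hS i => gam_weight hc (by omega) S hS i) ?_ g
    intro a b hab t x hx hx'
    have hR : InR univ (m + (j + 1)) x := (inR_iff (F := F) hB hF).2 ⟨hx, hx'⟩
    have h3 : rhoG N 4 F K (tv a b hab t) x =
        rho (Matrix.transvection a b (algebraMap F K t)) x := by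
      rw [rhoG_apply]
      have h4 : dtw K (tv a b hab t) = 1 := by
        have h5 : Matrix.GeneralLinearGroup.det (tv a b hab t) = 1 := by
          apply Units.ext
          show (Matrix.transvection a b t).det = 1
          exact Matrix.det_transvection_of_ne a b hab t
        unfold dtw
        rw [h5]
        simp
      have h6 : mK K (tv a b hab t) = Matrix.transvection a b (algebraMap F K t) := by
        unfold mK
        rw [tv_val]
        ext i j
        simp only [Matrix.map_apply, Matrix.transvection, Matrix.add_apply, Matrix.one_apply,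
          Matrix.single_apply, map_add]
        congr 1
        · split_ifs <;> simp
        · split_ifs <;> simp
      rw [h4, h6, one_smul]
    rw [h3, stdB_gam, stdB_gam]
    exact gamma_transvection hEN hB hc hcq hab _ hR
  · intro x q hq
    rw [stdB_gam]
    exact hcq _ q hq

end group

end char_two

end D81877C
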