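import Pool.Agent.Lib.MP_d81877_alC.Trans

/-!
The functions `nf` vanish on the image of `E a b`, and are dimer functions on the image of the
second divided power.
-/

namespace D81877C

open Finset Function Pool.Agent.D818A

set_option linter.unusedSectionVars false

variable {N : ℕ} {K : Type*} [CommRing K] [CharP K 2]

variable {V : Finset (Fin N)} {m j : ℕ} {u : Tup N → K}

theorem even_sub {V W : Finset (Fin N)} {n : ℕ} (hE : Even V.card) (h : W.card + 2 * n = V.card) :
    Even W.card := by
  rw [← h, Nat.even_add] at hE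
  exact hE.2 (even_two_mul _)

theorem card_sdiff_pair {W : Finset (Fin N)} {a b : Fin N} (ha : a ∈ W) (hb : b ∈ W)
    (hab : a ≠ b) : (W \ {a, b}).card + 2 = W.card := by
  rw [← card_pair hab]
  exact card_sdiff_add_card_eq_card (insert_subset ha (singleton_subset_iff.2 hb))

/-- the vanishing on `E a b` when `a` and `b` lie in different pairs -/
theorem nu_cross_zero (HX : HypX N K) {W : Finset (Fin N)} (hE : Even W.card)
    (hW : 4 * (m + 1) + 4 + 2 ≤ W.card) {w : Tup N → K} (hw : InR W (m + 1 + 1) w)
    {a b c d : Fin N} (haW : a ∈ W) (hbW : b ∈ W) (hcW : c ∈ W) (hdW : d ∈ W) (hab : a ≠ b)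
    (hac : a ≠ c) (had : a ≠ d) (hbc : b ≠ c) (hbd : b ≠ d) (hcd : c ≠ d) {X : Finset (Fin N)}
    (hX : X ⊆ (W \ {b, d}) \ {a, c}) (hXc : X.card = 2 * m + 1) :
    nu ((W \ {b, d}) \ {a, c}) X m (cc 2 a c (cc 2 b d (E a b w))) = 0 := by
  rw [cc_E_right 2 hab had hbd, cc_comm 2 3 hab had (Ne.symm hbc) hcd,
    cc_E_left 1 had hac (Ne.symm hcd), ← cc_comm 1 3 hab had (Ne.symm hbc) hcd]
  have h2 := card_sdiff_pair hbW hdW hbd
  exact HX (W \ {b, d}) m (even_sub (n := 1) hE h2) (by omega) _
    ((hw.E hcW hdW hcd).cc 3 hbW hdW hbd) a c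
    (by simp [haW, hab, had]) (by simp [hcW, hcd, Ne.symm hbc]) hac X hX hXc

/-- **`nf` vanishes on the image of `E a b`.** -/
theorem nf_E (HN : HypN N K) (HX : HypX N K) (hE : Even V.card)
    (hV : 4 * (m + j) + 4 ≤ V.card) (hu : InR V (m + j) u) {a b : Fin N} (ha : a ∈ V)
    (hb : b ∈ V) (hab : a ≠ b) {l : List (Fin N × Fin N)} (hl : Good V l) (hj : l.length = j) :
    nf V m (E a b u) l = 0 := by
  have hF : InR V (m + j) (E a b u) := hu.E ha hb hab
  have hR := nf_rel HN HX hE hV hF
  -- the pair containing `a`
  have keyA : ∀ c l', Good V ((a, c) :: l') → l'.length + 1 = j →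
      nf V m (E a b u) ((a, c) :: l') = 0 := by
    intro c l' hg hl'
    obtain ⟨_, hc, hac, hal, hcl, hll⟩ := good_cons.1 hg
    by_cases hbc : b = c
    · subst hbc
      have hcard := card_sdiff_letters hll
      set W := V \ (letters l').toFinset with hW
      have haW : a ∈ W := by simp [hW, ha, hal]
      have hbW : b ∈ W := by simp [hW, hb, hcl]
      obtain ⟨X, hXW, hXc, hXF⟩ := exists_X (W := W) (m := m) {a, b} (by
        rw [card_pair hab]; omega)
      have hXs : X ⊆ W \ {a, b} := by
        intro z hz
        simp only [mem_sdiff, mem_insert, mem_singleton, not_or]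
        exact ⟨hXW hz, fun h => hXF a (by simp) (h ▸ hz), fun h => hXF b (by simp) (h ▸ hz)⟩
      rw [nf_eq HN hE hV hF hg (by simp [hl']) (X := X)
        (by rw [sdiff_letters_cons]; exact hXs) hXc, sdiff_letters_cons, cmul_cons,
        cmul_E u l' hal hcl]
      simp only
      rw [cc_E_self hab]
      have hw : InR W (m + 1) (cmul l' u) := cmul_InR (m + 1) l' u hll (by
        have : m + 1 + l'.length = m + j := by omega
        rw [this]; exact hu)
      exact HX W m (even_sub hE hcard) (by omega) _ hw a b haW hbW hab X hXs hXc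
    · by_cases hbl : b ∈ letters l'
      · -- `b` in another pair
        have main : ∀ d l'', Good V ((a, c) :: (b, d) :: l'') → l''.length + 2 = j →
            nf V m (E a b u) ((a, c) :: (b, d) :: l'') = 0 := by
          intro d l'' hg2 hl''
          obtain ⟨_, _, _, h1, h2, h3⟩ := good_cons.1 hg2
          obtain ⟨_, hd, hbd, hbl2, hdl2, hll2⟩ := good_cons.1 h3
          simp only [letters_cons, List.mem_cons, not_or] at h1 h2
          obtain ⟨_, had, hal2⟩ := h1
          obtain ⟨_, hcd, hcl2⟩ := h2
          have hcard := card_sdiff_letters hll2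
          set W := V \ (letters l'').toFinset with hW
          have haW : a ∈ W := by simp [hW, ha, hal2]
          have hbW : b ∈ W := by simp [hW, hb, hbl2]
          have hcW : c ∈ W := by simp [hW, hc, hcl2]
          have hdW : d ∈ W := by simp [hW, hd, hdl2]
          obtain ⟨X, hXW, hXc, hXF⟩ := exists_X (W := W) (m := m) {a, b, c, d} (by
            have : ({a, b, c, d} : Finset (Fin N)).card ≤ 4 := card_le_four
            omega)
          have hXs : X ⊆ (W \ {b, d}) \ {a, c} := by
            intro z hz
            simp only [mem_sdiff, mem_insert, mem_singleton, not_or]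
            exact ⟨⟨hXW hz, fun h => hXF b (by simp) (h ▸ hz),
              fun h => hXF d (by simp) (h ▸ hz)⟩, fun h => hXF a (by simp) (h ▸ hz),
              fun h => hXF c (by simp) (h ▸ hz)⟩
          rw [nf_eq HN hE hV hF hg2 (by simp; omega) (X := X)
            (by rw [sdiff_letters_cons, sdiff_letters_cons]; exact hXs) hXc,
            sdiff_letters_cons, sdiff_letters_cons, cmul_cons, cmul_cons,
            cmul_E u l'' hal2 hbl2]
          simp only
          have hw : InR W (m + 1 + 1) (cmul l'' u) := cmul_InR (m + 1 + 1) l'' u hll2 (by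
            have : m + 1 + 1 + l''.length = m + j := by omega
            rw [this]; exact hu)
          exact nu_cross_zero HX (even_sub hE hcard) (by omega) hw haW hbW hcW hdW hab hac had
            hbc hbd hcd hXs hXc
        obtain ⟨d, l'', h⟩ := exists_perm_of_mem hbl
        have hl2 : l''.length + 2 = j := by
          rcases h with h | h <;> · have := h.length_eq; simp at this; omega
        rcases h with h | h
        · have hp : ((a, c) :: l').Perm ((a, c) :: (b, d) :: l'') := h.cons _
          rw [hR.perm _ _ hg (by simp [hl']) hp]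
          exact main d l'' (hg.perm hp) hl2
        · have hp : ((a, c) :: l').Perm ((a, c) :: (d, b) :: l'') := h.cons _
          have hp2 : ∀ x y : Fin N × Fin N, (x :: y :: l'').Perm (y :: x :: l'') :=
            fun x y => List.Perm.swap _ _ _
          have hg1 := hg.perm hp
          have hg2 := hg1.perm (hp2 _ _)
          have hg3 := good_swap hg2
          have hg4 := hg3.perm (hp2 _ _)
          have len : ∀ x y : Fin N × Fin N, (x :: y :: l'').length = j := fun x y => by
            simp; omega
          have len' : ∀ x : Fin N × Fin N, (x :: l'').length + 1 = j := fun x => by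
            simp; omega
          rw [hR.perm _ _ hg (by simp [hl']) hp, hR.perm _ _ hg1 (len _ _) (hp2 _ _),
            hR.swap _ _ _ hg2 (len' _), hR.perm _ _ hg3 (len _ _) (hp2 _ _)]
          exact main d l'' hg4 hl2
      · have hcard := card_sdiff_letters hll
        set W := V \ (letters l').toFinset with hW
        have haW : a ∈ W := by simp [hW, ha, hal]
        have hbW : b ∈ W := by simp [hW, hb, hbl]
        have hcW : c ∈ W := by simp [hW, hc, hcl]
        obtain ⟨X, hXW, hXc, hXF⟩ := exists_X (W := W) (m := m) {a, c} (by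
          rw [card_pair hac]; omega)
        have hXs : X ⊆ W \ {a, c} := by
          intro z hz
          simp only [mem_sdiff, mem_insert, mem_singleton, not_or]
          exact ⟨hXW hz, fun h => hXF a (by simp) (h ▸ hz), fun h => hXF c (by simp) (h ▸ hz)⟩
        rw [nf_eq HN hE hV hF hg (by simp [hl']) (X := X)
          (by rw [sdiff_letters_cons]; exact hXs) hXc, sdiff_letters_cons, cmul_cons,
          cmul_E u l' hal hbl]
        simp only
        rw [cc_E_left 1 hab hac hbc]
        have hw : InR W (m + 1) (cmul l' u) := cmul_InR (m + 1) l' u hll (by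
          have : m + 1 + l'.length = m + j := by omega
          rw [this]; exact hu)
        exact HX W m (even_sub hE hcard) (by omega) _ (hw.E hcW hbW (Ne.symm hbc)) a c haW hcW
          hac X hXs hXc
  by_cases hal : a ∈ letters l
  · obtain ⟨c, l', h⟩ := exists_perm_of_mem hal
    have hl' : l'.length + 1 = j := by
      rcases h with h | h <;> · have := h.length_eq; simp at this; omega
    rcases h with h | h
    · rw [hR.perm _ _ hl hj h]
      exact keyA c l' (hl.perm h) hl'
    · rw [hR.perm _ _ hl hj h, hR.swap _ _ _ (hl.perm h) hl']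
      exact keyA c l' (good_swap (hl.perm h)) hl'
  · by_cases hbl : b ∈ letters l
    · have keyB : ∀ d l', Good V ((b, d) :: l') → a ∉ letters ((b, d) :: l') →
          l'.length + 1 = j → nf V m (E a b u) ((b, d) :: l') = 0 := by
        intro d l' hg hal' hl'
        obtain ⟨_, hd, hbd, hbl', hdl', hll⟩ := good_cons.1 hg
        simp only [letters_cons, List.mem_cons, not_or] at hal'
        obtain ⟨_, had, hal'⟩ := hal'
        have hcard := card_sdiff_letters hll
        set W := V \ (letters l').toFinset with hW
        have haW : a ∈ W := by simp [hW, ha, hal']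
        have hbW : b ∈ W := by simp [hW, hb, hbl']
        have hdW : d ∈ W := by simp [hW, hd, hdl']
        obtain ⟨X, hXW, hXc, hXF⟩ := exists_X (W := W) (m := m) {b, d} (by
          rw [card_pair hbd]; omega)
        have hXs : X ⊆ W \ {b, d} := by
          intro z hz
          simp only [mem_sdiff, mem_insert, mem_singleton, not_or]
          exact ⟨hXW hz, fun h => hXF b (by simp) (h ▸ hz), fun h => hXF d (by simp) (h ▸ hz)⟩
        rw [nf_eq HN hE hV hF hg (by simp [hl']) (X := X)
          (by rw [sdiff_letters_cons]; exact hXs) hXc, sdiff_letters_cons, cmul_cons,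
          cmul_E u l' hal' hbl']
        simp only
        rw [cc_E_right 2 hab had hbd, cc_swap (k' := 1) rfl hbd]
        have hw : InR W (m + 1) (cmul l' u) := cmul_InR (m + 1) l' u hll (by
          have : m + 1 + l'.length = m + j := by omega
          rw [this]; exact hu)
        have hsw : W \ {b, d} = W \ {d, b} := by rw [pair_comm]
        rw [hsw] at hXs ⊢
        exact HX W m (even_sub hE hcard) (by omega) _ (hw.E haW hdW had) d b hdW hbW
          hbd.symm X hXs hXc
      obtain ⟨d, l', h⟩ := exists_perm_of_mem hbl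
      have hl' : l'.length + 1 = j := by
        rcases h with h | h <;> · have := h.length_eq; simp at this; omega
      rcases h with h | h
      · rw [hR.perm _ _ hl hj h]
        exact keyB d l' (hl.perm h) (fun h' => hal ((letters_perm h).mem_iff.2 h')) hl'
      · rw [hR.perm _ _ hl hj h, hR.swap _ _ _ (hl.perm h) hl']
        refine keyB d l' (good_swap (hl.perm h)) (fun h' => hal ((letters_perm h).mem_iff.2 ?_))
          hl'
        simp only [letters_cons, List.mem_cons] at h' ⊢
        tauto
    · have hcard := card_sdiff_letters hl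
      have haW : a ∈ V \ (letters l).toFinset := by simp [ha, hal]
      have hbW : b ∈ V \ (letters l).toFinset := by simp [hb, hbl]
      obtain ⟨X, hXW, hXc, hXF⟩ := exists_X (W := V \ (letters l).toFinset) (m := m) {a, b} (by
        rw [card_pair hab]; omega)
      rw [nf_eq HN hE hV hF hl hj hXW hXc, cmul_E u l hal hbl]
      exact nu_E_off haW hbW (hXF a (by simp)) (hXF b (by simp)) _

/-- **A dimer times a vector of `R` gives a dimer function.** -/
theorem nf_dimer (HN : HypN N K) (HX : HypX N K) (hE : Even V.card)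
    (hV : 4 * (m + (j + 1)) + 4 ≤ V.card) {a b : Fin N} (ha : a ∈ V) (hb : b ∈ V)
    (hab : a ≠ b) {w : Tup N → K} (hw : InR (V \ {a, b}) (m + j) w) :
    IsDimer V j a b (nf V m (hh 2 a b w)) (nf (V \ {a, b}) m w) := by
  have hF : InR V (m + (j + 1)) (hh 2 a b w) := hw.hh ha hb hab 2
  have hR := nf_rel HN HX hE hV hF
  have hV' := card_sdiff_pair ha hb hab
  have hE' : Even (V \ {a, b}).card := even_sub (n := 1) hE hV'
  have hsub : ∀ l : List (Fin N × Fin N), Good V l → a ∉ letters l → b ∉ letters l →
      Good (V \ {a, b}) l := by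
    intro l hl hal hbl
    refine ⟨hl.1, fun x hx => ?_⟩
    simp only [mem_sdiff, mem_insert, mem_singleton, not_or]
    exact ⟨hl.2 x hx, fun h => hal (h ▸ hx), fun h => hbl (h ▸ hx)⟩
  have left : ∀ a b : Fin N, a ∈ V → b ∈ V → a ≠ b → InR (V \ {a, b}) (m + j) w →
      ∀ c l, Good V ((a, c) :: l) → l.length = j → b ≠ c → b ∉ letters l →
      nf V m (hh 2 a b w) ((a, c) :: l) = nf (V \ {a, b}) m w l := by
    intro a b ha hb hab hw c l hg hlj hbc hbl
    have hF : InR V (m + (j + 1)) (hh 2 a b w) := hw.hh ha hb hab 2
    have hV' := card_sdiff_pair ha hb hab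
    have hE' : Even (V \ {a, b}).card := even_sub (n := 1) hE hV'
    obtain ⟨_, hc, hac, hal, hcl, hll⟩ := good_cons.1 hg
    have hcard := card_sdiff_letters hll
    have hgl : Good (V \ {a, b}) l := by
      refine ⟨hll.1, fun x hx => ?_⟩
      simp only [mem_sdiff, mem_insert, mem_singleton, not_or]
      exact ⟨hll.2 x hx, fun h => hal (h ▸ hx), fun h => hbl (h ▸ hx)⟩
    set W := V \ (letters l).toFinset with hW
    have haW : a ∈ W := by simp [hW, ha, hal]
    have hbW : b ∈ W := by simp [hW, hb, hbl]
    have hcW : c ∈ W := by simp [hW, hc, hcl]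
    obtain ⟨X, hXW, hXc, hXF⟩ := exists_X (W := W) (m := m) {a, b, c} (by
      have : ({a, b, c} : Finset (Fin N)).card ≤ 3 := card_le_three
      omega)
    have haX : a ∉ X := hXF a (by simp)
    have hbX : b ∉ X := hXF b (by simp)
    have hcX : c ∉ X := hXF c (by simp)
    have sub : ∀ x y, x ∉ X → y ∉ X → X ⊆ W \ {x, y} := by
      intro x y hx hy z hz
      simp only [mem_sdiff, mem_insert, mem_singleton, not_or]
      exact ⟨hXW hz, fun h => hx (h ▸ hz), fun h => hy (h ▸ hz)⟩
    have hWW : (V \ {a, b}) \ (letters l).toFinset = W \ {a, b} := by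
      ext x; simp only [hW, mem_sdiff]; tauto
    rw [nf_eq HN hE hV hF hg (by simp [hlj]) (X := X)
        (by rw [sdiff_letters_cons]; exact sub a c haX hcX) hXc,
      nf_eq HN hE' (by omega) hw hgl hlj (X := X) (by rw [hWW]; exact sub a b haX hbX) hXc,
      sdiff_letters_cons, cmul_cons, cmul_hh 2 w l hal hbl, hWW]
    unfold nu
    refine sum_congr rfl fun A hA => ?_
    have hA' := (mem_powersetCard.1 hA).1
    have hXs := sub a c haX hcX
    simp only
    rw [cc_hh_word hab hac hbc _ (ltr_word_off hXs hA' (by simp))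
      (ltr_word_vac hA' (by simp [hbW, hab.symm, hbc]) hbX)
      (ltr_word_off hXs hA' (by simp)), put_vac_word hA' hcX, put_empty_word hA' hbX]
    congr 2
    ext x
    simp only [mem_insert, mem_erase, mem_sdiff, mem_singleton, not_or]
    by_cases hx : x = c
    · subst hx; simp [hcW, Ne.symm hbc, Ne.symm hac]
    · simp [hx]; tauto
  refine ⟨hR.perm, fun x y l hl hlj => hR.swap x y l hl (by omega), ?_, ?_, ?_, ?_, ?_⟩
  · intro l hl hlj hal hbl
    have hcard := card_sdiff_letters hl
    have haW : a ∈ V \ (letters l).toFinset := by simp [ha, hal]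
    have hbW : b ∈ V \ (letters l).toFinset := by simp [hb, hbl]
    obtain ⟨X, hXW, hXc, hXF⟩ := exists_X (W := V \ (letters l).toFinset) (m := m) {a, b} (by
      rw [card_pair hab]; omega)
    rw [nf_eq HN hE hV hF hl hlj hXW hXc, cmul_hh 2 w l hal hbl]
    refine sum_eq_zero fun A hA => ?_
    have hA' := (mem_powersetCard.1 hA).1
    exact hh_vac (ltr_word_vac hA' haW (hXF a (by simp))) (ltr_word_vac hA' hbW (hXF b (by simp))) _
  · intro l hl hlj
    obtain ⟨_, _, _, hal, hbl, _⟩ := good_cons.1 hl
    unfold nf
    rw [cmul_cons, cmul_hh 2 w l hal hbl]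
    simp only
    rw [cc_hh_self hab]
    exact sum_eq_zero fun A _ => rfl
  · exact left a b ha hb hab hw
  · intro c l hl hlj hac hal
    rw [hh_swap hab, pair_comm a b]
    rw [pair_comm a b] at hw
    exact left b a hb ha hab.symm hw c l hl hlj hac hal
  · intro c d l hg hlj
    obtain ⟨_, hc, hac, h1, h2, h3⟩ := good_cons.1 hg
    obtain ⟨_, hd, hbd, hbl, hdl, hll⟩ := good_cons.1 h3
    simp only [letters_cons, List.mem_cons, not_or] at h1 h2
    obtain ⟨_, had, hal⟩ := h1
    obtain ⟨hcb, hcd, hcl⟩ := h2
    have hgl : Good V ((c, d) :: l) := good_cons.2 ⟨hc, hd, hcd, hcl, hdl, hll⟩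
    have hgl' : Good (V \ {a, b}) ((c, d) :: l) := hsub _ hgl
      (by simp [hac, had, hal]) (by simp [Ne.symm hcb, hbd, hbl])
    have hcard := card_sdiff_letters hll
    set W := V \ (letters l).toFinset with hW
    have haW : a ∈ W := by simp [hW, ha, hal]
    have hbW : b ∈ W := by simp [hW, hb, hbl]
    have hcW : c ∈ W := by simp [hW, hc, hcl]
    have hdW : d ∈ W := by simp [hW, hd, hdl]
    obtain ⟨X, hXW, hXc, hXF⟩ := exists_X (W := W) (m := m) {a, b, c, d} (by
      have : ({a, b, c, d} : Finset (Fin N)).card ≤ 4 := card_le_four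
      omega)
    have haX : a ∉ X := hXF a (by simp)
    have hbX : b ∉ X := hXF b (by simp)
    have hcX : c ∉ X := hXF c (by simp)
    have hdX : d ∉ X := hXF d (by simp)
    have sub : ∀ x y z t, x ∉ X → y ∉ X → z ∉ X → t ∉ X → X ⊆ (W \ {x, y}) \ {z, t} := by
      intro x y z t hx hy hz ht v hv
      simp only [mem_sdiff, mem_insert, mem_singleton, not_or]
      exact ⟨⟨hXW hv, fun h => hx (h ▸ hv), fun h => hy (h ▸ hv)⟩, fun h => hz (h ▸ hv),
        fun h => ht (h ▸ hv)⟩
    have hWW : (V \ {a, b}) \ (letters ((c, d) :: l)).toFinset = (W \ {b, d}) \ {a, c} := by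
      rw [sdiff_letters_cons]
      ext x; simp only [hW, mem_sdiff, mem_insert, mem_singleton, not_or]; tauto
    rw [nf_eq HN hE hV hF hg (by simp; omega) (X := X)
        (by rw [sdiff_letters_cons, sdiff_letters_cons]; exact sub b d a c hbX hdX haX hcX) hXc,
      nf_eq HN hE' (by omega) hw hgl' (by simp [hlj]) (X := X)
        (by rw [hWW]; exact sub b d a c hbX hdX haX hcX) hXc,
      sdiff_letters_cons, sdiff_letters_cons, cmul_cons, cmul_cons, cmul_hh 2 w l hal hbl, hWW]
    unfold nu
    refine sum_congr rfl fun A hA => ?_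
    have hA' := (mem_powersetCard.1 hA).1
    have hXs := sub b d a c hbX hdX haX hcX
    simp only [cmul_cons]
    exact cc_cc_hh hab hac had (Ne.symm hcb) hbd hcd _ (ltr_word_off hXs hA' (by simp))
      (ltr_word_off hXs hA' (by simp)) (ltr_word_off hXs hA' (by simp))
      (ltr_word_off hXs hA' (by simp))

end D81877C
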