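import Pool.Agent.Lib.MP_d81877_alC.Match
import Pool.Agent.Lib.MP_d81877_alC.Bridge
import Pool.Agent.Lib.MP_d81877_alI.Out

/-!
The inputs (N1) and (Xi) hold.
-/

namespace D81877C

open Finset Function Pool.Agent.D818A

variable {N : ℕ} {K : Type*} [Field K] [CharP K 2]

theorem est (V : Finset (Fin N)) (b : ℕ) : MP_d81877_alI.Est K V b :=
  fun _ hu _ hx _ hz hxz => rm_Eab hu hx hz hxz

theorem nu_eq (V : Finset (Fin N)) (b : ℕ) (X : Finset (Fin N)) (u : Tup N → K) :
    MP_d81877_alI.nu V b X u = nu V X b u := rfl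

theorem hypN : HypN N K := by
  intro W m hE hc u hu X X' hX hX' hXc hXc'
  exact MP_d81877_alI.nu_indep (est W m) hE hc (rm_iff.2 hu) _ rfl hX hX' hXc hXc'

theorem hypX : HypX N K := by
  intro W m hE hc u hu a c ha hcW hac X hX hXc
  have haX : a ∉ X := fun h => by have := hX h; simp at this
  have hcX : c ∉ X := fun h => by have := hX h; simp at this
  rw [← ctr1_eq hac, ← nu_eq]
  exact MP_d81877_alI.xi (est W (m + 1)) hE hc (rm_iff.2 hu) (hX.trans sdiff_subset) hXc ha hcW
    haX hcX hac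

end D81877C
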