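import Pool.Agent.Lib.MP_d81877_alC.Ops

/-!
The spaces `R_b(V)`: tuples supported in `V`, of the right shape, primitive and orthogonal to the
primitive ones of the same shape; stability under the contractions and the operators `E a b`.
-/

namespace D81877C

open Finset Function Pool.Agent.D818A

set_option linter.unusedSectionVars false

variable {N : ℕ} {K : Type*} [CommRing K]

/-- Support and shape. -/
def Supp (V : Finset (Fin N)) (b : ℕ) (u : Tup N → K) : Prop :=
  ∀ S, u S ≠ 0 → (∀ j, S j ⊆ V) ∧ (S 0).card + b = V.card ∧ (S 1).card + (b + 1) = V.card ∧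
    (S 2).card = b + 1 ∧ (S 3).card = b

/-- The space `R_b(V)`. -/
structure InR (V : Finset (Fin N)) (b : ℕ) (u : Tup N → K) : Prop where
  supp : Supp V b u
  prim : Primitive u
  orth : ∀ v : Tup N → K, Supp V b v → Primitive v → pair u v = 0

/-- The insertion of complementary letters at `a`, `b`. -/
def hh (k : ℕ) (a b : Fin N) (v : Tup N → K) : Tup N → K := fun S =>
  if (ltr S a).card = k ∧ ltr S b = (ltr S a)ᶜ then v (put a ∅ (put b ∅ S)) else 0

theorem put_of_ltr {a : Fin N} {A : Finset (Fin 4)} {S : Tup N} (h : ltr S a = A) :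
    put a A S = S := by rw [← h, put_ltr]

theorem pair_cc (k : ℕ) {a b : Fin N} (hab : a ≠ b) (u v : Tup N → K) :
    pair (cc k a b u) v = pair u (hh k a b v) := by
  unfold pair cc hh
  simp only [ite_mul, zero_mul, mul_ite, mul_zero, sum_mul]
  rw [← sum_filter, ← sum_filter, sum_sigma']
  refine sum_nbij' (fun p => put a p.2 (put b p.2ᶜ p.1))
    (fun T => ⟨put a ∅ (put b ∅ T), ltr T a⟩) ?_ ?_ ?_ ?_ ?_
  · rintro ⟨S, A⟩ hS
    simp only [mem_sigma, mem_filter, mem_univ, true_and, mem_powersetCard, subset_univ] at hS ⊢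
    rw [ltr_put_self, ltr_put_of_ne hab.symm, ltr_put_self]
    exact ⟨hS.2, rfl⟩
  · rintro T hT
    simp only [mem_sigma, mem_filter, mem_univ, true_and, mem_powersetCard, subset_univ] at hT ⊢
    rw [ltr_put_self, ltr_put_of_ne hab.symm, ltr_put_self]
    exact ⟨⟨rfl, rfl⟩, hT.1⟩
  · rintro ⟨S, A⟩ hS
    simp only [mem_sigma, mem_filter, mem_univ, true_and, mem_powersetCard, subset_univ] at hS
    have h1 : put a ∅ (put b ∅ (put a A (put b Aᶜ S))) = S := by
      rw [put_comm hab ∅ ∅, put_put, put_comm hab.symm, put_put, put_of_ltr hS.1.2,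
        put_of_ltr hS.1.1]
    have h2 : ltr (put a A (put b Aᶜ S)) a = A := ltr_put_self _ _ _
    simp only [h1, h2]
  · rintro T hT
    simp only [mem_filter, mem_univ, true_and] at hT
    simp only
    rw [← hT.2]
    rw [put_comm hab.symm, put_put, put_put, put_ltr, put_ltr]
  · rintro ⟨S, A⟩ hS
    simp only [mem_sigma, mem_filter, mem_univ, true_and, mem_powersetCard, subset_univ] at hS
    have h1 : put a ∅ (put b ∅ (put a A (put b Aᶜ S))) = S := by
      rw [put_comm hab ∅ ∅, put_put, put_comm hab.symm, put_put, put_of_ltr hS.1.2,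
        put_of_ltr hS.1.1]
    simp only [h1]

theorem pair_E {a b : Fin N} (hab : a ≠ b) (u v : Tup N → K) :
    pair (E a b u) v = pair u (E b a v) := by
  unfold pair E
  simp only [sum_mul, mul_sum, ite_mul, zero_mul, mul_ite, mul_zero]
  rw [sum_comm]
  conv_rhs => rw [sum_comm]
  refine sum_congr rfl fun l _ => ?_
  rw [← sum_filter, ← sum_filter]
  refine sum_nbij' (fun S => tr a b l S) (fun T => tr b a l T) ?_ ?_ ?_ ?_ ?_
  · intro S hS
    simp only [mem_filter, mem_univ, true_and, mem_tr, if_true] at hS ⊢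
    simp [hab]
  · intro S hS
    simp only [mem_filter, mem_univ, true_and, mem_tr, if_true] at hS ⊢
    simp [hab.symm]
  · intro S hS
    simp only [mem_filter, mem_univ, true_and] at hS
    refine tup_ext fun k i => ?_
    simp only [mem_tr]
    by_cases hk : k = l
    · subst hk
      by_cases h1 : i = a
      · subst h1; simp [hS.1]
      · by_cases h2 : i = b
        · subst h2; simp [h1, hS.2]
        · simp [h1, h2]
    · simp [hk]
  · intro S hS
    simp only [mem_filter, mem_univ, true_and] at hS
    refine tup_ext fun k i => ?_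
    simp only [mem_tr]
    by_cases hk : k = l
    · subst hk
      by_cases h1 : i = b
      · subst h1; simp [hS.1]
      · by_cases h2 : i = a
        · subst h2; simp [h1, hS.2]
        · simp [h1, h2]
    · simp [hk]
  · intro S hS
    simp only [mem_filter, mem_univ, true_and] at hS
    have : tr b a l (tr a b l S) = S := by
      refine tup_ext fun k i => ?_
      simp only [mem_tr]
      by_cases hk : k = l
      · subst hk
        by_cases h1 : i = a
        · subst h1; simp [hS.1]
        · by_cases h2 : i = b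
          · subst h2; simp [h1, hS.2]
          · simp [h1, h2]
      · simp [hk]
    rw [this]

theorem primitive_iff_rest {v : Tup N → K} :
    Primitive v ↔ ∀ j j' : Fin 4, (j : ℕ) + 1 = j' → ∀ r, 1 ≤ r → rest j j' univ r v = 0 := by
  rw [primitive_iff]
  simp only [raise_eq_rest]

theorem rest_smul (j j' : Fin 4) (W : Finset (Fin N)) (r : ℕ) (c : K) (u : Tup N → K) :
    rest j j' W r (c • u) = c • rest j j' W r u := by
  funext S; simp [rest, mul_sum]

theorem pair_single (S : Tup N) (v : Tup N → K) : pair (Pi.single S 1) v = v S := by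
  classical
  unfold pair
  rw [sum_eq_single S]
  · simp
  · intro T _ hT; simp [hT]
  · intro h; exact absurd (mem_univ _) h

section char_two

variable [CharP K 2]

/-- The contraction of a primitive vector is primitive. -/
theorem Primitive.cc {u : Tup N → K} (hu : Primitive u) (k : ℕ) {a b : Fin N} (hab : a ≠ b) :
    Primitive (cc k a b u) := by
  rw [primitive_iff_rest] at hu ⊢
  intro j j' hj r hr
  have hne : j ≠ j' := by rintro rfl; omega
  rw [← cc_raise k hab hne, hu j j' hj r hr]
  funext S
  simp [D81877C.cc]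

theorem Primitive.E {u : Tup N → K} (hu : Primitive u) {a b : Fin N} (hab : a ≠ b) :
    Primitive (E a b u) := by
  rw [primitive_iff_rest] at hu ⊢
  intro j j' hj r hr
  have hne : j ≠ j' := by rintro rfl; omega
  rw [← E_raise hab hne, hu j j' hj r hr]
  funext S
  simp [D81877C.E]

theorem Primitive.hh {v : Tup N → K} (hv : Primitive v) (k : ℕ) {a b : Fin N} (hab : a ≠ b) :
    Primitive (hh k a b v) := by
  rw [primitive_iff] at hv ⊢
  intro j j' hj r hr
  have hne : j ≠ j' := by rintro rfl; omega
  funext S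
  rw [← pair_single S (raise j j' r (D81877C.hh k a b v)), ← lower_adj hne, ← pair_cc k hab,
    lower_eq_rest hne, cc_raise k hab hne.symm, ← lower_eq_rest hne, lower_adj hne,
    hv j j' hj r hr]
  simp [pair]

end char_two

theorem card_put {a : Fin N} {A : Finset (Fin 4)} {S : Tup N} {j : Fin 4} (ha : a ∉ S j) :
    (put a A S j).card = (S j).card + if j ∈ A then 1 else 0 := by
  unfold put
  split_ifs with h
  · exact card_insert_of_notMem ha
  · rw [erase_eq_of_notMem ha, add_zero]

theorem card_put_put {a b : Fin N} (hab : a ≠ b) {A : Finset (Fin 4)} {S : Tup N} {j : Fin 4}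
    (ha : a ∉ S j) (hb : b ∉ S j) : (put a A (put b Aᶜ S) j).card = (S j).card + 1 := by
  rw [card_put, card_put hb]
  · by_cases h : j ∈ A <;> simp [h]
  · rw [mem_put]; simp [hab, ha]

theorem Supp.cc {V : Finset (Fin N)} {m : ℕ} {u : Tup N → K} (hu : Supp V (m + 1) u) (k : ℕ)
    {a b : Fin N} (ha : a ∈ V) (hb : b ∈ V) (hab : a ≠ b) :
    Supp (V \ {a, b}) m (cc k a b u) := by
  intro S hS
  unfold D81877C.cc at hS
  split_ifs at hS with h
  · obtain ⟨A, _, hA⟩ := exists_ne_zero_of_sum_ne_zero hS
    obtain ⟨h1, h2, h3, h4, h5⟩ := hu _ hA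
    have haS : ∀ j, a ∉ S j := fun j hj => by
      have := mem_ltr.2 hj; rw [h.1] at this; simp at this
    have hbS : ∀ j, b ∉ S j := fun j hj => by
      have := mem_ltr.2 hj; rw [h.2] at this; simp at this
    rw [card_put_put hab (haS _) (hbS _)] at h2 h3 h4 h5
    have hcard : (V \ {a, b}).card + 2 = V.card := by
      rw [← card_pair hab]
      exact card_sdiff_add_card_eq_card (insert_subset ha (singleton_subset_iff.2 hb))
    refine ⟨fun j x hx => ?_, by omega, by omega, by omega, by omega⟩
    have hxa : x ≠ a := by rintro rfl; exact haS _ hx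
    have hxb : x ≠ b := by rintro rfl; exact hbS _ hx
    have : x ∈ put a A (put b Aᶜ S) j := by simp [mem_put, hxa, hxb, hx]
    simp [h1 j this, hxa, hxb]
  · exact absurd rfl hS

theorem Supp.hh {V : Finset (Fin N)} {m : ℕ} {v : Tup N → K} {a b : Fin N} (ha : a ∈ V)
    (hb : b ∈ V) (hab : a ≠ b) (hv : Supp (V \ {a, b}) m v) (k : ℕ) :
    Supp V (m + 1) (hh k a b v) := by
  intro S hS
  unfold D81877C.hh at hS
  split_ifs at hS with h
  · obtain ⟨h1, h2, h3, h4, h5⟩ := hv _ hS
    have hSS : S = put a (ltr S a) (put b (ltr S a)ᶜ (put a ∅ (put b ∅ S))) := by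
      rw [← h.2, put_comm hab.symm, put_put, put_put, put_ltr, put_ltr]
    have haS : ∀ j, a ∉ put a ∅ (put b ∅ S) j := fun j => by simp [mem_put]
    have hbS : ∀ j, b ∉ put a ∅ (put b ∅ S) j := fun j => by simp [mem_put, hab.symm]
    have hc : ∀ j, (S j).card = (put a ∅ (put b ∅ S) j).card + 1 := fun j => by
      conv_lhs => rw [hSS]
      exact card_put_put hab (haS j) (hbS j)
    have hcard : (V \ {a, b}).card + 2 = V.card := by
      rw [← card_pair hab]
      exact card_sdiff_add_card_eq_card (insert_subset ha (singleton_subset_iff.2 hb))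
    have e0 := hc 0
    have e1 := hc 1
    have e2 := hc 2
    have e3 := hc 3
    refine ⟨fun j x hx => ?_, by omega, by omega, by omega, by omega⟩
    by_cases hxa : x = a
    · exact hxa ▸ ha
    · by_cases hxb : x = b
      · exact hxb ▸ hb
      · have : x ∈ put a ∅ (put b ∅ S) j := by simp [mem_put, hxa, hxb, hx]
        exact (mem_sdiff.1 (h1 j this)).1
  · exact absurd rfl hS

theorem Supp.E {V : Finset (Fin N)} {m : ℕ} {u : Tup N → K} (hu : Supp V m u)
    {a b : Fin N} (ha : a ∈ V) : Supp V m (E a b u) := by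
  intro S hS
  unfold D81877C.E at hS
  obtain ⟨l, _, hl⟩ := exists_ne_zero_of_sum_ne_zero hS
  split_ifs at hl with h
  · obtain ⟨h1, h2, h3, h4, h5⟩ := hu _ hl
    have hc : ∀ j, (tr a b l S j).card = (S j).card := by
      intro j
      unfold tr
      by_cases hj : j = l
      · subst hj
        rw [update_self, card_insert_of_notMem (fun h' => h.2 (mem_of_mem_erase h')),
          card_erase_of_mem h.1]
        have := card_pos.2 ⟨a, h.1⟩
        omega
      · rw [update_of_ne hj]
    rw [hc] at h2 h3 h4 h5
    refine ⟨fun j x hx => ?_, h2, h3, h4, h5⟩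
    by_cases hxa : x = a
    · exact hxa ▸ ha
    · have : x ∈ tr a b l S j := by
        rw [mem_tr]
        split_ifs with hj
        · subst hj; exact Or.inr ⟨hxa, hx⟩
        · exact hx
      exact h1 j this
  · exact absurd rfl hl

section char_two

variable [CharP K 2]

/-- **The contraction maps `R_(b+1)(V)` to `R_b(V - {a, b})`.** -/
theorem InR.cc {V : Finset (Fin N)} {m : ℕ} {u : Tup N → K} (hu : InR V (m + 1) u) (k : ℕ)
    {a b : Fin N} (ha : a ∈ V) (hb : b ∈ V) (hab : a ≠ b) :
    InR (V \ {a, b}) m (cc k a b u) where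
  supp := hu.supp.cc k ha hb hab
  prim := Primitive.cc hu.prim k hab
  orth v hv hvp := by
    rw [pair_cc k hab]
    exact hu.orth _ (hv.hh ha hb hab k) (Primitive.hh hvp k hab)

/-- **`R_b(V)` is stable under `E a b`.** -/
theorem InR.E {V : Finset (Fin N)} {m : ℕ} {u : Tup N → K} (hu : InR V m u)
    {a b : Fin N} (ha : a ∈ V) (hb : b ∈ V) (hab : a ≠ b) :
    InR V m (E a b u) where
  supp := hu.supp.E ha
  prim := Primitive.E hu.prim hab
  orth v hv hvp := by
    rw [pair_E hab]
    exact hu.orth _ (hv.E hb) (Primitive.E hvp hab.symm)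

end char_two

end D81877C
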