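import Pool.Agent.Lib.MP_d81877_alC.Words

/-!
Iterated contractions along a matching, the functions `nf`, and the relations of `Rel`.
-/

namespace D81877C

open Finset Function Pool.Agent.D818A

set_option linter.unusedSectionVars false

variable {N : ℕ} {K : Type*} [CommRing K]

/-- the contraction along a list of pairs -/
def cmul : List (Fin N × Fin N) → (Tup N → K) → (Tup N → K)
  | [], u => u
  | p :: l, u => cc 2 p.1 p.2 (cmul l u)

@[simp] theorem cmul_nil (u : Tup N → K) : cmul [] u = u := rfl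

@[simp] theorem cmul_cons (p : Fin N × Fin N) (l : List (Fin N × Fin N)) (u : Tup N → K) :
    cmul (p :: l) u = cc 2 p.1 p.2 (cmul l u) := rfl

theorem cmul_E {a b : Fin N} (u : Tup N → K) :
    ∀ l : List (Fin N × Fin N), a ∉ letters l → b ∉ letters l →
      cmul l (E a b u) = E a b (cmul l u)
  | [], _, _ => rfl
  | p :: l, ha, hb => by
    simp only [letters_cons, List.mem_cons, not_or] at ha hb
    rw [cmul_cons, cmul_cons, cmul_E u l ha.2.2 hb.2.2, cc_E 2 ha.1 ha.2.1 hb.1 hb.2.1]

theorem cmul_cc (k : ℕ) {a b : Fin N} (u : Tup N → K) :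
    ∀ l : List (Fin N × Fin N), a ∉ letters l → b ∉ letters l →
      cmul l (cc k a b u) = cc k a b (cmul l u)
  | [], _, _ => rfl
  | p :: l, ha, hb => by
    simp only [letters_cons, List.mem_cons, not_or] at ha hb
    rw [cmul_cons, cmul_cons, cmul_cc k u l ha.2.2 hb.2.2,
      cc_comm 2 k (Ne.symm ha.1) (Ne.symm hb.1) (Ne.symm ha.2.1) (Ne.symm hb.2.1)]

theorem cmul_perm {l l' : List (Fin N × Fin N)} (h : l.Perm l') :
    (letters l).Nodup → ∀ u : Tup N → K, cmul l u = cmul l' u := by
  induction h with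
  | nil => intro _ u; rfl
  | cons p _ ih =>
    intro hn u
    simp only [letters_cons, List.nodup_cons] at hn
    rw [cmul_cons, cmul_cons, ih hn.2.2]
  | swap p p' l =>
    intro hn u
    simp only [letters_cons, List.nodup_cons, List.mem_cons, not_or] at hn
    obtain ⟨⟨h1, h2, h3, h4⟩, ⟨h5, h6, h7⟩, _⟩ := hn
    rw [cmul_cons, cmul_cons, cmul_cons, cmul_cons, cc_comm 2 2 h2 h3 h5 h6]
  | trans h1 _ ih1 ih2 =>
    intro hn u
    rw [ih1 hn, ih2 (((letters_perm h1).nodup_iff).1 hn)]

theorem cmul_swap {a b : Fin N} (hab : a ≠ b) (l : List (Fin N × Fin N)) (u : Tup N → K) :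
    cmul ((a, b) :: l) u = cmul ((b, a) :: l) u := by
  rw [cmul_cons, cmul_cons]
  exact cc_swap rfl hab _

theorem sdiff_letters_cons (V : Finset (Fin N)) (a b : Fin N) (l : List (Fin N × Fin N)) :
    V \ (letters ((a, b) :: l)).toFinset = (V \ (letters l).toFinset) \ {a, b} := by
  ext x
  simp only [mem_sdiff, List.mem_toFinset, letters_cons, List.mem_cons, mem_insert,
    mem_singleton, not_or]
  tauto

theorem card_sdiff_letters {V : Finset (Fin N)} {l : List (Fin N × Fin N)} (h : Good V l) :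
    (V \ (letters l).toFinset).card + 2 * l.length = V.card := by
  have h1 : (letters l).toFinset ⊆ V := fun x hx => h.2 x (List.mem_toFinset.1 hx)
  have h2 := card_sdiff_add_card_eq_card h1
  rw [List.toFinset_card_of_nodup h.1, letters_length] at h2
  exact h2

/-- a chosen subset of the right size -/
noncomputable def chX (W : Finset (Fin N)) (m : ℕ) : Finset (Fin N) :=
  if h : 2 * m + 1 ≤ W.card then (exists_subset_card_eq h).choose else ∅

theorem chX_spec {W : Finset (Fin N)} {m : ℕ} (h : 2 * m + 1 ≤ W.card) :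
    chX W m ⊆ W ∧ (chX W m).card = 2 * m + 1 := by
  unfold chX
  rw [dif_pos h]
  exact (exists_subset_card_eq h).choose_spec

/-- The function on matchings attached to a vector. -/
noncomputable def nf (V : Finset (Fin N)) (m : ℕ) (u : Tup N → K) (l : List (Fin N × Fin N)) : K :=
  nu (V \ (letters l).toFinset) (chX (V \ (letters l).toFinset) m) m (cmul l u)

/-- Input (N1). -/
def HypN (N : ℕ) (K : Type*) [CommRing K] : Prop :=
  ∀ (W : Finset (Fin N)) (m : ℕ), Even W.card → 4 * m + 4 ≤ W.card →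
    ∀ u : Tup N → K, InR W m u → ∀ X X' : Finset (Fin N), X ⊆ W → X' ⊆ W →
      X.card = 2 * m + 1 → X'.card = 2 * m + 1 → nu W X m u = nu W X' m u

/-- Input (Xi). -/
def HypX (N : ℕ) (K : Type*) [CommRing K] : Prop :=
  ∀ (W : Finset (Fin N)) (m : ℕ), Even W.card → 4 * (m + 1) + 4 ≤ W.card →
    ∀ u : Tup N → K, InR W (m + 1) u → ∀ a c : Fin N, a ∈ W → c ∈ W → a ≠ c →
      ∀ X : Finset (Fin N), X ⊆ W \ {a, c} → X.card = 2 * m + 1 →
        nu (W \ {a, c}) X m (cc 1 a c u) = 0

section char_two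

variable [CharP K 2]

theorem cmul_InR {V : Finset (Fin N)} (m : ℕ) :
    ∀ (l : List (Fin N × Fin N)) (u : Tup N → K), Good V l → InR V (m + l.length) u →
      InR (V \ (letters l).toFinset) m (cmul l u)
  | [], u, _, hu => by simpa using hu
  | (a, b) :: l, u, hl, hu => by
    obtain ⟨ha, hb, hab, hal, hbl, hll⟩ := good_cons.1 hl
    have h1 := cmul_InR (m + 1) l u hll (by
      have : m + 1 + l.length = m + ((a, b) :: l).length := by simp; omega
      rw [this]; exact hu)
    rw [sdiff_letters_cons, cmul_cons]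
    exact h1.cc 2 (by simp [ha, hal]) (by simp [hb, hbl]) hab

variable {V : Finset (Fin N)} {m j : ℕ} {u : Tup N → K}

theorem nf_eq (HN : HypN N K) (hE : Even V.card) (hV : 4 * (m + j) + 4 ≤ V.card)
    (hu : InR V (m + j) u) {l : List (Fin N × Fin N)} (hl : Good V l) (hj : l.length = j)
    {X : Finset (Fin N)} (hX : X ⊆ V \ (letters l).toFinset) (hXc : X.card = 2 * m + 1) :
    nf V m u l = nu (V \ (letters l).toFinset) X m (cmul l u) := by
  have hc := card_sdiff_letters hl
  have h1 : 2 * m + 1 ≤ (V \ (letters l).toFinset).card := by omega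
  obtain ⟨h2, h3⟩ := chX_spec h1
  refine HN _ m ?_ (by omega) _ (cmul_InR m l u hl (by rw [hj]; exact hu)) _ _ h2 hX h3 hXc
  rw [← hc, Nat.even_add] at hE
  exact hE.2 (even_two_mul _)

/-- a set of the right size avoiding some more sites -/
theorem exists_X {W : Finset (Fin N)} {m : ℕ} (F : Finset (Fin N))
    (h : 2 * m + 1 + F.card ≤ W.card) : ∃ X ⊆ W, X.card = 2 * m + 1 ∧ ∀ x ∈ F, x ∉ X := by
  have h1 : 2 * m + 1 ≤ (W \ F).card := by
    have := le_card_sdiff F W
    omega
  obtain ⟨X, hX, hc⟩ := exists_subset_card_eq h1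
  exact ⟨X, hX.trans sdiff_subset, hc, fun x hx hxX => (mem_sdiff.1 (hX hxX)).2 hx⟩

/-- **The triangle relation.** -/
theorem nf_tri (HN : HypN N K) (HX : HypX N K) (hE : Even V.card)
    (hV : 4 * (m + j) + 4 ≤ V.card) (hu : InR V (m + j) u) {a b c : Fin N}
    {l : List (Fin N × Fin N)} (hl : Good V ((a, b) :: l)) (hc : c ∈ V) (hca : c ≠ a)
    (hcb : c ≠ b) (hcl : c ∉ letters l) (hj : l.length + 1 = j) :
    nf V m u ((a, c) :: l) + nf V m u ((b, c) :: l) + nf V m u ((a, b) :: l) = 0 := by
  obtain ⟨ha, hb, hab, hal, hbl, hll⟩ := good_cons.1 hl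
  have hl2 : Good V ((a, c) :: l) := good_cons.2 ⟨ha, hc, hca.symm, hal, hcl, hll⟩
  have hl3 : Good V ((b, c) :: l) := good_cons.2 ⟨hb, hc, hcb.symm, hbl, hcl, hll⟩
  have hcard := card_sdiff_letters hll
  set W := V \ (letters l).toFinset with hW
  have haW : a ∈ W := by simp [hW, ha, hal]
  have hbW : b ∈ W := by simp [hW, hb, hbl]
  have hcW : c ∈ W := by simp [hW, hc, hcl]
  obtain ⟨X, hXW, hXc, hXF⟩ := exists_X (W := W) (m := m) {a, b, c} (by
    have : ({a, b, c} : Finset (Fin N)).card ≤ 3 := card_le_three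
    omega)
  have haX : a ∉ X := hXF a (by simp)
  have hbX : b ∉ X := hXF b (by simp)
  have hcX : c ∉ X := hXF c (by simp)
  have sub : ∀ x y, x ∉ X → y ∉ X → X ⊆ W \ {x, y} := by
    intro x y hx hy z hz
    simp only [mem_sdiff, mem_insert, mem_singleton, not_or]
    exact ⟨hXW hz, fun h => hx (h ▸ hz), fun h => hy (h ▸ hz)⟩
  rw [nf_eq HN hE hV hu hl2 (by simp [hj]) (X := X)
      (by rw [sdiff_letters_cons]; exact sub a c haX hcX) hXc,
    nf_eq HN hE hV hu hl3 (by simp [hj]) (X := X)
      (by rw [sdiff_letters_cons]; exact sub b c hbX hcX) hXc,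
    nf_eq HN hE hV hu hl (by simp [hj]) (X := X)
      (by rw [sdiff_letters_cons]; exact sub a b haX hbX) hXc]
  simp only [sdiff_letters_cons, cmul_cons, ← hW]
  have hw : InR W (m + 1) (cmul l u) := cmul_InR (m + 1) l u hll (by
    have : m + 1 + l.length = m + j := by omega
    rw [this]; exact hu)
  set w := cmul l u with hwdef
  have hzero : nu (W \ {a, c}) X m (cc 2 a c (E a b (E b a w))) = 0 := by
    rw [cc_E_left 1 hab hca.symm hcb.symm]
    refine HX W m ?_ (by omega) _ ((hw.E hbW haW hab.symm).E hcW hbW hcb) a c haW hcW hca.symm X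
      (sub a c haX hcX) hXc
    rw [← hcard, Nat.even_add] at hE
    exact hE.2 (even_two_mul _)
  rw [← hzero]
  unfold nu
  rw [← sum_add_distrib, ← sum_add_distrib]
  refine sum_congr rfl fun A hA => ?_
  have hA' := (mem_powersetCard.1 hA).1
  have hXs := sub a c haX hcX
  rw [tri_word hab hca.symm hcb.symm w
    (ltr_word_off hXs hA' (by simp)) (ltr_word_vac hA' (by simp [hbW, hab.symm, hcb.symm]) hbX)
    (ltr_word_off hXs hA' (by simp))]
  rw [put_empty_word hA' hbX, put_vac_word hA' haX, put_vac_word hA' hcX,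
    put_empty_word hA' hbX]
  have e1 : insert a ((W \ {a, c}).erase b) = W \ {b, c} := by
    ext x
    simp only [mem_insert, mem_erase, mem_sdiff, mem_singleton, not_or]
    by_cases hx : x = a
    · subst hx; simp [haW, hab, hca.symm]
    · simp [hx]; tauto
  have e2 : (insert c (W \ {a, c})).erase b = W \ {a, b} := by
    ext x
    simp only [mem_insert, mem_erase, mem_sdiff, mem_singleton, not_or]
    by_cases hx : x = c
    · subst hx; simp [hcW, hcb, hca]
    · simp [hx]; tauto
  rw [e1, e2]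

/-- **The crossing relation.** -/
theorem nf_cross (HN : HypN N K) (HX : HypX N K) (hE : Even V.card)
    (hV : 4 * (m + j) + 4 ≤ V.card) (hu : InR V (m + j) u) {a b c d : Fin N}
    {l : List (Fin N × Fin N)} (hl : Good V ((a, b) :: (c, d) :: l)) (hj : l.length + 2 = j) :
    nf V m u ((a, c) :: (b, d) :: l) + nf V m u ((b, c) :: (a, d) :: l) +
      nf V m u ((a, b) :: (c, d) :: l) = 0 := by
  obtain ⟨ha, hb, hab, hacd, hbcd, hl2⟩ := good_cons.1 hl
  obtain ⟨hc, hd, hcd, hcl, hdl, hll⟩ := good_cons.1 hl2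
  simp only [letters_cons, List.mem_cons, not_or] at hacd hbcd
  obtain ⟨hac, had, hal⟩ := hacd
  obtain ⟨hbc, hbd, hbl⟩ := hbcd
  have g1 : Good V ((a, c) :: (b, d) :: l) := by
    refine good_cons.2 ⟨ha, hc, hac, ?_, ?_, good_cons.2 ⟨hb, hd, hbd, hbl, hdl, hll⟩⟩
    · simp [hab, had, hal]
    · simp [hcd, hcl, Ne.symm hbc]
  have g2 : Good V ((b, c) :: (a, d) :: l) := by
    refine good_cons.2 ⟨hb, hc, hbc, ?_, ?_, good_cons.2 ⟨ha, hd, had, hal, hdl, hll⟩⟩
    · simp [hab.symm, hbd, hbl]
    · simp [hcd, hcl, Ne.symm hac]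
  have hcard := card_sdiff_letters hll
  set W := V \ (letters l).toFinset with hW
  have haW : a ∈ W := by simp [hW, ha, hal]
  have hbW : b ∈ W := by simp [hW, hb, hbl]
  have hcW : c ∈ W := by simp [hW, hc, hcl]
  have hdW : d ∈ W := by simp [hW, hd, hdl]
  obtain ⟨X, hXW, hXc, hXF⟩ := exists_X (W := W) (m := m) {a, b, c, d} (by
    have : ({a, b, c, d} : Finset (Fin N)).card ≤ 4 := card_le_four
    omega)
  have haX : a ∉ X := hXF a (by simp)
  have hbX : b ∉ X := hXF b (by simp)
  have hcX : c ∉ X := hXF c (by simp)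
  have hdX : d ∉ X := hXF d (by simp)
  have sub : ∀ x y z t, x ∉ X → y ∉ X → z ∉ X → t ∉ X → X ⊆ (W \ {x, y}) \ {z, t} := by
    intro x y z t hx hy hz ht v hv
    simp only [mem_sdiff, mem_insert, mem_singleton, not_or]
    exact ⟨⟨hXW hv, fun h => hx (h ▸ hv), fun h => hy (h ▸ hv)⟩, fun h => hz (h ▸ hv),
      fun h => ht (h ▸ hv)⟩
  rw [nf_eq HN hE hV hu g1 (by simp; omega) (X := X)
      (by rw [sdiff_letters_cons, sdiff_letters_cons]; exact sub b d a c hbX hdX haX hcX) hXc,
    nf_eq HN hE hV hu g2 (by simp; omega) (X := X)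
      (by rw [sdiff_letters_cons, sdiff_letters_cons]; exact sub a d b c haX hdX hbX hcX) hXc,
    nf_eq HN hE hV hu hl (by simp; omega) (X := X)
      (by rw [sdiff_letters_cons, sdiff_letters_cons]; exact sub c d a b hcX hdX haX hbX) hXc]
  simp only [sdiff_letters_cons, cmul_cons, ← hW]
  have hw : InR W (m + 1 + 1) (cmul l u) := cmul_InR (m + 1 + 1) l u hll (by
    have : m + 1 + 1 + l.length = m + j := by omega
    rw [this]; exact hu)
  set w := cmul l u with hwdef
  have e1 : (W \ {a, d}) \ {b, c} = (W \ {b, d}) \ {a, c} := by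
    ext x; simp only [mem_insert, mem_sdiff, mem_singleton, not_or]; tauto
  have e2 : (W \ {c, d}) \ {a, b} = (W \ {b, d}) \ {a, c} := by
    ext x; simp only [mem_insert, mem_sdiff, mem_singleton, not_or]; tauto
  have hzero : nu ((W \ {b, d}) \ {a, c}) X m (cc 2 a c (cc 2 b d (E a b (E b a w)))) = 0 := by
    rw [cc_E_right 2 hab had hbd, cc_comm 2 3 hab had (Ne.symm hbc) hcd,
      cc_E_left 1 had hac (Ne.symm hcd), ← cc_comm 1 3 hab had (Ne.symm hbc) hcd]
    refine HX (W \ {b, d}) m ?_ ?_ _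
      (((hw.E hbW haW hab.symm).E hcW hdW hcd).cc 3 hbW hdW hbd) a c
      (by simp [haW, hab, had]) (by simp [hcW, hcd, Ne.symm hbc]) hac X
      (sub b d a c hbX hdX haX hcX) hXc
    · have h2 : (W \ {b, d}).card + 2 = W.card := by
        rw [← card_pair hbd]
        exact card_sdiff_add_card_eq_card (insert_subset hbW (singleton_subset_iff.2 hdW))
      have h3 : V.card = (W \ {b, d}).card + 2 * (l.length + 1) := by omega
      rw [h3, Nat.even_add] at hE
      exact hE.2 (even_two_mul _)
    · have h2 : (W \ {b, d}).card + 2 = W.card := by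
        rw [← card_pair hbd]
        exact card_sdiff_add_card_eq_card (insert_subset hbW (singleton_subset_iff.2 hdW))
      omega
  rw [← hzero, e1, e2]
  unfold nu
  rw [← sum_add_distrib, ← sum_add_distrib]
  refine sum_congr rfl fun A hA => ?_
  have hA' := (mem_powersetCard.1 hA).1
  have hXs := sub b d a c hbX hdX haX hcX
  rw [cross_word hab hac had hbc hbd hcd w
    (ltr_word_off hXs hA' (by simp)) (ltr_word_off hXs hA' (by simp))
    (ltr_word_off hXs hA' (by simp)) (ltr_word_off hXs hA' (by simp))]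

/-- The function on matchings of a vector of `R_(m+j)(V)` satisfies all the relations. -/
theorem nf_rel (HN : HypN N K) (HX : HypX N K) (hE : Even V.card)
    (hV : 4 * (m + j) + 4 ≤ V.card) (hu : InR V (m + j) u) : Rel V j (nf V m u) where
  perm l l' hl _ hp := by
    unfold nf
    have : (letters l).toFinset = (letters l').toFinset := by
      ext x; simp only [List.mem_toFinset]; exact (letters_perm hp).mem_iff
    rw [this, cmul_perm hp hl.1]
  swap a b l hl _ := by
    obtain ⟨ha, hb, hab, hal, hbl, hll⟩ := good_cons.1 hl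
    unfold nf
    have : (letters ((a, b) :: l)).toFinset = (letters ((b, a) :: l)).toFinset := by
      ext x; simp only [List.mem_toFinset, letters_cons, List.mem_cons]; tauto
    rw [this, cmul_swap hab]
  tri a b c l hl hc hca hcb hcl hj := nf_tri HN HX hE hV hu hl hc hca hcb hcl hj
  cross a b c d l hl hj := nf_cross HN HX hE hV hu hl hj

end char_two

end D81877C
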