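import Pool.Agent.Lib.MP_d81877_alA.Dual

/-!
The tensor model with four columns: moves between columns and between sites, contraction of two
sites, and their commutation rules in characteristic two.
-/

namespace D81877C

open Finset Function Pool.Agent.D818A

set_option linter.unusedSectionVars false

/-- The tuples of four sets of sites. -/
abbrev Tup (N : ℕ) := Fin 4 → Finset (Fin N)

variable {N : ℕ} {K : Type*} [CommRing K]

theorem tup_ext {S T : Tup N} (h : ∀ k i, i ∈ S k ↔ i ∈ T k) : S = T :=
  funext fun k => Finset.ext fun i => h k i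

/-- Moves the sites of `Y` from the column `j` to the column `j'`. -/
def mv (j j' : Fin 4) (Y : Finset (Fin N)) (S : Tup N) : Tup N :=
  update (update S j (S j \ Y)) j' (S j' ∪ Y)

theorem mem_mv {j j' : Fin 4} {Y : Finset (Fin N)} {S : Tup N} {k : Fin 4} {i : Fin N} :
    i ∈ mv j j' Y S k ↔
      if k = j' then i ∈ S j' ∨ i ∈ Y else if k = j then i ∈ S j ∧ i ∉ Y else i ∈ S k := by
  unfold mv
  by_cases h1 : k = j'
  · subst h1; simp
  · rw [update_of_ne h1, if_neg h1]
    by_cases h2 : k = j
    · subst h2; simp
    · rw [update_of_ne h2, if_neg h2]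

/-- Puts the letter `A` at the site `a`. -/
def put (a : Fin N) (A : Finset (Fin 4)) (S : Tup N) : Tup N :=
  fun k => if k ∈ A then insert a (S k) else (S k).erase a

theorem mem_put {a : Fin N} {A : Finset (Fin 4)} {S : Tup N} {k : Fin 4} {i : Fin N} :
    i ∈ put a A S k ↔ if i = a then k ∈ A else i ∈ S k := by
  unfold put
  by_cases hk : k ∈ A <;> by_cases hi : i = a <;> simp [hk, hi]

/-- The letter at a site. -/
def ltr (S : Tup N) (a : Fin N) : Finset (Fin 4) := univ.filter fun k => a ∈ S k

theorem mem_ltr {S : Tup N} {a : Fin N} {k : Fin 4} : k ∈ ltr S a ↔ a ∈ S k := by simp [ltr]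

theorem put_comm {a b : Fin N} (hab : a ≠ b) (A B : Finset (Fin 4)) (S : Tup N) :
    put a A (put b B S) = put b B (put a A S) := by
  refine tup_ext fun k i => ?_
  simp only [mem_put]
  by_cases h1 : i = a
  · subst h1; simp [hab]
  · by_cases h2 : i = b
    · subst h2; simp [h1]
    · simp [h1, h2]

theorem put_put (a : Fin N) (A B : Finset (Fin 4)) (S : Tup N) :
    put a A (put a B S) = put a A S := by
  refine tup_ext fun k i => ?_
  simp only [mem_put]
  by_cases h1 : i = a <;> simp [h1]

theorem put_ltr (a : Fin N) (S : Tup N) : put a (ltr S a) S = S := by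
  refine tup_ext fun k i => ?_
  simp only [mem_put, mem_ltr]
  by_cases h1 : i = a <;> simp [h1]

theorem ltr_put_self (a : Fin N) (A : Finset (Fin 4)) (S : Tup N) : ltr (put a A S) a = A := by
  ext k; simp [mem_ltr, mem_put]

theorem ltr_put_of_ne {a b : Fin N} (hab : b ≠ a) (A : Finset (Fin 4)) (S : Tup N) :
    ltr (put a A S) b = ltr S b := by
  ext k; simp [mem_ltr, mem_put, hab]

/-! ### Raising operators, restricted to a set of sites -/

/-- The divided power of the move `j → j'`, restricted to the sites in `W`. -/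
def rest (j j' : Fin 4) (W : Finset (Fin N)) (r : ℕ) (u : Tup N → K) : Tup N → K := fun S =>
  ∑ Y ∈ ((S j \ S j') ∩ W).powersetCard r, u (mv j j' Y S)

/-- The move `j → j'` at the site `i`. -/
def hopc (j j' : Fin 4) (i : Fin N) (u : Tup N → K) : Tup N → K := fun S =>
  if i ∈ S j ∧ i ∉ S j' then u (mv j j' {i} S) else 0

theorem raise_eq_rest (j j' : Fin 4) (r : ℕ) (u : Tup N → K) :
    raise j j' r u = rest j j' univ r u := by
  funext S
  simp [raise, rest, mv]

theorem lower_eq_rest {j j' : Fin 4} (hne : j ≠ j') (r : ℕ) (u : Tup N → K) :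
    lower j j' r u = rest j' j univ r u := by
  funext S
  simp only [lower, rest, inter_univ]
  refine sum_congr rfl fun Y _ => ?_
  congr 1
  refine tup_ext fun k i => ?_
  rw [mem_mv]
  by_cases h1 : k = j
  · subst h1; simp [update_of_ne hne]
  · by_cases h2 : k = j'
    · subst h2; simp [h1]
    · simp [h1, h2, update_of_ne]

theorem sum_powersetCard_insert {i : Fin N} {D : Finset (Fin N)} (hi : i ∉ D) (r : ℕ)
    (f : Finset (Fin N) → K) : ∑ Y ∈ (insert i D).powersetCard (r + 1), f Y =
      ∑ Y ∈ D.powersetCard (r + 1), f Y + ∑ Y ∈ D.powersetCard r, f (insert i Y) := by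
  rw [Finset.powersetCard_succ_insert hi, Finset.sum_union, Finset.sum_image]
  · intro s hs t ht hst
    have h1 : i ∉ s := fun h => hi ((Finset.mem_powersetCard.1 hs).1 h)
    have h2 : i ∉ t := fun h => hi ((Finset.mem_powersetCard.1 ht).1 h)
    rw [← Finset.erase_insert h1, ← Finset.erase_insert h2]
    exact congrArg (Finset.erase · i) hst
  · rw [Finset.disjoint_left]
    intro s hs hs'
    obtain ⟨t, _, rfl⟩ := Finset.mem_image.1 hs'
    exact hi ((Finset.mem_powersetCard.1 hs).1 (Finset.mem_insert_self _ _))

theorem rest_zero (j j' : Fin 4) (W : Finset (Fin N)) (u : Tup N → K) :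
    rest j j' W 0 u = u := by
  funext S
  simp only [rest, powersetCard_zero, sum_singleton]
  congr 1
  refine tup_ext fun k i => ?_
  rw [mem_mv]
  by_cases h1 : k = j'
  · subst h1; simp
  · by_cases h2 : k = j
    · subst h2; simp [h1]
    · simp [h1, h2]

theorem rest_insert {j j' : Fin 4} (hne : j ≠ j') {W : Finset (Fin N)} {i : Fin N} (hi : i ∉ W)
    (r : ℕ) (u : Tup N → K) :
    rest j j' (insert i W) (r + 1) u = rest j j' W (r + 1) u + hopc j j' i (rest j j' W r u) := by
  funext S
  simp only [Pi.add_apply, rest, hopc]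
  by_cases h : i ∈ S j ∧ i ∉ S j'
  · have e1 : (S j \ S j') ∩ insert i W = insert i ((S j \ S j') ∩ W) := by
      ext x
      simp only [mem_inter, mem_sdiff, mem_insert]
      constructor
      · tauto
      · rintro (rfl | hx) <;> tauto
    rw [e1, sum_powersetCard_insert (by simp [hi]), if_pos h]
    congr 1
    have e2 : (mv j j' {i} S j \ mv j j' {i} S j') ∩ W = (S j \ S j') ∩ W := by
      ext x
      simp only [mem_inter, mem_sdiff, mem_mv, hne, if_true, if_false, mem_singleton]
      constructor
      · tauto
      · rintro ⟨⟨h1, h2⟩, h3⟩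
        have : x ≠ i := by rintro rfl; exact hi h3
        tauto
    rw [e2]
    refine sum_congr rfl fun Y hY => ?_
    congr 1
    refine tup_ext fun k x => ?_
    simp only [mem_mv, mem_insert, mem_singleton, hne, hne.symm, if_true, if_false]
    by_cases h1 : k = j'
    · subst h1; simp; tauto
    · by_cases h2 : k = j
      · subst h2; simp [h1]; tauto
      · simp [h1, h2]
  · have e1 : (S j \ S j') ∩ insert i W = (S j \ S j') ∩ W := by
      ext x
      simp only [mem_inter, mem_sdiff, mem_insert]
      constructor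
      · rintro ⟨h1, rfl | h2⟩
        · exact absurd h1 h
        · exact ⟨h1, h2⟩
      · tauto
    rw [e1, if_neg h, add_zero]

theorem rest_add (j j' : Fin 4) (W : Finset (Fin N)) (r : ℕ) (u v : Tup N → K) :
    rest j j' W r (u + v) = rest j j' W r u + rest j j' W r v := by
  funext S; simp [rest, sum_add_distrib]

theorem hopc_add (j j' : Fin 4) (i : Fin N) (u v : Tup N → K) :
    hopc j j' i (u + v) = hopc j j' i u + hopc j j' i v := by
  funext S
  simp only [hopc, Pi.add_apply]
  split_ifs <;> simp

/-- The decomposition of the raising operators at two sites. -/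
theorem raise_split {j j' : Fin 4} (hne : j ≠ j') {a b : Fin N} (hab : a ≠ b) (r : ℕ)
    (u : Tup N → K) :
    ∃ u1 u2 : Tup N → K, rest j j' univ r u = rest j j' (univ \ {a, b}) r u +
      (hopc j j' a u1 + hopc j j' b u1) + hopc j j' a (hopc j j' b u2) := by
  have hU : (univ : Finset (Fin N)) = insert a (insert b (univ \ {a, b})) := by
    ext x; simp; tauto
  have ha : a ∉ insert b (univ \ {a, b} : Finset (Fin N)) := by simp [hab]
  have hb : b ∉ (univ \ {a, b} : Finset (Fin N)) := by simp
  match r with
  | 0 =>
    refine ⟨0, 0, ?_⟩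
    rw [rest_zero, rest_zero]
    funext S
    simp [hopc]
  | 1 =>
    refine ⟨u, 0, ?_⟩
    conv_lhs => rw [hU]
    rw [rest_insert hne ha, rest_insert hne hb, rest_zero, rest_zero]
    funext S
    simp [hopc]
    ring
  | r + 2 =>
    refine ⟨rest j j' (univ \ {a, b}) (r + 1) u, rest j j' (univ \ {a, b}) r u, ?_⟩
    conv_lhs => rw [hU]
    rw [rest_insert hne ha, rest_insert hne hb, rest_insert hne hb, hopc_add]
    ring

end D81877C
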