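import Pool.Agent.Lib.MP_d81877_alC.Model

/-!
The operators `E a b` (moves of one box between two sites) and the contractions `cc k a b`, and
their commutation with the raising operators in characteristic two.
-/

namespace D81877C

open Finset Function Pool.Agent.D818A

set_option linter.unusedSectionVars false

variable {N : ℕ} {K : Type*} [CommRing K]

/-- In column `l`, replace the site `a` by the site `b`. -/
def tr (a b : Fin N) (l : Fin 4) (S : Tup N) : Tup N := update S l (insert b ((S l).erase a))

theorem mem_tr {a b : Fin N} {l : Fin 4} {S : Tup N} {k : Fin 4} {i : Fin N} :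
    i ∈ tr a b l S k ↔ if k = l then (i = b ∨ (i ≠ a ∧ i ∈ S l)) else i ∈ S k := by
  unfold tr
  by_cases h : k = l
  · subst h; simp
  · simp [h]

/-- The move of one box between the sites `a` and `b`. -/
def E (a b : Fin N) (u : Tup N → K) : Tup N → K := fun S =>
  ∑ l, if a ∈ S l ∧ b ∉ S l then u (tr a b l S) else 0

/-- The contraction of the sites `a` and `b` with letters of size `k` at `a`. -/
def cc (k : ℕ) (a b : Fin N) (u : Tup N → K) : Tup N → K := fun S =>
  if ltr S a = ∅ ∧ ltr S b = ∅ then
    ∑ A ∈ (univ : Finset (Fin 4)).powersetCard k, u (put a A (put b Aᶜ S)) else 0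

theorem E_add (a b : Fin N) (u v : Tup N → K) : E a b (u + v) = E a b u + E a b v := by
  funext S
  simp only [E, Pi.add_apply, ← sum_add_distrib]
  refine sum_congr rfl fun l _ => ?_
  split_ifs <;> simp

theorem cc_add (k : ℕ) (a b : Fin N) (u v : Tup N → K) :
    cc k a b (u + v) = cc k a b u + cc k a b v := by
  funext S
  simp only [cc, Pi.add_apply]
  split_ifs
  · rw [← sum_add_distrib]
  · simp

theorem mv_put_of_notMem {j j' : Fin 4} {Y : Finset (Fin N)} {a : Fin N} (ha : a ∉ Y)
    (A : Finset (Fin 4)) (S : Tup N) (hj : j ≠ j') :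
    mv j j' Y (put a A S) = put a A (mv j j' Y S) := by
  refine tup_ext fun k i => ?_
  simp only [mem_mv, mem_put]
  by_cases h1 : i = a
  · subst h1
    by_cases h2 : k = j'
    · subst h2; simp [ha]
    · by_cases h3 : k = j
      · subst h3; simp [h2, ha]
      · simp [h2, h3]
  · simp [h1]

theorem ltr_mv_of_notMem {j j' : Fin 4} {Y : Finset (Fin N)} {a : Fin N} (ha : a ∉ Y)
    (S : Tup N) : ltr (mv j j' Y S) a = ltr S a := by
  ext k
  simp only [mem_ltr, mem_mv]
  by_cases h2 : k = j'
  · subst h2; simp [ha]
  · by_cases h3 : k = j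
    · subst h3; simp [h2, ha]
    · simp [h2, h3]

/-- Contraction commutes with the raising operators off the two sites. -/
theorem cc_rest (k : ℕ) (a b : Fin N) {j j' : Fin 4} (hj : j ≠ j') (r : ℕ)
    (u : Tup N → K) :
    cc k a b (rest j j' (univ \ {a, b}) r u) = rest j j' (univ \ {a, b}) r (cc k a b u) := by
  funext S
  simp only [cc, rest]
  by_cases h : ltr S a = ∅ ∧ ltr S b = ∅
  · rw [if_pos h]
    rw [Finset.sum_congr rfl (g := fun Y => ∑ A ∈ (univ : Finset (Fin 4)).powersetCard k,
      u (put a A (put b Aᶜ (mv j j' Y S))))]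
    · rw [Finset.sum_comm]
      refine sum_congr rfl fun A _ => ?_
      have e : (put a A (put b Aᶜ S) j \ put a A (put b Aᶜ S) j') ∩ (univ \ {a, b}) =
          (S j \ S j') ∩ (univ \ {a, b}) := by
        ext i
        simp only [mem_inter, mem_sdiff, mem_put, mem_univ, mem_insert, mem_singleton, true_and,
          not_or]
        constructor
        · rintro ⟨h1, h2, h3⟩
          simp only [h2, h3, if_false] at h1
          exact ⟨h1, h2, h3⟩
        · rintro ⟨h1, h2, h3⟩
          simp only [h2, h3, if_false]
          exact ⟨h1, not_false, not_false⟩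
      rw [e]
      refine sum_congr rfl fun Y hY => ?_
      have hY' := (mem_powersetCard.1 hY).1
      have ha : a ∉ Y := fun h => by have := hY' h; simp at this
      have hb : b ∉ Y := fun h => by have := hY' h; simp at this
      rw [mv_put_of_notMem ha _ _ hj, mv_put_of_notMem hb _ _ hj]
    · intro Y hY
      have hY' := (mem_powersetCard.1 hY).1
      have ha : a ∉ Y := fun h => by have := hY' h; simp at this
      have hb : b ∉ Y := fun h => by have := hY' h; simp at this
      rw [ltr_mv_of_notMem ha, ltr_mv_of_notMem hb, if_pos h]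
  · rw [if_neg h]
    refine (sum_eq_zero fun Y hY => ?_).symm
    have hY' := (mem_powersetCard.1 hY).1
    have ha : a ∉ Y := fun h => by have := hY' h; simp at this
    have hb : b ∉ Y := fun h => by have := hY' h; simp at this
    rw [ltr_mv_of_notMem ha, ltr_mv_of_notMem hb, if_neg h]

theorem mv_put_self {j j' : Fin 4} (hj : j ≠ j') {a : Fin N} {A : Finset (Fin 4)} (h1 : j ∈ A)
    (S : Tup N) : mv j j' {a} (put a A S) = put a (insert j' (A.erase j)) S := by
  refine tup_ext fun k i => ?_
  simp only [mem_mv, mem_put, mem_singleton, mem_insert, mem_erase]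
  by_cases h : i = a
  · subst h
    by_cases h2 : k = j'
    · subst h2; simp
    · by_cases h3 : k = j
      · subst h3; simp [h2, h1]
      · simp [h2, h3]
  · by_cases h2 : k = j'
    · subst h2; simp [h]
    · by_cases h3 : k = j
      · subst h3; simp [h2, h]
      · simp [h2, h3, h]

theorem hopc_put {j j' : Fin 4} (hj : j ≠ j') (a : Fin N) (A : Finset (Fin 4)) (u : Tup N → K)
    (S : Tup N) : hopc j j' a u (put a A S) =
      if j ∈ A ∧ j' ∉ A then u (put a (insert j' (A.erase j)) S) else 0 := by
  unfold hopc
  simp only [mem_put, if_true]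
  split_ifs with h
  · rw [mv_put_self hj h.1]
  · rfl

/-- the exchange of `j` and `j'` in a letter -/
def ex (j j' : Fin 4) (A : Finset (Fin 4)) : Finset (Fin 4) := insert j' (A.erase j)

theorem hopc_put_put {j j' : Fin 4} (hj : j ≠ j') {a b : Fin N} (hab : a ≠ b)
    (A B : Finset (Fin 4)) (u : Tup N → K) (S : Tup N) :
    hopc j j' b u (put a A (put b B S)) =
      if j ∈ B ∧ j' ∉ B then u (put a A (put b (insert j' (B.erase j)) S)) else 0 := by
  rw [put_comm hab, hopc_put hj]
  split_ifs with h
  · rw [put_comm hab]
  · rfl

section char_two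

variable [CharP K 2]

/-- Contraction kills the sum of the moves at the two sites. -/
theorem cc_hopc_add (k : ℕ) {a b : Fin N} (hab : a ≠ b) {j j' : Fin 4} (hj : j ≠ j')
    (u : Tup N → K) : cc k a b (hopc j j' a u + hopc j j' b u) = 0 := by
  funext S
  simp only [cc, Pi.add_apply, Pi.zero_apply]
  split_ifs with h
  · rw [sum_add_distrib]
    simp only [hopc_put hj a, hopc_put_put hj hab]
    rw [← sum_filter, ← sum_filter]
    have key : ∑ A ∈ ((univ : Finset (Fin 4)).powersetCard k).filter (fun A => j ∈ A ∧ j' ∉ A),
          u (put a (insert j' (A.erase j)) (put b Aᶜ S)) =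
        ∑ A ∈ ((univ : Finset (Fin 4)).powersetCard k).filter (fun A => j ∈ Aᶜ ∧ j' ∉ Aᶜ),
          u (put a A (put b (insert j' (Aᶜ.erase j)) S)) := by
      refine sum_nbij' (fun A => insert j' (A.erase j)) (fun A => insert j (A.erase j')) ?_ ?_ ?_
        ?_ ?_
      · intro A hA
        simp only [mem_filter, mem_powersetCard, subset_univ, true_and,
          mem_compl, mem_insert, mem_erase, not_not] at hA ⊢
        obtain ⟨hk, h1, h2⟩ := hA
        refine ⟨?_, ?_, by simp⟩
        · rw [card_insert_of_notMem (by simp [h2]), card_erase_of_mem h1, ← hk]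
          have := card_pos.2 ⟨j, h1⟩
          omega
        · simp [hj]
      · intro A hA
        simp only [mem_filter, mem_powersetCard, subset_univ, true_and,
          mem_compl, mem_insert, mem_erase, not_not] at hA ⊢
        obtain ⟨hk, h1, h2⟩ := hA
        refine ⟨?_, by simp, ?_⟩
        · rw [card_insert_of_notMem (by simp [h1]), card_erase_of_mem h2, ← hk]
          have := card_pos.2 ⟨j', h2⟩
          omega
        · simp [hj.symm]
      · intro A hA
        simp only [mem_filter] at hA
        obtain ⟨_, h1, h2⟩ := hA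
        ext x
        simp only [mem_insert, mem_erase]
        by_cases hx : x = j
        · subst hx; simp [h1]
        · by_cases hx' : x = j'
          · subst hx'; simp [h2, hj.symm]
          · simp [hx, hx']
      · intro A hA
        simp only [mem_filter, mem_compl, not_not] at hA
        obtain ⟨_, h1, h2⟩ := hA
        ext x
        simp only [mem_insert, mem_erase]
        by_cases hx : x = j
        · subst hx; simp [h1, hj]
        · by_cases hx' : x = j'
          · subst hx'; simp [h2]
          · simp [hx, hx']
      · intro A hA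
        simp only [mem_filter] at hA
        obtain ⟨_, h1, h2⟩ := hA
        congr 3
        ext x
        simp only [mem_insert, mem_erase, mem_compl]
        by_cases hx : x = j
        · subst hx; simp [h1, hj]
        · by_cases hx' : x = j'
          · subst hx'; simp [h2]
          · simp [hx, hx']
    rw [key]
    exact CharTwo.add_self_eq_zero _
  · rfl

theorem cc_hopc_hopc (k : ℕ) {a b : Fin N} (hab : a ≠ b) {j j' : Fin 4} (hj : j ≠ j')
    (u : Tup N → K) : cc k a b (hopc j j' a (hopc j j' b u)) = 0 := by
  funext S
  simp only [cc, Pi.zero_apply]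
  split_ifs with h
  · refine sum_eq_zero fun A _ => ?_
    rw [hopc_put hj, hopc_put_put hj hab]
    by_cases h1 : j ∈ A <;> simp [h1]
  · rfl

/-- **Contraction commutes with the raising operators.** -/
theorem cc_raise (k : ℕ) {a b : Fin N} (hab : a ≠ b) {j j' : Fin 4} (hj : j ≠ j') (r : ℕ)
    (u : Tup N → K) :
    cc k a b (rest j j' univ r u) = rest j j' univ r (cc k a b u) := by
  obtain ⟨u1, u2, h⟩ := raise_split hj hab r u
  rw [h, cc_add, cc_add, cc_hopc_add k hab hj, cc_hopc_hopc k hab hj, cc_rest k a b hj, add_zero,
    add_zero]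
  funext S
  simp only [rest]
  by_cases hS : ltr S a = ∅ ∧ ltr S b = ∅
  · have e : (S j \ S j') ∩ (univ \ {a, b}) = (S j \ S j') ∩ univ := by
      ext i
      simp only [mem_inter, mem_sdiff, mem_univ, mem_insert, mem_singleton, true_and, and_true,
        not_or, and_iff_left_iff_imp]
      rintro ⟨h1, _⟩
      constructor
      · rintro rfl
        have : j ∈ ltr S i := mem_ltr.2 h1
        rw [hS.1] at this
        simp at this
      · rintro rfl
        have : j ∈ ltr S i := mem_ltr.2 h1
        rw [hS.2] at this
        simp at this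
    rw [e]
  · have hz : ∀ Y, Y ⊆ S j \ S j' → cc k a b u (mv j j' Y S) = 0 := by
      intro Y hY
      unfold cc
      rw [if_neg]
      rintro ⟨h1, h2⟩
      apply hS
      constructor
      · rw [eq_empty_iff_forall_notMem] at h1 ⊢
        intro x hx
        rw [mem_ltr] at hx
        have h3 := h1 x
        have h4 := h1 j'
        have h5 := h1 j
        simp only [mem_ltr, mem_mv, hj, if_true, if_false, not_or, not_and, not_not] at h3 h4 h5
        by_cases e1 : x = j'
        · subst e1; exact h4.1 hx
        · by_cases e2 : x = j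
          · subst e2; exact h4.2 (h5 hx)
          · simp only [e1, e2, if_false] at h3; exact h3 hx
      · rw [eq_empty_iff_forall_notMem] at h2 ⊢
        intro x hx
        rw [mem_ltr] at hx
        have h3 := h2 x
        have h4 := h2 j'
        have h5 := h2 j
        simp only [mem_ltr, mem_mv, hj, if_true, if_false, not_or, not_and, not_not] at h3 h4 h5
        by_cases e1 : x = j'
        · subst e1; exact h4.1 hx
        · by_cases e2 : x = j
          · subst e2; exact h4.2 (h5 hx)
          · simp only [e1, e2, if_false] at h3; exact h3 hx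
    rw [sum_eq_zero fun Y hY => hz Y ((mem_powersetCard.1 hY).1.trans inter_subset_left),
      sum_eq_zero fun Y hY => hz Y ((mem_powersetCard.1 hY).1.trans inter_subset_left)]

end char_two

/-! ### The operators `E a b` and the raising operators -/

/-- `E a b` commutes with the raising operators off the two sites. -/
theorem E_rest {a b : Fin N} {j j' : Fin 4} (hj : j ≠ j') (r : ℕ) (u : Tup N → K) :
    E a b (rest j j' (univ \ {a, b}) r u) = rest j j' (univ \ {a, b}) r (E a b u) := by
  funext S
  simp only [E, rest]
  rw [Finset.sum_congr rfl (g := fun Y => ∑ l, if a ∈ S l ∧ b ∉ S l then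
    u (tr a b l (mv j j' Y S)) else 0) (s₁ := ((S j \ S j') ∩ (univ \ {a, b})).powersetCard r)]
  · rw [Finset.sum_comm]
    refine sum_congr rfl fun l _ => ?_
    by_cases h : a ∈ S l ∧ b ∉ S l
    · simp only [if_pos h]
      have e : (tr a b l S j \ tr a b l S j') ∩ (univ \ {a, b}) =
          (S j \ S j') ∩ (univ \ {a, b}) := by
        ext i
        simp only [mem_inter, mem_sdiff, mem_tr, mem_univ, mem_insert, mem_singleton, true_and,
          not_or]
        constructor
        · rintro ⟨h1, h2, h3⟩
          simp only [h2, h3, false_or, ne_eq, not_false_eq_true, true_and, and_true] at h1 ⊢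
          by_cases e1 : j = l
          · subst e1; simpa [hj.symm] using h1
          · by_cases e2 : j' = l
            · subst e2; simpa [hj] using h1
            · simpa [e1, e2] using h1
        · rintro ⟨h1, h2, h3⟩
          simp only [h2, h3, false_or, ne_eq, not_false_eq_true, true_and, and_true]
          by_cases e1 : j = l
          · subst e1; simpa [hj.symm] using h1
          · by_cases e2 : j' = l
            · subst e2; simpa [hj] using h1
            · simpa [e1, e2] using h1
      rw [e]
      refine sum_congr rfl fun Y hY => ?_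
      have hY' := (mem_powersetCard.1 hY).1
      have ha : a ∉ Y := fun h => by have := hY' h; simp at this
      have hb : b ∉ Y := fun h => by have := hY' h; simp at this
      congr 1
      refine tup_ext fun k i => ?_
      simp only [mem_mv, mem_tr]
      by_cases e1 : k = j'
      · subst e1
        by_cases e2 : k = l
        · subst e2
          simp only [if_true]
          by_cases hia : i = a
          · subst hia; simp [ha]
          · simp [hia]; tauto
        · simp [e2]
      · by_cases e3 : k = j
        · subst e3
          by_cases e2 : k = l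
          · subst e2
            simp only [if_true, e1, if_false]
            by_cases hib : i = b
            · subst hib; simp [hb]
            · simp [hib]; tauto
          · simp [e1, e2]
        · by_cases e2 : k = l
          · subst e2; simp [e1, e3]
          · simp [e1, e3, e2]
    · simp only [if_neg h, sum_const_zero]
  · intro Y hY
    have hY' := (mem_powersetCard.1 hY).1
    have ha : a ∉ Y := fun h => by have := hY' h; simp at this
    have hb : b ∉ Y := fun h => by have := hY' h; simp at this
    refine sum_congr rfl fun l _ => ?_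
    have h1 : a ∈ mv j j' Y S l ↔ a ∈ S l := by
      rw [← mem_ltr, ← mem_ltr, ltr_mv_of_notMem ha]
    have h2 : b ∈ mv j j' Y S l ↔ b ∈ S l := by
      rw [← mem_ltr, ← mem_ltr, ltr_mv_of_notMem hb]
    simp only [h1, h2]

theorem tr_put_put {a b : Fin N} (hab : a ≠ b) {A B : Finset (Fin 4)} {l : Fin 4}
    (h2 : l ∉ B) (S : Tup N) :
    tr a b l (put a A (put b B S)) = put a (A.erase l) (put b (insert l B) S) := by
  refine tup_ext fun k i => ?_
  simp only [mem_tr, mem_put, mem_insert, mem_erase]
  by_cases hk : k = l
  · subst hk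
    by_cases hia : i = a
    · subst hia; simp [hab]
    · by_cases hib : i = b
      · subst hib; simp [hia]
      · simp [hia, hib]
  · by_cases hia : i = a
    · subst hia; simp [hk]
    · by_cases hib : i = b
      · subst hib; simp [hia, hk]
      · simp [hia, hib, hk]

theorem E_put_put {a b : Fin N} (hab : a ≠ b) (A B : Finset (Fin 4)) (u : Tup N → K)
    (S : Tup N) : E a b u (put a A (put b B S)) =
      ∑ l, if l ∈ A ∧ l ∉ B then u (put a (A.erase l) (put b (insert l B) S)) else 0 := by
  unfold E
  refine sum_congr rfl fun l _ => ?_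
  have h1 : a ∈ put a A (put b B S) l ↔ l ∈ A := by simp [mem_put]
  have h2 : b ∈ put a A (put b B S) l ↔ l ∈ B := by simp [mem_put, hab.symm]
  simp only [h1, h2]
  split_ifs with h
  · rw [tr_put_put hab h.2]
  · rfl

theorem put_ltr_ltr (a b : Fin N) (S : Tup N) : put a (ltr S a) (put b (ltr S b) S) = S := by
  rw [put_ltr, put_ltr]

theorem E_hopc_hopc {a b : Fin N} (hab : a ≠ b) {j j' : Fin 4} (hj : j ≠ j') (u : Tup N → K) :
    E a b (hopc j j' a (hopc j j' b u)) = hopc j j' a (hopc j j' b (E a b u)) := by
  funext S
  rw [← put_ltr_ltr a b S]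
  generalize ltr S a = A
  generalize ltr S b = B
  rw [E_put_put hab, hopc_put hj, hopc_put_put hj hab, E_put_put hab]
  simp only [hopc_put hj a, hopc_put_put hj hab]
  by_cases hc : (j ∈ A ∧ j' ∉ A) ∧ (j ∈ B ∧ j' ∉ B)
  · rw [if_pos hc.1, if_pos hc.2]
    refine sum_congr rfl fun l _ => ?_
    by_cases e1 : l = j
    · subst e1; simp [hc.2.1]
    · by_cases e2 : l = j'
      · subst e2; simp [hc.1.2, hc.2.2, hj]
      · have a1 : j ∈ A.erase l ∧ j' ∉ A.erase l := by
          simp only [mem_erase]; exact ⟨⟨Ne.symm e1, hc.1.1⟩, fun h => hc.1.2 h.2⟩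
        have a2 : j ∈ insert l B ∧ j' ∉ insert l B := by
          simp only [mem_insert, not_or]; exact ⟨Or.inr hc.2.1, Ne.symm e2, hc.2.2⟩
        rw [if_pos a1, if_pos a2]
        have e3 : (l ∈ insert j' (A.erase j) ∧ l ∉ insert j' (B.erase j)) ↔ (l ∈ A ∧ l ∉ B) := by
          simp [e1, e2]
        simp only [e3]
        have e4 : insert j' ((A.erase l).erase j) = (insert j' (A.erase j)).erase l := by
          ext x; simp only [mem_insert, mem_erase]
          by_cases h1 : x = j' <;> by_cases h2 : x = l <;> simp_all
        have e5 : insert j' ((insert l B).erase j) = insert l (insert j' (B.erase j)) := by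
          ext x; simp only [mem_insert, mem_erase]
          by_cases h1 : x = j' <;> by_cases h2 : x = l <;> simp_all
        rw [e4, e5]
  · have : (if j ∈ A ∧ j' ∉ A then
        if j ∈ B ∧ j' ∉ B then
          ∑ l, if l ∈ insert j' (A.erase j) ∧ l ∉ insert j' (B.erase j) then
            u (put a ((insert j' (A.erase j)).erase l) (put b (insert l (insert j' (B.erase j))) S))
            else 0
        else 0 else 0) = 0 := by
      split_ifs with h1 h2
      · exact absurd ⟨h1, h2⟩ hc
      · rfl
      · rfl
    rw [this]
    refine sum_eq_zero fun l _ => ?_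
    by_cases e1 : l = j
    · subst e1; simp
    · by_cases e2 : l = j'
      · subst e2; simp
      · have a1 : (j ∈ A.erase l ∧ j' ∉ A.erase l) ↔ (j ∈ A ∧ j' ∉ A) := by
          simp only [mem_erase]
          constructor
          · rintro ⟨h1, h2⟩; exact ⟨h1.2, fun h => h2 ⟨Ne.symm e2, h⟩⟩
          · rintro ⟨h1, h2⟩; exact ⟨⟨Ne.symm e1, h1⟩, fun h => h2 h.2⟩
        have a2 : (j ∈ insert l B ∧ j' ∉ insert l B) ↔ (j ∈ B ∧ j' ∉ B) := by
          simp only [mem_insert, not_or, Ne.symm e1, Ne.symm e2]; simp
        simp only [a1, a2]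
        split_ifs with h1 h2 h3
        · exact absurd ⟨h2, h3⟩ hc
        · rfl
        · rfl
        · rfl

section char_two

variable [CharP K 2]

theorem E_hopc_add {a b : Fin N} (hab : a ≠ b) {j j' : Fin 4} (hj : j ≠ j') (u : Tup N → K) :
    E a b (hopc j j' a u + hopc j j' b u) =
      hopc j j' a (E a b u) + hopc j j' b (E a b u) := by
  funext S
  rw [← put_ltr_ltr a b S]
  generalize ltr S a = A
  generalize ltr S b = B
  rw [E_put_put hab, Pi.add_apply, hopc_put hj, hopc_put_put hj hab, E_put_put hab, E_put_put hab]
  simp only [Pi.add_apply, hopc_put hj a, hopc_put_put hj hab]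
  rw [← sub_eq_zero]
  have e0 : ∀ (P : Prop) [Decidable P] (f : Fin 4 → K), (if P then ∑ l, f l else 0) =
      ∑ l, if P then f l else 0 := by
    intro P _ f; split_ifs <;> simp
  rw [e0, e0, ← sum_add_distrib, ← sum_sub_distrib, Fintype.sum_eq_add j j' hj]
  · by_cases p : j ∈ A <;> by_cases q : j' ∈ A <;> by_cases r : j ∈ B <;> by_cases s : j' ∈ B <;>
      simp [p, q, r, s, hj, hj.symm]
    · have f1 : insert j (insert j' (B.erase j)) = insert j' B := by
        ext x; simp only [mem_insert, mem_erase]
        by_cases h1 : x = j <;> by_cases h2 : x = j' <;> simp_all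
      have f2 : insert j' ((A.erase j').erase j) = A.erase j := by
        ext x; simp only [mem_insert, mem_erase]
        by_cases h1 : x = j <;> by_cases h2 : x = j' <;> simp_all
      rw [f1, f2, neg_add_cancel]
    · have f2 : insert j' ((A.erase j').erase j) = A.erase j := by
        ext x; simp only [mem_insert, mem_erase]
        by_cases h1 : x = j <;> by_cases h2 : x = j' <;> simp_all
      rw [f2]
      exact CharTwo.add_self_eq_zero _
    · have f1 : insert j (insert j' (B.erase j)) = insert j' B := by
        ext x; simp only [mem_insert, mem_erase]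
        by_cases h1 : x = j <;> by_cases h2 : x = j' <;> simp_all
      rw [f1]
      exact CharTwo.add_self_eq_zero _
  · rintro l ⟨e1, e2⟩
    have a1 : (j ∈ A.erase l ∧ j' ∉ A.erase l) ↔ (j ∈ A ∧ j' ∉ A) := by
      simp only [mem_erase]
      constructor
      · rintro ⟨h1, h2⟩; exact ⟨h1.2, fun h => h2 ⟨Ne.symm e2, h⟩⟩
      · rintro ⟨h1, h2⟩; exact ⟨⟨Ne.symm e1, h1⟩, fun h => h2 h.2⟩
    have a2 : (j ∈ insert l B ∧ j' ∉ insert l B) ↔ (j ∈ B ∧ j' ∉ B) := by
      simp only [mem_insert, not_or, Ne.symm e1, Ne.symm e2]; simp
    have a3 : (l ∈ insert j' (A.erase j) ∧ l ∉ B) ↔ (l ∈ A ∧ l ∉ B) := by simp [e1, e2]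
    have a4 : (l ∈ A ∧ l ∉ insert j' (B.erase j)) ↔ (l ∈ A ∧ l ∉ B) := by simp [e1, e2]
    have e4 : insert j' ((A.erase l).erase j) = (insert j' (A.erase j)).erase l := by
      ext x; simp only [mem_insert, mem_erase]
      by_cases h1 : x = j' <;> by_cases h2 : x = l <;> simp_all
    have e5 : insert j' ((insert l B).erase j) = insert l (insert j' (B.erase j)) := by
      ext x; simp only [mem_insert, mem_erase]
      by_cases h1 : x = j' <;> by_cases h2 : x = l <;> simp_all
    simp only [a1, a2, a3, a4, e4, e5]
    by_cases h1 : l ∈ A ∧ l ∉ B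
    · simp only [if_pos h1, sub_self]
    · simp only [if_neg h1, ite_self, add_zero, sub_self]

/-- **`E a b` commutes with the raising operators.** -/
theorem E_raise {a b : Fin N} (hab : a ≠ b) {j j' : Fin 4} (hj : j ≠ j') (r : ℕ)
    (u : Tup N → K) :
    E a b (rest j j' univ r u) = rest j j' univ r (E a b u) := by
  have hU : (univ : Finset (Fin N)) = insert a (insert b (univ \ {a, b})) := by
    ext x; simp; tauto
  have ha : a ∉ insert b (univ \ {a, b} : Finset (Fin N)) := by simp [hab]
  have hb : b ∉ (univ \ {a, b} : Finset (Fin N)) := by simp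
  have hsplit : ∀ (r : ℕ) (u : Tup N → K), rest j j' univ (r + 2) u =
      rest j j' (univ \ {a, b}) (r + 2) u +
      (hopc j j' a (rest j j' (univ \ {a, b}) (r + 1) u) +
        hopc j j' b (rest j j' (univ \ {a, b}) (r + 1) u)) +
        hopc j j' a (hopc j j' b (rest j j' (univ \ {a, b}) r u)) := by
    intro r u
    conv_lhs => rw [hU]
    rw [rest_insert hj ha, rest_insert hj hb, rest_insert hj hb, hopc_add]
    ring
  have hsplit1 : ∀ (u : Tup N → K), rest j j' univ 1 u =
      rest j j' (univ \ {a, b}) 1 u + (hopc j j' a u + hopc j j' b u) := by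
    intro u
    conv_lhs => rw [hU]
    rw [rest_insert hj ha, rest_insert hj hb, rest_zero, rest_zero]
    ring
  match r with
  | 0 => rw [rest_zero, rest_zero]
  | 1 => rw [hsplit1, hsplit1, E_add, E_rest hj, E_hopc_add hab hj]
  | r + 2 =>
    rw [hsplit, hsplit, E_add, E_add, E_rest hj, E_hopc_add hab hj, E_hopc_hopc hab hj,
      E_rest hj, E_rest hj]

end char_two

end D81877C
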