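import Pool.Agent.Lib.MP_d81877_alC.Symbol

/-!
The primitive functions on the `j`-subsets of a finite set are spanned, in characteristic two, by the
indicators of the transversals of the `j`-matchings (S8); the functional `Gamma`.
-/

namespace D81877C

set_option linter.unusedSectionVars false

variable {α : Type*} [DecidableEq α] {K : Type*} [CommRing K]

theorem tsum_insert_eq {q : Finset α → K} {x : α} (hq : ∀ T, q (insert x T) = q T)
    (l : List (α × α)) : ∀ S, tsum q l (insert x S) = tsum q l S := by
  induction l with
  | nil => intro S; exact hq S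
  | cons p l ih =>
    intro S
    simp only [tsum_cons]
    rw [Finset.insert_comm p.1 x, Finset.insert_comm p.2 x, ih, ih]

theorem tsum_shift (q : Finset α → K) (x : α) (l : List (α × α)) :
    ∀ S, tsum q l (insert x S) = tsum (fun T => q (insert x T)) l S := by
  induction l with
  | nil => intro S; rfl
  | cons p l ih =>
    intro S
    simp only [tsum_cons]
    rw [Finset.insert_comm p.1 x, Finset.insert_comm p.2 x, ih, ih]

/-- A set with fewer elements than there are pairs misses a pair. -/
theorem exists_pair_disjoint {l : List (α × α)} (hl : (letters l).Nodup) :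
    ∀ J : Finset α, J.card < l.length → ∃ p ∈ l, p.1 ∉ J ∧ p.2 ∉ J := by
  induction l with
  | nil => intro J hJ; simp at hJ
  | cons p l ih =>
    intro J hJ
    simp only [letters_cons, List.nodup_cons, List.mem_cons, not_or] at hl
    by_cases hp : p.1 ∉ J ∧ p.2 ∉ J
    · exact ⟨p, by simp, hp⟩
    have hx : ∃ x ∈ J, x ∉ letters l := by
      by_cases h1 : p.1 ∈ J
      · exact ⟨p.1, h1, hl.1.2⟩
      · exact ⟨p.2, by tauto, hl.2.1⟩
    obtain ⟨x, hxJ, hxl⟩ := hx
    have hcard : (J.erase x).card < l.length := by
      rw [Finset.card_erase_of_mem hxJ]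
      have : 0 < J.card := Finset.card_pos.2 ⟨x, hxJ⟩
      simp at hJ; omega
    obtain ⟨p', hp', h1, h2⟩ := ih hl.2.2 _ hcard
    have m1 : p'.1 ∈ letters l := by
      simp only [letters, List.mem_flatMap]; exact ⟨p', hp', by simp⟩
    have m2 : p'.2 ∈ letters l := by
      simp only [letters, List.mem_flatMap]; exact ⟨p', hp', by simp⟩
    refine ⟨p', by simp [hp'], fun h => h1 (Finset.mem_erase.2 ⟨?_, h⟩),
      fun h => h2 (Finset.mem_erase.2 ⟨?_, h⟩)⟩
    · rintro rfl; exact hxl m1
    · rintro rfl; exact hxl m2

/-- The expansion of `tsum` in the coordinates. -/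
theorem tsum_expand {V : Finset α} (q : Finset α → K) {l : List (α × α)} :
    ∀ S : Finset α, Good V l → S ⊆ V → (∀ x ∈ letters l, x ∉ S) →
      tsum q l S = ∑ I ∈ V.powersetCard (l.length + S.card),
        tsum (fun T => if T = I then (1 : K) else 0) l S * q I := by
  induction l with
  | nil =>
    intro S _ hS _
    simp only [tsum_nil, List.length_nil, zero_add, ite_mul, one_mul, zero_mul]
    rw [Finset.sum_ite_eq, if_pos (Finset.mem_powersetCard.2 ⟨hS, rfl⟩)]
  | cons p l ih =>
    intro S hl hS hd
    obtain ⟨a, b⟩ := p
    obtain ⟨ha, hb, hab, hal, hbl, hll⟩ := good_cons.1 hl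
    have haS : a ∉ S := hd a (by simp)
    have hbS : b ∉ S := hd b (by simp)
    have h1 := ih (insert a S) hll (Finset.insert_subset ha hS) (fun x hx h => by
      rcases Finset.mem_insert.1 h with rfl | h
      · exact hal hx
      · exact hd x (by simp [hx]) h)
    have h2 := ih (insert b S) hll (Finset.insert_subset hb hS) (fun x hx h => by
      rcases Finset.mem_insert.1 h with rfl | h
      · exact hbl hx
      · exact hd x (by simp [hx]) h)
    rw [Finset.card_insert_of_notMem haS] at h1
    rw [Finset.card_insert_of_notMem hbS] at h2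
    have e : ((a, b) :: l).length + S.card = l.length + (S.card + 1) := by simp; omega
    rw [e]
    simp only [tsum_cons]
    rw [h1, h2, ← Finset.sum_add_distrib]
    refine Finset.sum_congr rfl fun I _ => by ring

/-- Primitive functions on the `j`-subsets of `V`. -/
def Prim (V : Finset α) (j : ℕ) (w : Finset α → K) : Prop :=
  ∀ J, J ⊆ V → J.card < j → ∑ I ∈ V.powersetCard j, w I * (if J ⊆ I then 1 else 0) = 0

/-- `w` is a combination of transversal indicators. -/
def Spanned (V : Finset α) (j : ℕ) (w : Finset α → K) : Prop :=
  ∃ c : List (α × α) →₀ K, (∀ l ∈ c.support, Good V l ∧ l.length = j) ∧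
    ∀ q : Finset α → K, (c.sum fun l x => x * tsum q l ∅) = ∑ I ∈ V.powersetCard j, w I * q I

section char_two

variable [CharP K 2]

theorem tsum_prim {l : List (α × α)} (hl : (letters l).Nodup) {J : Finset α}
    (hJ : J.card < l.length) (S : Finset α) :
    tsum (fun T => if J ⊆ T then (1 : K) else 0) l S = 0 := by
  obtain ⟨p, hp, h1, h2⟩ := exists_pair_disjoint hl J hJ
  rw [tsum_perm _ (List.perm_cons_erase hp), tsum_cons, tsum_insert_eq, tsum_insert_eq]
  · exact add_self0 _
  · intro T
    simp only [Finset.subset_insert_iff_of_notMem h2]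
  · intro T
    simp only [Finset.subset_insert_iff_of_notMem h1]

theorem sum_powerset_subset (C I : Finset α) :
    ∑ J ∈ C.powerset, (if J ⊆ I then (1 : K) else 0) = if Disjoint C I then 1 else 0 := by
  rw [← Finset.sum_filter, Finset.sum_const, nsmul_one]
  have : C.powerset.filter (· ⊆ I) = (C ∩ I).powerset := by
    ext J
    simp only [Finset.mem_filter, Finset.mem_powerset, Finset.subset_inter_iff]
  rw [this, Finset.card_powerset]
  split_ifs with h
  · rw [Finset.disjoint_iff_inter_eq_empty.1 h]; simp
  · have : (C ∩ I).card ≠ 0 := by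
      rw [Ne, Finset.card_eq_zero]
      exact fun h' => h (Finset.disjoint_iff_inter_eq_empty.2 h')
    rw [Nat.cast_pow]
    have h2 : ((2 : ℕ) : K) = 0 := CharP.cast_eq_zero K 2
    rw [h2, zero_pow this]

theorem Prim.eq_zero {V : Finset α} {j : ℕ} {w : Finset α → K} (hw : Prim V j w)
    (hc : V.card < 2 * j) {C : Finset α} (hC : C ∈ V.powersetCard j) : w C = 0 := by
  obtain ⟨hCV, hCj⟩ := Finset.mem_powersetCard.1 hC
  have h0 : ∑ I ∈ V.powersetCard j, w I * (if Disjoint C I then (1 : K) else 0) = 0 := by
    refine Finset.sum_eq_zero fun I hI => ?_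
    obtain ⟨hIV, hIj⟩ := Finset.mem_powersetCard.1 hI
    rw [if_neg, mul_zero]
    intro hd
    have := Finset.card_le_card (Finset.union_subset hCV hIV)
    rw [Finset.card_union_of_disjoint hd] at this
    omega
  simp only [← sum_powerset_subset (K := K) C, Finset.mul_sum] at h0
  rw [Finset.sum_comm, Finset.sum_eq_single C] at h0
  · rw [Finset.sum_eq_single C] at h0
    · simpa using h0
    · intro I hI hne
      obtain ⟨hIV, hIj⟩ := Finset.mem_powersetCard.1 hI
      rw [if_neg, mul_zero]
      intro hCI
      exact hne (Finset.eq_of_subset_of_card_le hCI (by omega)).symm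
    · intro h; exact absurd hC h
  · intro J hJ hne
    have hJC := Finset.mem_powerset.1 hJ
    refine hw J (hJC.trans hCV) ?_
    have := Finset.card_lt_card (Finset.ssubset_iff_subset_ne.2 ⟨hJC, hne⟩)
    omega
  · intro h; exact absurd (Finset.mem_powerset_self C) h

theorem Prim.spanned_of_lt {V : Finset α} {j : ℕ} {w : Finset α → K} (hw : Prim V j w)
    (hc : V.card < 2 * j) : Spanned V j w := by
  refine ⟨0, by simp, fun q => ?_⟩
  rw [Finsupp.sum_zero_index]
  exact (Finset.sum_eq_zero fun I hI => by rw [hw.eq_zero hc hI, zero_mul]).symm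

/-- **Primitive functions are spanned by the transversal indicators.** -/
theorem Prim.spanned (V : Finset α) :
    ∀ (j : ℕ) (w : Finset α → K), Prim V j w → Spanned V j w := by
  induction V using Finset.induction_on with
  | empty =>
    intro j w hw
    cases j with
    | zero =>
      refine ⟨Finsupp.single [] (w ∅), ?_, fun q => ?_⟩
      · intro l hl
        have := Finsupp.support_single_subset hl
        simp only [Finset.mem_singleton] at this
        subst this
        exact ⟨good_nil _, rfl⟩
      · rw [Finsupp.sum_single_index (by simp)]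
        simp
    | succ j => exact hw.spanned_of_lt (by simp)
  | insert v V' hv ih =>
    intro j w hw
    cases j with
    | zero =>
      refine ⟨Finsupp.single [] (w ∅), ?_, fun q => ?_⟩
      · intro l hl
        have := Finsupp.support_single_subset hl
        simp only [Finset.mem_singleton] at this
        subst this
        exact ⟨good_nil _, rfl⟩
      · rw [Finsupp.sum_single_index (by simp)]
        simp
    | succ j =>
      by_cases hc : (insert v V').card < 2 * (j + 1)
      · exact hw.spanned_of_lt hc
      rw [Finset.card_insert_of_notMem hv] at hc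
      have hsplit : ∀ f : Finset α → K, ∑ I ∈ (insert v V').powersetCard (j + 1), f I =
          ∑ I ∈ V'.powersetCard (j + 1), f I + ∑ T ∈ V'.powersetCard j, f (insert v T) := by
        intro f
        rw [Finset.powersetCard_succ_insert hv, Finset.sum_union, Finset.sum_image]
        · intro s hs t ht hst
          have hs' := (Finset.mem_powersetCard.1 hs).1
          have ht' := (Finset.mem_powersetCard.1 ht).1
          have h1 : v ∉ s := fun h => hv (hs' h)
          have h2 : v ∉ t := fun h => hv (ht' h)
          rw [← Finset.erase_insert h1, ← Finset.erase_insert h2]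
          exact congrArg (Finset.erase · v) hst
        · rw [Finset.disjoint_left]
          intro s hs hs'
          obtain ⟨t, _, rfl⟩ := Finset.mem_image.1 hs'
          exact hv ((Finset.mem_powersetCard.1 hs).1 (Finset.mem_insert_self _ _))
      -- the peeled function
      have hwv : Prim V' j (fun T => w (insert v T)) := by
        intro J hJ hJc
        have h := hw (insert v J) (Finset.insert_subset_insert _ hJ) (by
          rw [Finset.card_insert_of_notMem fun h => hv (hJ h)]; omega)
        rw [hsplit] at h
        rw [Finset.sum_eq_zero (s := V'.powersetCard (j + 1)), zero_add] at h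
        · refine Eq.trans (Finset.sum_congr rfl fun T hT => ?_) h
          have hvJ : v ∉ J := fun h => hv (hJ h)
          have : insert v J ⊆ insert v T ↔ J ⊆ T := by
            constructor
            · intro h x hx
              rcases Finset.mem_insert.1 (h (Finset.mem_insert_of_mem hx)) with rfl | h'
              · exact absurd hx hvJ
              · exact h'
            · exact Finset.insert_subset_insert _
          simp only [this]
        · intro I hI
          rw [if_neg, mul_zero]
          intro h
          exact hv ((Finset.mem_powersetCard.1 hI).1 (h (Finset.mem_insert_self _ _)))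
      obtain ⟨c, hc1, hc2⟩ := ih j _ hwv
      -- a free vertex for every list in the support
      have hfree : ∀ l : List (α × α), ∃ i, l ∈ c.support → i ∈ V' ∧ i ∉ letters l := by
        intro l
        by_cases hl : l ∈ c.support
        · obtain ⟨i, hi⟩ := (hc1 l hl).1.exists_free (by have := (hc1 l hl).2; omega)
          exact ⟨i, fun _ => hi⟩
        · exact ⟨v, fun h => absurd h hl⟩
      choose i hi using hfree
      set c1 : List (α × α) →₀ K := c.sum fun l x => Finsupp.single ((v, i l) :: l) x with hc1def
      have hc1sum : ∀ q : Finset α → K, (c1.sum fun l x => x * tsum q l ∅) =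
          ∑ T ∈ V'.powersetCard j, w (insert v T) * q (insert v T) +
            c.sum fun l x => x * tsum q l {i l} := by
        intro q
        rw [hc1def, Finsupp.sum_sum_index (by simp) (by intros; ring),
          ← hc2 fun T => q (insert v T), Finsupp.sum, Finsupp.sum, Finsupp.sum,
          ← Finset.sum_add_distrib]
        refine Finset.sum_congr rfl fun l _ => ?_
        rw [Finsupp.sum_single_index (by simp), tsum_cons]
        simp only
        rw [tsum_shift q v l ∅, insert_empty_eq]
        ring
      set u : Finset α → K := fun I =>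
        c.sum fun l x => x * tsum (fun T => if T = I then (1 : K) else 0) l {i l} with hu
      have husum : ∀ q : Finset α → K, (c.sum fun l x => x * tsum q l {i l}) =
          ∑ I ∈ V'.powersetCard (j + 1), u I * q I := by
        intro q
        simp only [hu, Finsupp.sum, Finset.sum_mul]
        rw [Finset.sum_comm]
        refine Finset.sum_congr rfl fun l hl => ?_
        obtain ⟨hgl, hlj⟩ := hc1 l hl
        obtain ⟨hiV, hil⟩ := hi l hl
        rw [tsum_expand q {i l} hgl (Finset.singleton_subset_iff.2 hiV)
          (fun x hx h => hil (Finset.mem_singleton.1 h ▸ hx)), Finset.mul_sum, hlj,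
          Finset.card_singleton]
        refine Finset.sum_congr rfl fun I _ => by ring
      have hgood : ∀ l ∈ c.support, Good (insert v V') ((v, i l) :: l) := by
        intro l hl
        obtain ⟨hgl, hlj⟩ := hc1 l hl
        obtain ⟨hiV, hil⟩ := hi l hl
        exact good_cons.2 ⟨Finset.mem_insert_self _ _, Finset.mem_insert_of_mem hiV,
          fun h => hv (h ▸ hiV), fun h => hv (hgl.2 v h), hil, hgl.mono (Finset.subset_insert _ _)⟩
      have hw' : Prim V' (j + 1) (fun I => w I + u I) := by
        intro J hJ hJc
        simp only [add_mul, Finset.sum_add_distrib]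
        rw [← husum]
        have h1 := hw J (hJ.trans (Finset.subset_insert _ _)) hJc
        rw [hsplit] at h1
        have hvJ : v ∉ J := fun h => hv (hJ h)
        simp only [Finset.subset_insert_iff_of_notMem hvJ] at h1
        rw [← hc2] at h1
        refine Eq.trans ?_ h1
        congr 1
        simp only [Finsupp.sum]
        refine Finset.sum_congr rfl fun l hl => ?_
        have h2 := tsum_prim (K := K) (hgood l hl).1 (J := J) (by
          simp only [List.length_cons]; rw [(hc1 l hl).2]; exact hJc) ∅
        rw [tsum_cons, tsum_insert_eq] at h2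
        · simp only [insert_empty_eq] at h2
          rw [eq_of_add0 h2]
        · intro T
          simp only [Finset.subset_insert_iff_of_notMem hvJ]
      obtain ⟨c', hc1', hc2'⟩ := ih (j + 1) _ hw'
      refine ⟨c1 + c', ?_, fun q => ?_⟩
      · intro l hl
        rcases Finset.mem_union.1 (Finsupp.support_add hl) with h | h
        · obtain ⟨m, hm, hlm⟩ := Finset.mem_biUnion.1 (Finsupp.support_sum h)
          have := Finsupp.support_single_subset hlm
          simp only [Finset.mem_singleton] at this
          subst this
          exact ⟨hgood m hm, by simp [(hc1 m hm).2]⟩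
        · exact ⟨(hc1' l h).1.mono (Finset.subset_insert _ _), (hc1' l h).2⟩
      · rw [Finsupp.sum_add_index' (by simp) (by intros; ring), hc1sum, husum, hc2', hsplit]
        simp only [add_mul, Finset.sum_add_distrib]
        have e1 := add_self0 (∑ I ∈ V'.powersetCard (j + 1), u I * q I)
        linear_combination e1

/-- The number of `j`-subsets of `V` containing `J`. -/
theorem card_filter_subset {V J : Finset α} {j : ℕ} (hJ : J ⊆ V) (hj : J.card ≤ j) :
    ((V.powersetCard j).filter (J ⊆ ·)).card = (V.card - J.card).choose (j - J.card) := by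
  rw [← Finset.card_sdiff_of_subset hJ, ← Finset.card_powersetCard]
  refine Finset.card_nbij' (fun I => I \ J) (fun T => T ∪ J) ?_ ?_ ?_ ?_
  · intro I hI
    simp only [Finset.coe_filter, Finset.mem_powersetCard, Set.mem_ofPred_eq] at hI
    simp only [Finset.mem_coe, Finset.mem_powersetCard]
    exact ⟨Finset.sdiff_subset_sdiff hI.1.1 (le_refl _), by
      rw [Finset.card_sdiff_of_subset hI.2, hI.1.2]⟩
  · intro T hT
    simp only [Finset.mem_coe, Finset.mem_powersetCard] at hT
    simp only [Finset.coe_filter, Finset.mem_powersetCard, Set.mem_ofPred_eq]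
    have hd : Disjoint T J := Finset.disjoint_left.2 fun x hx => (Finset.mem_sdiff.1 (hT.1 hx)).2
    refine ⟨⟨Finset.union_subset (hT.1.trans Finset.sdiff_subset) hJ, ?_⟩,
      Finset.subset_union_right⟩
    rw [Finset.card_union_of_disjoint hd, hT.2]; omega
  · intro I hI
    simp only [Finset.coe_filter, Finset.mem_powersetCard, Set.mem_ofPred_eq] at hI
    exact Finset.sdiff_union_of_subset hI.2
  · intro T hT
    simp only [Finset.mem_coe, Finset.mem_powersetCard] at hT
    have hd : Disjoint T J := Finset.disjoint_left.2 fun x hx => (Finset.mem_sdiff.1 (hT.1 hx)).2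
    exact Finset.union_sdiff_cancel_right hd

/-- The constant function is primitive if the binomial coefficients are even. -/
theorem prim_one {V : Finset α} {j : ℕ} (hj : j ≤ V.card)
    (h : ∀ r, 1 ≤ r → r ≤ j → 2 ∣ (V.card - j + r).choose r) :
    Prim V j (fun _ => (1 : K)) := by
  intro J hJ hJc
  simp only [one_mul]
  rw [← Finset.sum_filter, Finset.sum_const, nsmul_one, card_filter_subset hJ hJc.le]
  have h1 := h (j - J.card) (by omega) (by omega)
  have h2 : V.card - j + (j - J.card) = V.card - J.card := by
    have := Finset.card_le_card hJ; omega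
  rw [h2] at h1
  exact (CharP.cast_eq_zero_iff K 2 _).2 h1

/-- **The functional `Gamma`**: a fixed combination of the values of `n` at `j`-matchings which is
equal to the sum of all the values of any symbol of `n`. -/
theorem exists_Gamma (V : Finset α) {j : ℕ} (hj : j ≤ V.card)
    (h : ∀ r, 1 ≤ r → r ≤ j → 2 ∣ (V.card - j + r).choose r) :
    ∃ c : List (α × α) →₀ K, (∀ l ∈ c.support, Good V l ∧ l.length = j) ∧
      ∀ (n : List (α × α) → K) (q : Finset α → K), IsSymbol V j n q →
        (c.sum fun l x => x * n l) = ∑ I ∈ V.powersetCard j, q I := by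
  obtain ⟨c, hc1, hc2⟩ := Prim.spanned V j _ (prim_one (K := K) hj h)
  refine ⟨c, hc1, fun n q hq => ?_⟩
  have := hc2 q
  simp only [one_mul] at this
  rw [← this]
  refine Finset.sum_congr rfl fun l hl => ?_
  simp only
  rw [hq l (hc1 l hl).1 (hc1 l hl).2]

end char_two

/-- The arithmetic: `|V| = 2 ^ k * M - 2`, `j = 2 ^ k - 1`. -/
theorem two_dvd_choose {k M r : ℕ} (hr1 : 1 ≤ r) (hr2 : r ≤ 2 ^ k - 1) :
    2 ∣ (2 ^ k * M + r - 1).choose r := by
  have hk : 0 < 2 ^ k := by positivity
  obtain ⟨s, rfl⟩ : ∃ s, r = s + 1 := ⟨r - 1, by omega⟩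
  have e := Nat.choose_succ_right_eq (2 ^ k * M + (s + 1) - 1) s
  have e2 : 2 ^ k * M + (s + 1) - 1 - s = 2 ^ k * M := by omega
  rw [e2] at e
  by_contra hodd
  have hcop : Nat.Coprime (2 ^ k) ((2 ^ k * M + (s + 1) - 1).choose (s + 1)) := by
    apply Nat.Coprime.pow_left
    exact (Nat.Prime.coprime_iff_not_dvd Nat.prime_two).2 hodd
  have hd : 2 ^ k ∣ (2 ^ k * M + (s + 1) - 1).choose (s + 1) * (s + 1) := by
    rw [e]; exact Dvd.dvd.mul_left (Dvd.intro _ rfl) _
  have := Nat.le_of_dvd (by omega) (hcop.dvd_of_dvd_mul_left hd)
  omega

end D81877C
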