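import Pool.Agent.Lib.MP_d81877_alC.Calc

/-!
`E_ab E_ba = 1 + s_ab + h_ab c_ab` on words with two boxes at the sites `a` and `b`, and the two
relations which follow from it.
-/

namespace D81877C

open Finset Function Pool.Agent.D818A

set_option linter.unusedSectionVars false

/-- the results of the two moves -/
def resM (A B : Finset (Fin 4)) : Multiset (Finset (Fin 4) × Finset (Fin 4)) :=
  ((univ : Finset (Fin 4 × Fin 4)).filter fun p =>
    (p.1 ∈ A ∧ p.1 ∉ B) ∧ (p.2 ∈ insert p.1 B ∧ p.2 ∉ A.erase p.1)).val.map fun p =>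
    (insert p.2 (A.erase p.1), (insert p.1 B).erase p.2)

def resR (A B : Finset (Fin 4)) : Multiset (Finset (Fin 4) × Finset (Fin 4)) :=
  {(A, B), (B, A)} + (if B = Aᶜ then
    ((univ : Finset (Fin 4)).powersetCard 2).val.map (fun C => (C, Cᶜ)) else 0)

theorem resM_eq : ∀ A ∈ (univ : Finset (Fin 4)).powersetCard 2,
    ∀ B ∈ (univ : Finset (Fin 4)).powersetCard 2,
    resM A B + (if (A ∩ B).card = 1 then 0 else {(B, A), (B, A)}) = resR A B := by
  decide

variable {N : ℕ} {K : Type*} [CommRing K]

theorem sum_resM (W : Finset (Fin 4) → Finset (Fin 4) → K) (A B : Finset (Fin 4)) :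
    ((resM A B).map fun p => W p.1 p.2).sum =
      ∑ l, if l ∈ A ∧ l ∉ B then ∑ l', (if l' ∈ insert l B ∧ l' ∉ A.erase l then
        W (insert l' (A.erase l)) ((insert l B).erase l') else 0) else 0 := by
  unfold resM
  rw [Multiset.map_map]
  change ∑ p ∈ univ.filter _, _ = _
  rw [sum_filter, ← univ_product_univ, sum_product]
  refine sum_congr rfl fun l _ => ?_
  by_cases h : l ∈ A ∧ l ∉ B
  · simp [h]
  · simp only [h, if_false, false_and, sum_const_zero]

section char_two

variable [CharP K 2]

theorem local_square (W : Finset (Fin 4) → Finset (Fin 4) → K) {A B : Finset (Fin 4)}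
    (hA : A.card = 2) (hB : B.card = 2) :
    (∑ l, if l ∈ A ∧ l ∉ B then ∑ l', (if l' ∈ insert l B ∧ l' ∉ A.erase l then
        W (insert l' (A.erase l)) ((insert l B).erase l') else 0) else 0) =
      W A B + W B A + if B = Aᶜ then ∑ C ∈ (univ : Finset (Fin 4)).powersetCard 2, W C Cᶜ
        else 0 := by
  rw [← sum_resM]
  have h := resM_eq A (by simp [hA]) B (by simp [hB])
  have h2 := congrArg (fun M => (Multiset.map (fun p => W p.1 p.2) M).sum) h
  simp only [Multiset.map_add, Multiset.sum_add, resR] at h2
  have e1 : (Multiset.map (fun p : Finset (Fin 4) × Finset (Fin 4) => W p.1 p.2)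
      (if (A ∩ B).card = 1 then 0 else {(B, A), (B, A)})).sum = 0 := by
    split_ifs
    · simp
    · simp only [Multiset.insert_eq_cons, Multiset.map_cons, Multiset.map_singleton,
        Multiset.sum_cons, Multiset.sum_singleton]
      exact CharTwo.add_self_eq_zero _
  rw [e1, add_zero] at h2
  rw [h2]
  congr 1
  · simp
  · split_ifs
    · rw [Multiset.map_map]; rfl
    · simp

/-- `E_ab E_ba = 1 + s_ab + h_ab c_ab` on words with two boxes at `a` and at `b`. -/
theorem E_E {a b : Fin N} (hab : a ≠ b) {A B : Finset (Fin 4)} (hA : A.card = 2)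
    (hB : B.card = 2) (w : Tup N → K) (S : Tup N) :
    E a b (E b a w) (put a A (put b B S)) =
      w (put a A (put b B S)) + w (put a B (put b A S)) +
        if B = Aᶜ then ∑ C ∈ (univ : Finset (Fin 4)).powersetCard 2, w (put a C (put b Cᶜ S))
        else 0 := by
  rw [E_put_put hab, ← local_square (fun X Y => w (put a X (put b Y S))) hA hB]
  refine sum_congr rfl fun l _ => ?_
  split_ifs with h
  · rw [put_comm hab, E_put_put hab.symm]
    refine sum_congr rfl fun l' _ => ?_
    rw [put_comm hab]
  · rfl

end char_two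

end D81877C
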