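import Mathlib

/-!
The symbol lemma (S7): a function on the `j`-matchings of a finite set `V`, with values in a ring of
characteristic two, which satisfies the triangle relation and the crossing relation, is the sum over
the transversals of the matching of a function of `j`-sets.
-/

namespace D81877C

set_option linter.unusedSectionVars false

variable {α : Type*} [DecidableEq α] {K : Type*} [CommRing K]

/-- The list of the letters of a list of pairs. -/
def letters (l : List (α × α)) : List α := l.flatMap fun p => [p.1, p.2]

@[simp] theorem letters_nil : letters ([] : List (α × α)) = [] := rfl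

@[simp] theorem letters_cons (p : α × α) (l : List (α × α)) :
    letters (p :: l) = p.1 :: p.2 :: letters l := rfl

theorem letters_length (l : List (α × α)) : (letters l).length = 2 * l.length := by
  induction l with
  | nil => rfl
  | cons p l ih => simp [ih]; ring

theorem letters_perm {l l' : List (α × α)} (h : l.Perm l') : (letters l).Perm (letters l') :=
  h.flatMap_right _

/-- `l` is a matching of `V`: its letters are distinct and lie in `V`. -/
def Good (V : Finset α) (l : List (α × α)) : Prop := (letters l).Nodup ∧ ∀ x ∈ letters l, x ∈ V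

theorem good_nil (V : Finset α) : Good V ([] : List (α × α)) := by simp [Good]

theorem good_cons {V : Finset α} {a b : α} {l : List (α × α)} :
    Good V ((a, b) :: l) ↔
      a ∈ V ∧ b ∈ V ∧ a ≠ b ∧ a ∉ letters l ∧ b ∉ letters l ∧ Good V l := by
  simp only [Good, letters_cons, List.nodup_cons, List.mem_cons, forall_eq_or_imp, not_or]
  tauto

theorem Good.perm {V : Finset α} {l l' : List (α × α)} (h : Good V l) (hp : l.Perm l') :
    Good V l' :=
  ⟨((letters_perm hp).nodup_iff).1 h.1, fun x hx => h.2 x ((letters_perm hp).mem_iff.2 hx)⟩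

theorem Good.mono {V W : Finset α} {l : List (α × α)} (h : Good V l) (hVW : V ⊆ W) : Good W l :=
  ⟨h.1, fun x hx => hVW (h.2 x hx)⟩

theorem Good.card_le {V : Finset α} {l : List (α × α)} (h : Good V l) :
    2 * l.length ≤ V.card := by
  rw [← letters_length, ← List.toFinset_card_of_nodup h.1]
  exact Finset.card_le_card fun x hx => h.2 x (List.mem_toFinset.1 hx)

/-- A further vertex, if there is room. -/
theorem Good.exists_free {V : Finset α} {l : List (α × α)} (h : Good V l)
    (hc : 2 * l.length < V.card) : ∃ i ∈ V, i ∉ letters l := by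
  by_contra hcon
  push Not at hcon
  have : V.card ≤ (letters l).toFinset.card :=
    Finset.card_le_card fun x hx => List.mem_toFinset.2 (hcon x hx)
  rw [List.toFinset_card_of_nodup h.1, letters_length] at this
  omega

/-- The sum of `q (S ∪ T)` over the transversals `T` of the list of pairs `l`. -/
def tsum (q : Finset α → K) : List (α × α) → Finset α → K
  | [], S => q S
  | p :: l, S => tsum q l (insert p.1 S) + tsum q l (insert p.2 S)

@[simp] theorem tsum_nil (q : Finset α → K) (S : Finset α) : tsum q [] S = q S := rfl

@[simp] theorem tsum_cons (q : Finset α → K) (p : α × α) (l : List (α × α)) (S : Finset α) :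
    tsum q (p :: l) S = tsum q l (insert p.1 S) + tsum q l (insert p.2 S) := rfl

theorem tsum_perm (q : Finset α → K) {l l' : List (α × α)} (h : l.Perm l') :
    ∀ S, tsum q l S = tsum q l' S := by
  induction h with
  | nil => intro S; rfl
  | cons p _ ih => intro S; simp [ih]
  | swap p p' l =>
    intro S
    simp only [tsum_cons]
    rw [Finset.insert_comm p.1 p'.1, Finset.insert_comm p.1 p'.2, Finset.insert_comm p.2 p'.1,
      Finset.insert_comm p.2 p'.2]
    ring
  | trans _ _ ih1 ih2 => intro S; rw [ih1, ih2]

theorem tsum_swap (q : Finset α → K) (a b : α) (l : List (α × α)) (S : Finset α) :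
    tsum q ((a, b) :: l) S = tsum q ((b, a) :: l) S := by
  simp only [tsum_cons]; ring

/-- `tsum` only depends on the values of `q` at the sets that can occur. -/
theorem tsum_congr {q q' : Finset α → K} {P : Finset α → Prop}
    (hq : ∀ S, P S → q S = q' S) {l : List (α × α)}
    (hP : ∀ S, P S → ∀ x ∈ letters l, P (insert x S)) :
    ∀ S, P S → tsum q l S = tsum q' l S := by
  induction l with
  | nil => intro S hS; exact hq S hS
  | cons p l ih =>
    intro S hS
    have ih' := ih fun S hS x hx => hP S hS x (by simp [hx])
    simp only [tsum_cons]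
    rw [ih' _ (hP S hS p.1 (by simp)), ih' _ (hP S hS p.2 (by simp))]

/-- The functions on the `j`-matchings of `V` with the triangle and the crossing relations. -/
structure Rel (V : Finset α) (j : ℕ) (n : List (α × α) → K) : Prop where
  perm : ∀ l l', Good V l → l.length = j → l.Perm l' → n l = n l'
  swap : ∀ a b l, Good V ((a, b) :: l) → l.length + 1 = j → n ((a, b) :: l) = n ((b, a) :: l)
  tri : ∀ a b c l, Good V ((a, b) :: l) → c ∈ V → c ≠ a → c ≠ b → c ∉ letters l →
    l.length + 1 = j → n ((a, c) :: l) + n ((b, c) :: l) + n ((a, b) :: l) = 0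
  cross : ∀ a b c d l, Good V ((a, b) :: (c, d) :: l) → l.length + 2 = j →
    n ((a, c) :: (b, d) :: l) + n ((b, c) :: (a, d) :: l) + n ((a, b) :: (c, d) :: l) = 0

theorem Rel.mono {V W : Finset α} {j : ℕ} {n : List (α × α) → K} (h : Rel W j n)
    (hVW : V ⊆ W) : Rel V j n where
  perm l l' hl := h.perm l l' (hl.mono hVW)
  swap a b l hl := h.swap a b l (hl.mono hVW)
  tri a b c l hl hc := h.tri a b c l (hl.mono hVW) (hVW hc)
  cross a b c d l hl := h.cross a b c d l (hl.mono hVW)

/-- `q` is a symbol of `n`. -/
def IsSymbol (V : Finset α) (j : ℕ) (n : List (α × α) → K) (q : Finset α → K) : Prop :=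
  ∀ l, Good V l → l.length = j → n l = tsum q l ∅

/-- Every list of pairs having the letter `v` can be put in the form `(v, i) :: m`. -/
theorem exists_perm_of_mem {v : α} :
    ∀ {l : List (α × α)}, v ∈ letters l →
      ∃ i m, l.Perm ((v, i) :: m) ∨ l.Perm ((i, v) :: m) := by
  intro l hv
  simp only [letters, List.mem_flatMap, List.mem_cons, List.not_mem_nil, or_false] at hv
  obtain ⟨p, hp, hvp⟩ := hv
  have hm := List.perm_cons_erase hp
  rcases hvp with rfl | rfl
  · exact ⟨p.2, _, Or.inl hm⟩
  · exact ⟨p.1, _, Or.inr hm⟩

section char_two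

variable [CharP K 2]

theorem add_self0 (x : K) : x + x = 0 := CharTwo.add_self_eq_zero x

theorem eq_of_add0 {x y : K} (h : x + y = 0) : x = y := by
  have := add_self0 y
  linear_combination h - this

open Classical in
/-- The function on the matchings of `V'` obtained by peeling the vertex `v`. -/
noncomputable def peel (V' : Finset α) (v : α) (n : List (α × α) → K) (q : Finset α → K)
    (m : List (α × α)) : K :=
  if h : ∃ i ∈ V', i ∉ letters m then n ((v, h.choose) :: m) + tsum q m {h.choose} else 0

variable {V' : Finset α} {v : α} {j : ℕ} {n : List (α × α) → K} {q : Finset α → K}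

theorem peel_indep (hv : v ∉ V') (hn : Rel (insert v V') (j + 1) n)
    (hq : IsSymbol V' (j + 1) n q) {m : List (α × α)} (hm : Good V' m) (hj : m.length = j)
    {i i' : α} (hi : i ∈ V') (him : i ∉ letters m) (hi' : i' ∈ V') (him' : i' ∉ letters m) :
    n ((v, i) :: m) + tsum q m {i} = n ((v, i') :: m) + tsum q m {i'} := by
  by_cases h : i = i'
  · rw [h]
  have hvi' : v ≠ i' := fun h => hv (h ▸ hi')
  have hvi : v ≠ i := fun h => hv (h ▸ hi)
  have hvm : v ∉ letters m := fun h => hv (hm.2 v h)
  have hg : Good (insert v V') ((v, i') :: m) :=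
    good_cons.2 ⟨Finset.mem_insert_self _ _, Finset.mem_insert_of_mem hi', hvi', hvm, him',
      hm.mono (Finset.subset_insert _ _)⟩
  have h1 := hn.tri v i' i m hg (Finset.mem_insert_of_mem hi) hvi.symm h him (by omega)
  have h2 := hq ((i', i) :: m) (good_cons.2 ⟨hi', hi, Ne.symm h, him', him, hm⟩) (by simp [hj])
  simp only [tsum_cons, insert_empty_eq] at h2
  rw [h2] at h1
  have e1 := add_self0 (tsum q m {i'})
  have e2 := add_self0 (n ((v, i') :: m))
  linear_combination h1 - e1 - e2

theorem peel_spec (hv : v ∉ V') (hn : Rel (insert v V') (j + 1) n)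
    (hq : IsSymbol V' (j + 1) n q) {m : List (α × α)} (hm : Good V' m) (hj : m.length = j)
    {i : α} (hi : i ∈ V') (him : i ∉ letters m) :
    peel V' v n q m = n ((v, i) :: m) + tsum q m {i} := by
  have h : ∃ i ∈ V', i ∉ letters m := ⟨i, hi, him⟩
  rw [peel, dif_pos h]
  exact peel_indep hv hn hq hm hj h.choose_spec.1 h.choose_spec.2 hi him

theorem peel_rel (hv : v ∉ V') (hn : Rel (insert v V') (j + 1) n)
    (hq : IsSymbol V' (j + 1) n q) (hc : 2 * j < V'.card) :
    Rel V' j (peel V' v n q) := by
  have hW : V' ⊆ insert v V' := Finset.subset_insert _ _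
  have hvW : v ∈ insert v V' := Finset.mem_insert_self _ _
  have key : ∀ {m : List (α × α)}, Good V' m → m.length = j → ∀ {i}, i ∈ V' → i ∉ letters m →
      Good (insert v V') ((v, i) :: m) := by
    intro m hm hj i hi him
    exact good_cons.2 ⟨hvW, hW hi, fun h => hv (h ▸ hi), fun h => hv (hm.2 v h), him, hm.mono hW⟩
  refine ⟨?_, ?_, ?_, ?_⟩
  · intro l l' hl hj hp
    obtain ⟨i, hi, hil⟩ := hl.exists_free (by omega)
    have hil' : i ∉ letters l' := fun h => hil ((letters_perm hp).mem_iff.2 h)
    rw [peel_spec hv hn hq hl hj hi hil,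
      peel_spec hv hn hq (hl.perm hp) (hp.length_eq ▸ hj) hi hil', tsum_perm q hp,
      hn.perm _ _ (key hl hj hi hil) (by simp [hj]) (hp.cons _)]
  · intro a b l hl hj
    obtain ⟨i, hi, hil⟩ := hl.exists_free (by simp; omega)
    have hl' : Good V' ((b, a) :: l) := by
      rw [good_cons] at hl ⊢
      exact ⟨hl.2.1, hl.1, hl.2.2.1.symm, hl.2.2.2.2.1, hl.2.2.2.1, hl.2.2.2.2.2⟩
    have hil' : i ∉ letters ((b, a) :: l) := by
      simp only [letters_cons, List.mem_cons, not_or] at hil ⊢; tauto
    rw [peel_spec hv hn hq hl (by simp [hj]) hi hil, peel_spec hv hn hq hl' (by simp [hj]) hi hil',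
      tsum_swap]
    have g1 := key hl (by simp [hj]) hi hil
    have g2 := key hl' (by simp [hj]) hi hil'
    have p1 : ((v, i) :: (a, b) :: l).Perm ((a, b) :: (v, i) :: l) := List.Perm.swap _ _ _
    have p2 : ((b, a) :: (v, i) :: l).Perm ((v, i) :: (b, a) :: l) := List.Perm.swap _ _ _
    rw [hn.perm _ _ g1 (by simp; omega) p1, hn.swap a b _ (g1.perm p1) (by simp; omega),
      hn.perm _ _ (g2.perm p2.symm) (by simp; omega) p2]
  · intro a b c l hl hcV hca hcb hcl hj
    have hl0 := good_cons.1 hl
    obtain ⟨haV, hbV, hab, hal, hbl, hll⟩ := hl0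
    have hac : Good V' ((a, c) :: l) := good_cons.2 ⟨haV, hcV, hca.symm, hal, hcl, hll⟩
    have hbc : Good V' ((b, c) :: l) := good_cons.2 ⟨hbV, hcV, hcb.symm, hbl, hcl, hll⟩
    have f1 : b ∉ letters ((a, c) :: l) := by simp [hbl, hcb.symm, hab.symm]
    have f2 : a ∉ letters ((b, c) :: l) := by simp [hal, hca.symm, hab]
    have f3 : c ∉ letters ((a, b) :: l) := by simp [hcl, hca, hcb]
    rw [peel_spec hv hn hq hac (by simp [hj]) hbV f1,
      peel_spec hv hn hq hbc (by simp [hj]) haV f2,
      peel_spec hv hn hq hl (by simp [hj]) hcV f3]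
    have hvl : v ∉ letters l := fun h => hv (hll.2 v h)
    have hav : a ≠ v := fun h => hv (h ▸ haV)
    have hbv : b ≠ v := fun h => hv (h ▸ hbV)
    have hcv : c ≠ v := fun h => hv (h ▸ hcV)
    have hg : Good (insert v V') ((a, b) :: (c, v) :: l) := by
      refine good_cons.2 ⟨hW haV, hW hbV, hab, ?_, ?_, good_cons.2 ⟨hW hcV, hvW, hcv, hcl, hvl,
        hll.mono hW⟩⟩
      · simp [hal, hca.symm, hav]
      · simp [hbl, hcb.symm, hbv]
    have hcr := hn.cross a b c v l hg (by omega)
    have e : ∀ x y z, Good V' ((x, y) :: l) → z ∈ V' → z ∉ letters ((x, y) :: l) →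
        n ((v, z) :: (x, y) :: l) = n ((x, y) :: (z, v) :: l) := by
      intro x y z hxy hz hzl
      have g1 := key hxy (by simp [hj]) hz hzl
      have g2 : Good (insert v V') ((z, v) :: (x, y) :: l) := by
        rw [good_cons] at g1 ⊢
        exact ⟨g1.2.1, g1.1, g1.2.2.1.symm, g1.2.2.2.2.1, g1.2.2.2.1, g1.2.2.2.2.2⟩
      rw [hn.swap v z _ g1 (by simp; omega)]
      exact hn.perm _ _ g2 (by simp; omega) (List.Perm.swap _ _ _)
    rw [e a c b hac hbV f1, e b c a hbc haV f2, e a b c hl hcV f3]
    simp only [tsum_cons]
    rw [Finset.pair_comm a b, Finset.pair_comm c b, Finset.pair_comm c a]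
    have e1 := add_self0 (tsum q l {b, a})
    have e2 := add_self0 (tsum q l {b, c})
    have e3 := add_self0 (tsum q l {a, c})
    linear_combination hcr + e1 + e2 + e3
  · intro a b c d l hl hj
    obtain ⟨haV, hbV, hab, hacd, hbcd, hl2⟩ := good_cons.1 hl
    obtain ⟨hcV, hdV, hcd, hcl, hdl, hll⟩ := good_cons.1 hl2
    simp only [letters_cons, List.mem_cons, not_or] at hacd hbcd
    obtain ⟨i, hi, hil⟩ := hl.exists_free (by simp; omega)
    simp only [letters_cons, List.mem_cons, not_or] at hil
    obtain ⟨hia, hib, hic, hid, hil⟩ := hil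
    have g1 : Good V' ((a, c) :: (b, d) :: l) := by
      refine good_cons.2 ⟨haV, hcV, hacd.1, ?_, ?_, good_cons.2 ⟨hbV, hdV, hbcd.2.1, hbcd.2.2, hdl,
        hll⟩⟩
      · simp [hab, hacd.2.1, hacd.2.2]
      · simp [hcd, hcl, Ne.symm hbcd.1]
    have g2 : Good V' ((b, c) :: (a, d) :: l) := by
      refine good_cons.2 ⟨hbV, hcV, hbcd.1, ?_, ?_, good_cons.2 ⟨haV, hdV, hacd.2.1, hacd.2.2, hdl,
        hll⟩⟩
      · simp [hab.symm, hbcd.2.1, hbcd.2.2]
      · simp [hcd, hcl, Ne.symm hacd.1]
    rw [peel_spec hv hn hq g1 (by simp [hj]) hi (by simp [*]),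
      peel_spec hv hn hq g2 (by simp [hj]) hi (by simp [*]),
      peel_spec hv hn hq hl (by simp [hj]) hi (by simp [*])]
    have hvi : v ≠ i := fun h => hv (h ▸ hi)
    have hvl : v ∉ letters l := fun h => hv (hll.2 v h)
    have hva : v ≠ a := fun h => hv (h ▸ haV)
    have hvb : v ≠ b := fun h => hv (h ▸ hbV)
    have hvc : v ≠ c := fun h => hv (h ▸ hcV)
    have hvd : v ≠ d := fun h => hv (h ▸ hdV)
    have p : ∀ x y z w : α, Good V' ((x, y) :: (z, w) :: l) → i ∉ letters ((x, y) :: (z, w) :: l) →
        n ((v, i) :: (x, y) :: (z, w) :: l) = n ((x, y) :: (z, w) :: (v, i) :: l) := by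
      intro x y z w hg hil
      have g1 := key hg (by simp [hj]) hi hil
      refine hn.perm _ _ g1 (by simp; omega) ?_
      exact (List.Perm.swap _ _ _).trans ((List.Perm.swap _ _ _).cons _)
    rw [p a c b d g1 (by simp [*]), p b c a d g2 (by simp [*]), p a b c d hl (by simp [*])]
    have hg' : Good (insert v V') ((a, b) :: (c, d) :: (v, i) :: l) := by
      have := key hl (by simp [hj]) hi (by simp [*])
      exact this.perm ((List.Perm.swap _ _ _).trans ((List.Perm.swap _ _ _).cons _))
    have hcr := hn.cross a b c d ((v, i) :: l) hg' (by simp; omega)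
    simp only [tsum_cons]
    have s1 : ∀ x y : α, insert x (insert y ({i} : Finset α)) = insert y (insert x {i}) :=
      fun x y => Finset.insert_comm _ _ _
    rw [s1 b a, s1 d a, s1 b c, s1 d c, s1 a b, s1 d b, s1 a c, s1 c a, s1 c b]
    have e1 := add_self0 (tsum q l (insert b (insert a {i})))
    have e2 := add_self0 (tsum q l (insert a (insert d {i})))
    have e3 := add_self0 (tsum q l (insert b (insert c {i})))
    have e4 := add_self0 (tsum q l (insert c (insert d {i})))
    have e5 := add_self0 (tsum q l (insert b (insert d {i})))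
    have e6 := add_self0 (tsum q l (insert a (insert c {i})))
    linear_combination hcr + e1 + e2 + e3 + e4 + e5 + e6

/-- **The symbol lemma.** -/
theorem exists_symbol (V : Finset α) :
    ∀ (j : ℕ) (n : List (α × α) → K), Rel V j n → ∃ q : Finset α → K, IsSymbol V j n q := by
  induction V using Finset.induction_on with
  | empty =>
    intro j n _
    refine ⟨fun _ => n [], fun l hl _ => ?_⟩
    cases l with
    | nil => rfl
    | cons p l => exact absurd (hl.2 p.1 (by simp)) (Finset.notMem_empty _)
  | insert v V' hv ih =>
    intro j n hn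
    cases j with
    | zero =>
      refine ⟨fun _ => n [], fun l _ hj => ?_⟩
      cases l with
      | nil => rfl
      | cons p l => simp at hj
    | succ j =>
      obtain ⟨q', hq'⟩ := ih (j + 1) n (hn.mono (Finset.subset_insert _ _))
      by_cases hc : 2 * j < V'.card
      · obtain ⟨q'', hq''⟩ := ih j _ (peel_rel hv hn hq' hc)
        refine ⟨fun T => if v ∈ T then q'' (T.erase v) else q' T, fun l hl hlj => ?_⟩
        set q : Finset α → K := fun T => if v ∈ T then q'' (T.erase v) else q' T with hqdef
        have c1 : ∀ l : List (α × α), v ∉ letters l → ∀ S : Finset α, v ∉ S →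
            tsum q l S = tsum q' l S := by
          intro l hvl S hS
          refine tsum_congr (P := fun S => v ∉ S) (fun S hS => by simp [hqdef, hS]) ?_ S hS
          intro S hS x hx hmem
          rcases Finset.mem_insert.1 hmem with h | h
          · exact hvl (h ▸ hx)
          · exact hS h
        have c2 : ∀ l : List (α × α), v ∉ letters l → ∀ S : Finset α, v ∈ S →
            tsum q l S = tsum q'' l (S.erase v) := by
          intro l
          induction l with
          | nil => intro _ S hS; simp [hqdef, hS]
          | cons p l ihl =>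
            intro hvl S hS
            simp only [letters_cons, List.mem_cons, not_or] at hvl
            simp only [tsum_cons]
            rw [ihl hvl.2.2 _ (Finset.mem_insert_of_mem hS),
              ihl hvl.2.2 _ (Finset.mem_insert_of_mem hS),
              Finset.erase_insert_of_ne (Ne.symm hvl.1),
              Finset.erase_insert_of_ne (Ne.symm hvl.2.1)]
        by_cases hvl : v ∈ letters l
        · have main : ∀ i m, Good (insert v V') ((v, i) :: m) → m.length = j →
              n ((v, i) :: m) = tsum q ((v, i) :: m) ∅ := by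
            intro i m hg hmj
            obtain ⟨_, hi, hvi, hvm, him, hm⟩ := good_cons.1 hg
            have hi' : i ∈ V' := by
              rcases Finset.mem_insert.1 hi with h | h
              · exact absurd h.symm hvi
              · exact h
            have hm' : Good V' m := ⟨hm.1, fun x hx => by
              rcases Finset.mem_insert.1 (hm.2 x hx) with h | h
              · exact absurd (h ▸ hx) hvm
              · exact h⟩
            have e := peel_spec hv hn hq' hm' hmj hi' him
            rw [hq'' m hm' hmj] at e
            simp only [tsum_cons, insert_empty_eq]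
            rw [c1 m hvm {i} (by simpa using hvi), c2 m hvm {v} (by simp)]
            simp only [Finset.erase_singleton]
            have e1 := add_self0 (tsum q' m {i})
            linear_combination -e - e1
          obtain ⟨i, m, h | h⟩ := exists_perm_of_mem hvl
          · have hmj : m.length = j := by
              have := h.length_eq; simp at this; omega
            rw [hn.perm l _ hl hlj h, tsum_perm q h]
            exact main i m (hl.perm h) hmj
          · have hmj : m.length = j := by
              have := h.length_eq; simp at this; omega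
            have hg := hl.perm h
            have hg' : Good (insert v V') ((v, i) :: m) := by
              rw [good_cons] at hg ⊢
              exact ⟨hg.2.1, hg.1, hg.2.2.1.symm, hg.2.2.2.2.1, hg.2.2.2.1, hg.2.2.2.2.2⟩
            rw [hn.perm l _ hl hlj h, tsum_perm q h, tsum_swap, hn.swap i v m hg (by omega)]
            exact main i m hg' hmj
        · have hl' : Good V' l := ⟨hl.1, fun x hx => by
            rcases Finset.mem_insert.1 (hl.2 x hx) with h | h
            · exact absurd (h ▸ hx) hvl
            · exact h⟩
          rw [hq' l hl' hlj, c1 l hvl ∅ (Finset.notMem_empty _)]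
      · refine ⟨fun _ => 0, fun l hl hlj => ?_⟩
        have h1 := hl.card_le
        rw [Finset.card_insert_of_notMem hv] at h1
        omega

end char_two

end D81877C
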