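import Pool.Agent.Lib.MP_d81877_alC.Match

/-!
The functions `nf` on the images of `E a b` and of its second divided power.
-/

namespace D81877C

open Finset Function Pool.Agent.D818A

set_option linter.unusedSectionVars false

variable {N : ℕ} {K : Type*} [CommRing K]

theorem hh_of {k : ℕ} {a b : Fin N} {w : Tup N → K} {S : Tup N} (h1 : (ltr S a).card = k)
    (h2 : ltr S b = (ltr S a)ᶜ) : hh k a b w S = w (put a ∅ (put b ∅ S)) := by
  rw [hh, if_pos ⟨h1, h2⟩]

theorem hh_of_not {k : ℕ} {a b : Fin N} {w : Tup N → K} {S : Tup N}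
    (h : ¬ ((ltr S a).card = k ∧ ltr S b = (ltr S a)ᶜ)) : hh k a b w S = 0 := by
  rw [hh, if_neg h]

/-- Contractions commute with the insertion of a dimer at other sites. -/
theorem cc_hh (k k' : ℕ) {a b c d : Fin N} (hac : a ≠ c) (had : a ≠ d) (hbc : b ≠ c)
    (hbd : b ≠ d) (w : Tup N → K) :
    cc k' c d (hh k a b w) = hh k a b (cc k' c d w) := by
  funext S
  by_cases h2 : ltr S c = ∅ ∧ ltr S d = ∅
  · rw [cc_of h2.1 h2.2]
    have hL : ∀ C : Finset (Fin 4), ltr (put c C (put d Cᶜ S)) a = ltr S a ∧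
        ltr (put c C (put d Cᶜ S)) b = ltr S b := by
      intro C
      rw [ltr_put_of_ne hac, ltr_put_of_ne had, ltr_put_of_ne hbc, ltr_put_of_ne hbd]
      exact ⟨rfl, rfl⟩
    by_cases h1 : (ltr S a).card = k ∧ ltr S b = (ltr S a)ᶜ
    · rw [hh_of h1.1 h1.2, cc_of (by rw [ltr_put_of_ne hac.symm, ltr_put_of_ne hbc.symm, h2.1])
        (by rw [ltr_put_of_ne had.symm, ltr_put_of_ne hbd.symm, h2.2])]
      refine sum_congr rfl fun C _ => ?_
      rw [hh_of (by rw [(hL C).1, h1.1]) (by rw [(hL C).1, (hL C).2, h1.2])]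
      rw [put_comm hbc, put_comm hac, put_comm hbd, put_comm had]
    · rw [hh_of_not h1]
      refine sum_eq_zero fun C _ => hh_of_not ?_
      rw [(hL C).1, (hL C).2]; exact h1
  · rw [cc_of_not h2]
    by_cases h1 : (ltr S a).card = k ∧ ltr S b = (ltr S a)ᶜ
    · rw [hh_of h1.1 h1.2, cc_of_not]
      rw [ltr_put_of_ne hac.symm, ltr_put_of_ne hbc.symm, ltr_put_of_ne had.symm,
        ltr_put_of_ne hbd.symm]
      exact h2
    · rw [hh_of_not h1]

theorem cmul_hh (k : ℕ) {a b : Fin N} (w : Tup N → K) :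
    ∀ l : List (Fin N × Fin N), a ∉ letters l → b ∉ letters l →
      cmul l (hh k a b w) = hh k a b (cmul l w)
  | [], _, _ => rfl
  | p :: l, ha, hb => by
    simp only [letters_cons, List.mem_cons, not_or] at ha hb
    rw [cmul_cons, cmul_cons, cmul_hh k w l ha.2.2 hb.2.2, cc_hh k 2 ha.1 ha.2.1 hb.1 hb.2.1]

theorem hh_swap {a b : Fin N} (hab : a ≠ b) (w : Tup N → K) : hh 2 a b w = hh 2 b a w := by
  funext S
  by_cases h : (ltr S a).card = 2 ∧ ltr S b = (ltr S a)ᶜ
  · rw [hh_of h.1 h.2, hh_of (by rw [h.2, card_compl, h.1]; rfl) (by rw [h.2, compl_compl]),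
      put_comm hab]
  · rw [hh_of_not h, hh_of_not]
    rintro ⟨h1, h2⟩
    exact h ⟨by rw [h2, card_compl, h1]; rfl, by rw [h2, compl_compl]⟩

/-- Zero weight words on `V`. -/
def ZW (V : Finset (Fin N)) (S : Tup N) : Prop := ∀ i ∈ V, (ltr S i).card = 2

theorem cmul_congr {V : Finset (Fin N)} {F G : Tup N → K} (h : ∀ S, ZW V S → F S = G S) :
    ∀ l : List (Fin N × Fin N), Good V l → ∀ S, ZW (V \ (letters l).toFinset) S →
      cmul l F S = cmul l G S
  | [], _, S, hS => h S (by simpa using hS)
  | (a, b) :: l, hl, S, hS => by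
    obtain ⟨ha, hb, hab, hal, hbl, hll⟩ := good_cons.1 hl
    rw [cmul_cons, cmul_cons]
    by_cases h2 : ltr S a = ∅ ∧ ltr S b = ∅
    · rw [cc_of h2.1 h2.2, cc_of h2.1 h2.2]
      refine sum_congr rfl fun A hA => cmul_congr h l hll _ ?_
      have hA' := (mem_powersetCard.1 hA).2
      intro i hi
      by_cases hia : i = a
      · subst hia; simp only [ltr_put_self, hA']
      · by_cases hib : i = b
        · subst hib
          simp only [ltr_put_of_ne hia, ltr_put_self, card_compl, hA', Fintype.card_fin]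
        · simp only [ltr_put_of_ne hia, ltr_put_of_ne hib]
          refine hS i ?_
          rw [sdiff_letters_cons]
          simp only [mem_sdiff] at hi ⊢
          exact ⟨hi, by simp [hia, hib]⟩
    · rw [cc_of_not h2, cc_of_not h2]

theorem zw_word {V X A : Finset (Fin N)} (hA : A ⊆ X) : ZW V (word V X A) := by
  intro i hi
  by_cases hiX : i ∈ X
  · by_cases hiA : i ∈ A
    · have : ltr (word V X A) i = {1, 3} := by
        ext k
        simp only [mem_ltr, mem_word, mem_insert, mem_singleton]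
        fin_cases k <;> simp [hi, hiA]
      rw [this]; decide
    · have : ltr (word V X A) i = {0, 2} := by
        ext k
        simp only [mem_ltr, mem_word, mem_insert, mem_singleton]
        fin_cases k <;> simp [hi, hiX, hiA]
      rw [this]; decide
  · rw [ltr_word_vac hA hi hiX]; decide

theorem nf_congr {V : Finset (Fin N)} {m : ℕ} {F G : Tup N → K} (h : ∀ S, ZW V S → F S = G S)
    {l : List (Fin N × Fin N)} (hl : Good V l) (hc : 2 * m + 1 + 2 * l.length ≤ V.card) :
    nf V m F l = nf V m G l := by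
  unfold nf nu
  have h1 := card_sdiff_letters hl
  obtain ⟨h2, h3⟩ := chX_spec (W := V \ (letters l).toFinset) (m := m) (by omega)
  refine sum_congr rfl fun A hA => ?_
  exact cmul_congr h l hl _ (zw_word (mem_powersetCard.1 hA).1)

/-- a word of zero weight vanishes under the dimer if the two letters are vacuum letters -/
theorem hh_vac {a b : Fin N} {S : Tup N} (ha : ltr S a = vac) (hb : ltr S b = vac)
    (w : Tup N → K) : hh 2 a b w S = 0 := by
  refine hh_of_not ?_
  rw [ha, hb]
  decide

section char_two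

variable [CharP K 2]

theorem cc_hh_self {a b : Fin N} (hab : a ≠ b) (w : Tup N → K) : cc 2 a b (hh 2 a b w) = 0 := by
  funext S
  by_cases h2 : ltr S a = ∅ ∧ ltr S b = ∅
  · rw [cc_of h2.1 h2.2]
    have e : ∀ A ∈ (univ : Finset (Fin 4)).powersetCard 2,
        hh 2 a b w (put a A (put b Aᶜ S)) = w S := by
      intro A hA
      rw [hh_of (by rw [ltr_put_self]; exact (mem_powersetCard.1 hA).2)
        (by rw [ltr_put_of_ne hab.symm, ltr_put_self, ltr_put_self]),
        put_comm hab ∅ ∅, put_put, put_comm hab.symm, put_put, put_of_ltr h2.2,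
        put_of_ltr h2.1]
    rw [sum_congr rfl e, sum_const, card_powersetCard]
    have : (univ : Finset (Fin 4)).card.choose 2 = 2 * 3 := by decide
    rw [this, mul_smul, two_smul]
    exact CharTwo.add_self_eq_zero _
  · rw [cc_of_not h2]; rfl

theorem InR.hh {V : Finset (Fin N)} {m : ℕ} {a b : Fin N} (ha : a ∈ V) (hb : b ∈ V)
    (hab : a ≠ b) {w : Tup N → K} (hw : InR (V \ {a, b}) m w) (k : ℕ) :
    InR V (m + 1) (hh k a b w) where
  supp := hw.supp.hh ha hb hab k
  prim := Primitive.hh hw.prim k hab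
  orth v hv hvp := by
    have h1 : pair (D81877C.hh k a b w) v = pair v (D81877C.hh k a b w) := by
      unfold pair; exact sum_congr rfl fun S _ => mul_comm _ _
    rw [h1, ← pair_cc k hab]
    have h2 : pair (D81877C.cc k a b v) w = pair w (D81877C.cc k a b v) := by
      unfold pair; exact sum_congr rfl fun S _ => mul_comm _ _
    rw [h2]
    exact hw.orth _ (hv.cc k ha hb hab) (Primitive.cc hvp k hab)

/-- contraction of a dimer with a vacuum site -/
theorem cc_hh_word {a b c : Fin N} (hab : a ≠ b) (hac : a ≠ c) (hbc : b ≠ c) (w : Tup N → K)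
    {S : Tup N} (ha : ltr S a = ∅) (hb : ltr S b = vac) (hc : ltr S c = ∅) :
    cc 2 a c (hh 2 a b w) S = w (put b ∅ (put c vac S)) := by
  rw [cc_of ha hc, sum_eq_single vacᶜ]
  · rw [hh_of (by rw [ltr_put_self]; decide)
      (by rw [ltr_put_of_ne hab.symm, ltr_put_of_ne hbc, ltr_put_self, hb, compl_compl]),
      compl_compl, put_comm hab ∅ ∅, put_put, put_comm hac, put_of_ltr ha]
  · intro C _ hC
    refine hh_of_not ?_
    rw [ltr_put_self, ltr_put_of_ne hab.symm, ltr_put_of_ne hbc, hb]
    rintro ⟨_, h⟩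
    exact hC (by rw [h, compl_compl])
  · intro h
    exact absurd (by decide) h

/-- contraction of a dimer with two other sites -/
theorem cc_cc_hh {a b c d : Fin N} (hab : a ≠ b) (hac : a ≠ c) (had : a ≠ d) (hbc : b ≠ c)
    (hbd : b ≠ d) (hcd : c ≠ d) (w : Tup N → K) {S : Tup N} (ha : ltr S a = ∅)
    (hb : ltr S b = ∅) (hc : ltr S c = ∅) (hd : ltr S d = ∅) :
    cc 2 a c (cc 2 b d (hh 2 a b w)) S = cc 2 c d w S := by
  rw [cc_of ha hc, cc_of hc hd]
  have e1 : ∀ C ∈ (univ : Finset (Fin 4)).powersetCard 2,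
      cc 2 b d (hh 2 a b w) (put a C (put c Cᶜ S)) = w (put c Cᶜ (put d C S)) := by
    intro C hC
    have hC' := (mem_powersetCard.1 hC).2
    rw [cc_of (by rw [ltr_put_of_ne hab.symm, ltr_put_of_ne hbc, hb])
      (by rw [ltr_put_of_ne had.symm, ltr_put_of_ne hcd.symm, hd]), sum_eq_single Cᶜ]
    · rw [compl_compl, hh_of (by rw [ltr_put_of_ne hab, ltr_put_of_ne had, ltr_put_self, hC'])
        (by rw [ltr_put_self, ltr_put_of_ne hab, ltr_put_of_ne had, ltr_put_self])]
      rw [put_put, put_comm hbd, put_comm hab.symm, put_comm had, put_put, put_comm hbc,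
        put_of_ltr hb, put_comm had.symm, put_comm hcd.symm, put_comm hac, put_comm had,
        put_of_ltr ha]
    · intro D _ hD
      refine hh_of_not ?_
      rw [ltr_put_of_ne hab, ltr_put_of_ne had, ltr_put_self, ltr_put_self]
      rintro ⟨_, h⟩
      exact hD h
    · intro h
      refine absurd ?_ h
      rw [mem_powersetCard, card_compl, hC']
      exact ⟨subset_univ _, rfl⟩
  rw [sum_congr rfl e1]
  refine sum_nbij' (fun A => Aᶜ) (fun A => Aᶜ) ?_ ?_ ?_ ?_ ?_
  · intro A hA
    simp only [mem_powersetCard, subset_univ, true_and, card_compl, Fintype.card_fin] at hA ⊢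
    omega
  · intro A hA
    simp only [mem_powersetCard, subset_univ, true_and, card_compl, Fintype.card_fin] at hA ⊢
    omega
  · intro A _; exact compl_compl A
  · intro A _; exact compl_compl A
  · intro A _
    rw [compl_compl]

end char_two

end D81877C
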