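import Pool.Agent.Lib.MP_d81877_alC.Gamma
import Pool.Agent.Lib.MP_d81877_alC.Hyp
import Pool.Agent.Lib.MP_d81877_alF.Gen

/-!
The action of a transvection on words of weight zero.
-/

namespace D81877C

open Finset Function Pool.Agent.D818A MP_d81877_alF

set_option linter.unusedSectionVars false

variable {N : ℕ} {K : Type*} [Field K]

/-- minors of a transvection -/
theorem mn_transvection {a b : Fin N} (hab : a ≠ b) (t : K) (S S' : Finset (Fin N)) :
    mn (Matrix.transvection a b t) S S' =
      if S' = S then 1 else if a ∈ S ∧ b ∉ S ∧ S' = insert b (S.erase a) then t else 0 := by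
  classical
  have entry : ∀ i k : Fin N, Matrix.transvection a b t i k =
      (if i = k then 1 else 0) + if i = a ∧ k = b then t else 0 := by
    intro i k
    simp only [Matrix.transvection, Matrix.add_apply, Matrix.one_apply, Matrix.single_apply]
    congr 1
    by_cases h1 : a = i <;> by_cases h2 : b = k <;> simp [h1, h2, eq_comm]
  have nz : ∀ i k : Fin N, Matrix.transvection a b t i k ≠ 0 → k = i ∨ (i = a ∧ k = b) := by
    intro i k h
    by_contra hcon
    rw [not_or] at hcon
    apply h
    rw [entry, if_neg (fun h => hcon.1 h.symm), if_neg hcon.2, add_zero]
  unfold mn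
  by_cases h1 : S' = S
  · subst h1
    rw [if_pos rfl, sum_eq_single (Equiv.refl _)]
    · refine prod_eq_one fun i _ => ?_
      rw [Equiv.refl_apply, entry, if_pos rfl, if_neg, add_zero]
      rintro ⟨h, h'⟩
      exact hab (h.symm.trans h')
    · intro e _ he
      by_contra hne
      apply he
      replace hne := prod_ne_zero_iff.1 hne
      have key : ∀ i : S', (i : Fin N) ≠ a → e i = i := by
        intro i hi
        rcases nz _ _ (hne i (mem_univ _)) with h | h
        · exact Subtype.ext h
        · exact absurd h.1 hi
      refine Equiv.ext fun i => ?_
      rw [Equiv.refl_apply]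
      by_cases hi : (i : Fin N) = a
      · rcases nz _ _ (hne i (mem_univ _)) with h | h
        · exact Subtype.ext h
        · exfalso
          have h2 : ((e i : S') : Fin N) ≠ a := by rw [h.2]; exact hab.symm
          have h3 := key (e i) h2
          exact h2 ((congrArg Subtype.val (e.injective h3)).trans hi)
      · exact key i hi
    · intro h; exact absurd (mem_univ _) h
  · rw [if_neg h1]
    by_cases h2 : a ∈ S ∧ b ∉ S ∧ S' = insert b (S.erase a)
    · rw [if_pos h2]
      obtain ⟨ha, hb, rfl⟩ := h2
      -- the bijection
      let e0 : S ≃ (insert b (S.erase a) : Finset (Fin N)) :=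
        { toFun := fun i => if h : (i : Fin N) = a then ⟨b, mem_insert_self _ _⟩ else
            ⟨i, mem_insert_of_mem (mem_erase.2 ⟨h, i.2⟩)⟩
          invFun := fun k => if h : (k : Fin N) = b then ⟨a, ha⟩ else
            ⟨k, mem_of_mem_erase ((mem_insert.1 k.2).resolve_left h)⟩
          left_inv := by
            intro i
            by_cases h : (i : Fin N) = a
            · simp only [h, dif_pos]
              exact Subtype.ext h.symm
            · have hib : (i : Fin N) ≠ b := fun h' => hb (h' ▸ i.2)
              simp only [h, dif_neg, not_false_eq_true, hib]
          right_inv := by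
            intro k
            by_cases h : (k : Fin N) = b
            · simp only [h, dif_pos]
              exact Subtype.ext h.symm
            · have hka : (k : Fin N) ≠ a := by
                have := (mem_insert.1 k.2).resolve_left h
                exact ne_of_mem_erase this
              simp only [h, dif_neg, not_false_eq_true, hka] }
      rw [sum_eq_single e0]
      · rw [← mul_prod_erase univ _ (mem_univ (⟨a, ha⟩ : S))]
        have h3 : ∏ i ∈ univ.erase (⟨a, ha⟩ : S), Matrix.transvection a b t i (e0 i) = 1 := by
          refine prod_eq_one fun i hi => ?_
          have hia : (i : Fin N) ≠ a := fun h => (mem_erase.1 hi).1 (Subtype.ext h)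
          have he : ((e0 i : (insert b (S.erase a) : Finset (Fin N))) : Fin N) = i := by
            simp only [e0, Equiv.coe_fn_mk, dif_neg hia]
          rw [he, entry, if_pos rfl, if_neg (fun h => hia h.1), add_zero]
        have he : ((e0 ⟨a, ha⟩ : (insert b (S.erase a) : Finset (Fin N))) : Fin N) = b := by
          simp only [e0, Equiv.coe_fn_mk, dif_pos]
        rw [h3, he, entry, if_neg hab, if_pos ⟨rfl, rfl⟩, zero_add, mul_one]
      · intro e _ he
        by_contra hne
        apply he
        replace hne := prod_ne_zero_iff.1 hne
        refine Equiv.ext fun i => ?_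
        by_cases hia : (i : Fin N) = a
        · rcases nz _ _ (hne i (mem_univ _)) with h | h
          · exfalso
            have h4 := (e i).2
            rw [h, hia] at h4
            simp [hab] at h4
          · refine Subtype.ext ?_
            rw [h.2]
            simp only [e0, Equiv.coe_fn_mk, dif_pos hia]
        · rcases nz _ _ (hne i (mem_univ _)) with h | h
          · refine Subtype.ext ?_
            rw [h]
            simp only [e0, Equiv.coe_fn_mk, dif_neg hia]
          · exact absurd h.1 hia
      · intro h; exact absurd (mem_univ _) h
    · rw [if_neg h2]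
      refine sum_eq_zero fun e _ => ?_
      by_contra hne
      replace hne := prod_ne_zero_iff.1 hne
      by_cases hfix : ∀ i : S, ((e i : S') : Fin N) = i
      · apply h1
        ext x
        constructor
        · intro hx
          have h3 := hfix (e.symm ⟨x, hx⟩)
          rw [Equiv.apply_symm_apply] at h3
          simp only at h3
          rw [h3]; exact (e.symm ⟨x, hx⟩).2
        · intro hx
          have h3 := hfix ⟨x, hx⟩
          simp only at h3
          rw [← h3]; exact (e ⟨x, hx⟩).2
      · push Not at hfix
        obtain ⟨i, hi⟩ := hfix
        rcases nz _ _ (hne i (mem_univ _)) with h | h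
        · exact hi h
        · apply h2
          obtain ⟨hia, heb⟩ := h
          have haS : a ∈ S := hia ▸ i.2
          have hbS : b ∉ S := by
            intro hbS
            rcases nz _ _ (hne ⟨b, hbS⟩ (mem_univ _)) with h | h
            · have h4 : e ⟨b, hbS⟩ = e i := Subtype.ext (h.trans heb.symm)
              have h5 := congrArg Subtype.val (e.injective h4)
              exact hab (hia.symm.trans h5.symm)
            · exact hab.symm h.1
          refine ⟨haS, hbS, ?_⟩
          have hfix : ∀ k : S, (k : Fin N) ≠ a → ((e k : S') : Fin N) = k := by
            intro k hk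
            rcases nz _ _ (hne k (mem_univ _)) with h | h
            · exact h
            · exact absurd h.1 hk
          ext x
          rw [mem_insert, mem_erase]
          constructor
          · intro hx
            by_cases h3 : (e.symm ⟨x, hx⟩ : Fin N) = a
            · left
              have h4 : e.symm ⟨x, hx⟩ = i := Subtype.ext (h3.trans hia.symm)
              have h5 : (⟨x, hx⟩ : S') = e i := by rw [← h4, Equiv.apply_symm_apply]
              exact (congrArg Subtype.val h5).trans heb
            · right
              have h4 := hfix _ h3
              rw [Equiv.apply_symm_apply] at h4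
              simp only at h4
              rw [← h4] at h3
              refine ⟨h3, ?_⟩
              rw [h4]; exact (e.symm ⟨x, hx⟩).2
          · rintro (rfl | ⟨h3, h4⟩)
            · rw [← heb]; exact (e i).2
            · have h5 := hfix ⟨x, h4⟩ h3
              simp only at h5
              rw [← h5]; exact (e ⟨x, h4⟩).2

open MP_d81877_alI in
/-- the action of a transvection -/
theorem rho_transvection {a b : Fin N} (hab : a ≠ b) (t : K) (x : TT N 4 K) (S : Tup N) :
    rho (Matrix.transvection a b t) x S =
      ∑ T ∈ (cols a b S).powerset, t ^ T.card * x (mvs a b T S) := by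
  classical
  rw [rho_apply]
  have hinj : Set.InjOn (fun T => mvs a b T S) ((cols a b S).powerset : Set (Finset (Fin 4))) := by
    intro T hT T' hT' h
    simp only [coe_powerset, Set.mem_preimage, Set.mem_powerset_iff, coe_subset] at hT hT'
    ext l
    have h1 := congrFun h l
    simp only [mvs] at h1
    constructor
    · intro hl
      by_contra hl'
      rw [if_pos hl, if_neg hl'] at h1
      have h2 := (mem_filter.1 (hT hl)).2
      exact h2.2 (h1 ▸ mem_insert_self _ _)
    · intro hl
      by_contra hl'
      rw [if_neg hl', if_pos hl] at h1
      have h2 := (mem_filter.1 (hT' hl)).2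
      exact h2.2 (h1.symm ▸ mem_insert_self _ _)
  have hsub : ((cols a b S).powerset.image fun T => mvs a b T S) ⊆
      (univ : Finset (Fin 4 → Finset (Fin N))) := subset_univ _
  rw [← sum_subset hsub, sum_image hinj]
  · refine sum_congr rfl fun T hT => ?_
    have hT' := mem_powerset.1 hT
    have h3 : ∏ j, mn (Matrix.transvection a b t) (S j) (mvs a b T S j) =
        ∏ j, if j ∈ T then t else 1 := by
      refine prod_congr rfl fun j _ => ?_
      rw [mn_transvection hab]
      by_cases hj : j ∈ T
      · have h2 := (mem_filter.1 (hT' hj)).2
        have h4 : mvs a b T S j = insert b ((S j).erase a) := by simp [mvs, hj]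
        rw [h4, if_pos hj, if_neg, if_pos ⟨h2.1, h2.2, rfl⟩]
        intro h
        exact h2.2 (h ▸ mem_insert_self _ _)
      · have h4 : mvs a b T S j = S j := by simp [mvs, hj]
        rw [h4, if_pos rfl, if_neg hj]
    rw [h3, prod_ite_mem, univ_inter, prod_const]
  · intro S' _ hS'
    have : ∃ j, mn (Matrix.transvection a b t) (S j) (S' j) = 0 := by
      by_contra hcon
      push Not at hcon
      apply hS'
      rw [mem_image]
      have h5 : ∀ j, S' j = S j ∨ (a ∈ S j ∧ b ∉ S j ∧ S' j = insert b ((S j).erase a)) := by
        intro j
        have h6 := hcon j
        rw [mn_transvection hab] at h6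
        by_contra h7
        rw [not_or] at h7
        rw [if_neg h7.1, if_neg h7.2] at h6
        exact h6 rfl
      refine ⟨univ.filter (fun j => S' j ≠ S j), ?_, ?_⟩
      · rw [mem_powerset]
        intro j hj
        have h6 := (mem_filter.1 hj).2
        rcases h5 j with h7 | h7
        · exact absurd h7 h6
        · simp [cols, h7.1, h7.2.1]
      · funext j
        simp only [mvs, mem_filter, mem_univ, true_and]
        rcases h5 j with h7 | h7
        · rw [if_neg (by simp [h7])]; exact h7.symm
        · by_cases h8 : S' j = S j
          · rw [if_neg (by simp [h8])]; exact h8.symm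
          · rw [if_pos h8]; exact h7.2.2.symm
    obtain ⟨j, hj⟩ := this
    rw [prod_eq_zero (mem_univ j) hj, zero_mul]

end D81877C
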