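import Pool.Agent.Lib.MP_d81877_alC.Square
import Pool.Agent.Lib.MP_d81877_alC.Dimer

/-!
Words of weight zero, the functional `nu`, iterated contractions, and the local relations.
-/

namespace D81877C

open Finset Function Pool.Agent.D818A

set_option linter.unusedSectionVars false

variable {N : ℕ} {K : Type*} [CommRing K]

/-- The word of weight zero on `V` with letter `{1, 3}` on `A`, letter `{0, 2}` on `X \ A`, and the
letter `{0, 1}` on `V \ X`. -/
def word (V X A : Finset (Fin N)) : Tup N := ![V \ A, V \ (X \ A), X \ A, A]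

/-- The functional `nu`. -/
def nu (V X : Finset (Fin N)) (m : ℕ) (u : Tup N → K) : K :=
  ∑ A ∈ X.powersetCard m, u (word V X A)

/-- the letter of the empty sites -/
abbrev vac : Finset (Fin 4) := {0, 1}

theorem mem_word {V X A : Finset (Fin N)} {k : Fin 4} {i : Fin N} :
    i ∈ word V X A k ↔ (k = 0 ∧ i ∈ V ∧ i ∉ A) ∨ (k = 1 ∧ i ∈ V ∧ ¬ (i ∈ X ∧ i ∉ A)) ∨
      (k = 2 ∧ i ∈ X ∧ i ∉ A) ∨ (k = 3 ∧ i ∈ A) := by
  fin_cases k <;> simp [word]

theorem ltr_word_off {V X A : Finset (Fin N)} (hX : X ⊆ V) (hA : A ⊆ X) {i : Fin N}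
    (hi : i ∉ V) : ltr (word V X A) i = ∅ := by
  ext k
  simp only [mem_ltr, mem_word, notMem_empty, iff_false]
  have h1 : i ∉ X := fun h => hi (hX h)
  have h2 : i ∉ A := fun h => h1 (hA h)
  tauto

theorem ltr_word_vac {V X A : Finset (Fin N)} (hA : A ⊆ X) {i : Fin N}
    (hi : i ∈ V) (hiX : i ∉ X) : ltr (word V X A) i = vac := by
  ext k
  have h2 : i ∉ A := fun h => hiX (hA h)
  simp only [mem_ltr, mem_word, hi, hiX, h2, not_false_eq_true, true_and, and_true,
    false_and, and_false, or_false, mem_insert, mem_singleton]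

theorem put_vac_word {V X A : Finset (Fin N)} (hA : A ⊆ X) {i : Fin N} (hiX : i ∉ X) :
    put i vac (word V X A) = word (insert i V) X A := by
  refine tup_ext fun k x => ?_
  have h2 : i ∉ A := fun h => hiX (hA h)
  simp only [mem_put, mem_word]
  by_cases hx : x = i
  · subst hx
    simp [hiX, h2]
  · simp [hx]

theorem put_empty_word {V X A : Finset (Fin N)} (hA : A ⊆ X) {i : Fin N} (hiX : i ∉ X) :
    put i ∅ (word V X A) = word (V.erase i) X A := by
  refine tup_ext fun k x => ?_
  have h2 : i ∉ A := fun h => hiX (hA h)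
  simp only [mem_put, mem_word]
  by_cases hx : x = i
  · subst hx
    simp [hiX, h2]
  · simp [hx]

/-- `E a b` at a word with the same letter at `a` and `b`. -/
theorem E_same {a b : Fin N} {S : Tup N} (h : ltr S a = ltr S b) (u : Tup N → K) :
    E a b u S = 0 := by
  unfold E
  refine sum_eq_zero fun l _ => if_neg ?_
  rintro ⟨h1, h2⟩
  rw [← mem_ltr, h, mem_ltr] at h1
  exact h2 h1

theorem nu_E_off {V X : Finset (Fin N)} {m : ℕ} {a b : Fin N} (ha : a ∈ V) (hb : b ∈ V)
    (haX : a ∉ X) (hbX : b ∉ X) (u : Tup N → K) : nu V X m (E a b u) = 0 := by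
  refine sum_eq_zero fun A hA => E_same ?_ u
  have hA' := (mem_powersetCard.1 hA).1
  rw [ltr_word_vac hA' ha haX, ltr_word_vac hA' hb hbX]

section char_two

variable [CharP K 2]

/-- The triangle identity at a word. -/
theorem tri_word {a b c : Fin N} (hab : a ≠ b) (hac : a ≠ c) (hbc : b ≠ c) (w : Tup N → K)
    {S : Tup N} (ha : ltr S a = ∅) (hb : ltr S b = vac) (hc : ltr S c = ∅) :
    cc 2 a c (E a b (E b a w)) S = cc 2 a c w S + cc 2 b c w (put a vac (put b ∅ S)) +
      cc 2 a b w (put b ∅ (put c vac S)) := by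
  have hvac : vac.card = 2 := by decide
  rw [cc_of ha hc, cc_of ha hc, cc_of (by rw [ltr_put_of_ne hab.symm, ltr_put_self])
    (by rw [ltr_put_of_ne hac.symm, ltr_put_of_ne hbc.symm, hc]),
    cc_of (by rw [ltr_put_of_ne hab, ltr_put_of_ne hac, ha]) (by rw [ltr_put_self])]
  have e1 : ∀ C ∈ (univ : Finset (Fin 4)).powersetCard 2,
      E a b (E b a w) (put a C (put c Cᶜ S)) =
        w (put a C (put c Cᶜ S)) + w (put b C (put c Cᶜ (put a vac (put b ∅ S)))) +
          if vac = Cᶜ then ∑ D ∈ (univ : Finset (Fin 4)).powersetCard 2,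
            w (put a D (put b Dᶜ (put b ∅ (put c vac S)))) else 0 := by
    intro C hC
    have hC' := (mem_powersetCard.1 hC).2
    have hS : put c Cᶜ S = put b vac (put c Cᶜ S) := by
      rw [put_comm hbc, put_of_ltr hb]
    rw [hS, E_E hab hC' hvac, ← hS]
    congr 1
    · congr 2
      rw [put_comm hac.symm, put_comm hab.symm, put_comm hbc.symm Cᶜ ∅ S, put_put]
    · split_ifs with h
      · refine sum_congr rfl fun D _ => ?_
        rw [put_put, ← h]
      · rfl
  rw [sum_congr rfl e1, sum_add_distrib, sum_add_distrib]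
  congr 1
  rw [← sum_filter]
  have : ((univ : Finset (Fin 4)).powersetCard 2).filter (fun C => vac = Cᶜ) = {vacᶜ} := by
    decide
  rw [this, sum_singleton]

/-- The crossing identity. -/
theorem cross_word {a b c d : Fin N} (hab : a ≠ b) (hac : a ≠ c) (had : a ≠ d) (hbc : b ≠ c)
    (hbd : b ≠ d) (hcd : c ≠ d) (w : Tup N → K) {S : Tup N} (ha : ltr S a = ∅)
    (hb : ltr S b = ∅) (hc : ltr S c = ∅) (hd : ltr S d = ∅) :
    cc 2 a c (cc 2 b d (E a b (E b a w))) S =
      cc 2 a c (cc 2 b d w) S + cc 2 b c (cc 2 a d w) S + cc 2 a b (cc 2 c d w) S := by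
  have key : ∀ F : Tup N → K, cc 2 a c (cc 2 b d F) S =
      ∑ C ∈ (univ : Finset (Fin 4)).powersetCard 2, ∑ D ∈ (univ : Finset (Fin 4)).powersetCard 2,
        F (put a C (put b D (put c Cᶜ (put d Dᶜ S)))) := by
    intro F
    rw [cc_of ha hc]
    refine sum_congr rfl fun C _ => ?_
    rw [cc_of (by rw [ltr_put_of_ne hab.symm, ltr_put_of_ne hbc, hb])
      (by rw [ltr_put_of_ne had.symm, ltr_put_of_ne hcd.symm, hd])]
    refine sum_congr rfl fun D _ => ?_
    rw [put_comm had.symm, put_comm hcd.symm, put_comm hab.symm]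
  have key2 : cc 2 b c (cc 2 a d w) S =
      ∑ C ∈ (univ : Finset (Fin 4)).powersetCard 2, ∑ D ∈ (univ : Finset (Fin 4)).powersetCard 2,
        w (put a D (put b C (put c Cᶜ (put d Dᶜ S)))) := by
    rw [cc_of hb hc]
    refine sum_congr rfl fun C _ => ?_
    rw [cc_of (by rw [ltr_put_of_ne hab, ltr_put_of_ne hac, ha])
      (by rw [ltr_put_of_ne hbd.symm, ltr_put_of_ne hcd.symm, hd])]
    refine sum_congr rfl fun D _ => ?_
    rw [put_comm hbd.symm, put_comm hcd.symm]
  have key3 : cc 2 a b (cc 2 c d w) S =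
      ∑ D ∈ (univ : Finset (Fin 4)).powersetCard 2, ∑ C ∈ (univ : Finset (Fin 4)).powersetCard 2,
        w (put a C (put b Cᶜ (put c D (put d Dᶜ S)))) := by
    rw [cc_of ha hb, sum_comm]
    refine sum_congr rfl fun C _ => ?_
    rw [cc_of (by rw [ltr_put_of_ne hac.symm, ltr_put_of_ne hbc.symm, hc])
      (by rw [ltr_put_of_ne had.symm, ltr_put_of_ne hbd.symm, hd])]
    refine sum_congr rfl fun D _ => ?_
    rw [put_comm had.symm, put_comm hbd.symm, put_comm hac.symm, put_comm hbc.symm]
  rw [key, key, key2, key3]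
  have e1 : ∀ C ∈ (univ : Finset (Fin 4)).powersetCard 2,
      ∑ D ∈ (univ : Finset (Fin 4)).powersetCard 2,
        E a b (E b a w) (put a C (put b D (put c Cᶜ (put d Dᶜ S)))) =
      ∑ D ∈ (univ : Finset (Fin 4)).powersetCard 2,
        w (put a C (put b D (put c Cᶜ (put d Dᶜ S)))) +
      ∑ D ∈ (univ : Finset (Fin 4)).powersetCard 2,
        w (put a D (put b C (put c Cᶜ (put d Dᶜ S)))) +
      ∑ X ∈ (univ : Finset (Fin 4)).powersetCard 2,
        w (put a X (put b Xᶜ (put c Cᶜ (put d C S)))) := by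
    intro C hC
    have hC' := (mem_powersetCard.1 hC).2
    rw [← sum_add_distrib]
    have hCc : Cᶜ ∈ (univ : Finset (Fin 4)).powersetCard 2 := by
      simp [card_compl, hC']
    have : ∑ X ∈ (univ : Finset (Fin 4)).powersetCard 2,
        w (put a X (put b Xᶜ (put c Cᶜ (put d C S)))) =
        ∑ D ∈ (univ : Finset (Fin 4)).powersetCard 2, if D = Cᶜ then
          ∑ X ∈ (univ : Finset (Fin 4)).powersetCard 2,
            w (put a X (put b Xᶜ (put c Cᶜ (put d Dᶜ S)))) else 0 := by
      rw [sum_ite_eq' , if_pos hCc, compl_compl]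
    rw [this, ← sum_add_distrib]
    refine sum_congr rfl fun D hD => ?_
    exact E_E hab hC' (mem_powersetCard.1 hD).2 w _
  rw [sum_congr rfl e1, sum_add_distrib, sum_add_distrib]
  congr 1
  refine sum_nbij' (fun A => Aᶜ) (fun A => Aᶜ) ?_ ?_ ?_ ?_ ?_
  · intro A hA
    simp only [mem_powersetCard, subset_univ, true_and, card_compl, Fintype.card_fin] at hA ⊢
    omega
  · intro A hA
    simp only [mem_powersetCard, subset_univ, true_and, card_compl, Fintype.card_fin] at hA ⊢
    omega
  · intro A _; exact compl_compl A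
  · intro A _; exact compl_compl A
  · intro A _
    rw [compl_compl]

end char_two

end D81877C
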